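import Pool.Agent.LibOpc.ODefs

set_option autoImplicit false

/-!
Row OA1. Three points cannot each be strictly farthest from some point.
-/

namespace Pool.Agent.LibOpc

open SimpleGraph Pool.Agent.LibPcg

theorem lemmaT_aux {V : Type} {d : V → V → ℝ} (hd : FourPt d) (x1 x2 x3 y1 y2 y3 : V)
    (h12 : d x1 y2 < d x1 y1) (h13 : d x1 y3 < d x1 y1) (h21 : d x2 y1 < d x2 y2)
    (h23 : d x2 y3 < d x2 y2) : d y1 y3 < d y1 y2 := by
  -- quartet `x1, x2, y1, y2`
  have e1 : d x1 y1 + d x2 y2 ≤ d x1 x2 + d y1 y2 := by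
    have h := hd.four x1 y1 x2 y2
    rcases le_max_iff.1 h with h | h
    · exact h
    · have := hd.symm x2 y1
      have := hd.symm y1 x2
      linarith
  -- quartet `x1, x2, y1, y3`
  have h := hd.four x1 x2 y1 y3
  have := hd.symm x2 y1
  have := hd.symm x2 y3
  rcases le_max_iff.1 h with h | h
  · linarith
  · linarith

/-- **Lemma T.** -/
theorem lemmaT {V : Type} {d : V → V → ℝ} (hd : FourPt d) (x y : Fin 3 → V)
    (h : ∀ i j, i ≠ j → d (x i) (y j) < d (x i) (y i)) : False := by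
  have h1 := lemmaT_aux hd (x 0) (x 1) (x 2) (y 0) (y 1) (y 2) (h 0 1 (by decide))
    (h 0 2 (by decide)) (h 1 0 (by decide)) (h 1 2 (by decide))
  have h2 := lemmaT_aux hd (x 0) (x 2) (x 1) (y 0) (y 2) (y 1) (h 0 2 (by decide))
    (h 0 1 (by decide)) (h 2 0 (by decide)) (h 2 1 (by decide))
  linarith

end Pool.Agent.LibOpc
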