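import Pool.Agent.LibOpc.ODefs

set_option autoImplicit false

/-!
Row OA3. Caterpillars: union of two chain graphs as one layer.

`fourPt_cat`. `self`, `symm` clear. `four`: as in LibPcg/PC6.lean (`fourPt_star`): if two of the
points on different sides of the inequality coincide it is an equality or follows from the
triangle inequality; if all four are different the heights cancel and it remains
`|a - b| + |c - e| ≤ max (|a - c| + |b - e|) (|a - e| + |b - c|)` for real numbers
(cases on the signs of all absolute values, `abs_cases`, `linarith`; or sort: at most the largest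
two sums are equal). Triangle inequality: `abs_sub_le` and `0 ≤ h`.

`layer`. Let `B` be a bound (`B ≥ 1`, `|F1 v| ≤ B`, `|F2 v| ≤ B` for all `v`; finite type), and
`L = 100 * B`. For `side v = true`: `p v = (F2 v - F1 v) / 2`, `h v = 2 L - (F1 v + F2 v) / 2`.
For `side v = false`: `p v = (F2 v - F1 v) / 2`, `h v = L - 1/2 + (F1 v + F2 v) / 2`. Then for
`side u = true`, `side v = false`: `d u v = 3 L - 1/2 + max (F1 v - F1 u) (F2 v - F2 u)`.
Thresholds `a = 3 L`, `b = 3 L + 2 B + 1`. Two vertices on side `true`: `d ≥ 4 L - 2 B > b`. Two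
vertices on side `false`: `d ≤ 2 L - 1 + 4 B < a`.
-/

namespace Pool.Agent.LibOpc

open SimpleGraph Pool.Agent.LibPcg

private theorem oa3_four (a b c e : ℝ) :
    |a - b| + |c - e| ≤ |a - c| + |b - e| ∨ |a - b| + |c - e| ≤ |a - e| + |b - c| := by
  rcases abs_cases (a - b) with ⟨h1, h1'⟩ | ⟨h1, h1'⟩ <;>
  rcases abs_cases (c - e) with ⟨h2, h2'⟩ | ⟨h2, h2'⟩ <;>
  rcases abs_cases (a - c) with ⟨h3, h3'⟩ | ⟨h3, h3'⟩ <;>
  rcases abs_cases (b - e) with ⟨h4, h4'⟩ | ⟨h4, h4'⟩ <;>
  rcases abs_cases (a - e) with ⟨h5, h5'⟩ | ⟨h5, h5'⟩ <;>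
  rcases abs_cases (b - c) with ⟨h6, h6'⟩ | ⟨h6, h6'⟩ <;>
  rw [h1, h2, h3, h4, h5, h6] <;>
  first
    | (left; linarith)
    | (right; linarith)

open Classical in
theorem fourPt_cat {V : Type} (p h : V → ℝ) (hh : ∀ x, 0 ≤ h x) :
    FourPt (fun x y => if x = y then 0 else |p x - p y| + h x + h y) := by
  obtain ⟨d, hd⟩ : ∃ d : V → V → ℝ, d = fun x y =>
      if x = y then 0 else |p x - p y| + h x + h y := ⟨_, rfl⟩
  have hself : ∀ x, d x x = 0 := fun x => by rw [hd]; exact if_pos rfl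
  have hne : ∀ x y, x ≠ y → d x y = |p x - p y| + h x + h y :=
    fun x y hxy => by rw [hd]; exact if_neg hxy
  have hsymm : ∀ x y, d x y = d y x := fun x y => by
    by_cases hxy : x = y
    · rw [hxy]
    · rw [hne x y hxy, hne y x (Ne.symm hxy), abs_sub_comm]
      ring
  have hnn : ∀ x y, 0 ≤ d x y := fun x y => by
    by_cases hxy : x = y
    · rw [hxy, hself]
    · rw [hne x y hxy]
      have := hh x
      have := hh y
      have := abs_nonneg (p x - p y)
      linarith
  have htri : ∀ x y z, d x y ≤ d x z + d z y := fun x y z => by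
    by_cases hxy : x = y
    · rw [hxy, hself]
      exact add_nonneg (hnn _ _) (hnn _ _)
    · by_cases hxz : x = z
      · rw [hxz, hself, zero_add]
      · by_cases hzy : z = y
        · rw [hzy, hself, add_zero]
        · rw [hne x y hxy, hne x z hxz, hne z y hzy]
          have := hh z
          have := abs_sub_le (p x) (p z) (p y)
          linarith
  rw [← hd]
  refine ⟨hself, hsymm, fun x y z u => ?_⟩
  by_cases hxz : x = z
  · refine le_max_of_le_right (le_of_eq ?_)
    rw [hxz, hsymm y z, add_comm]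
  by_cases hxu : x = u
  · refine le_max_of_le_left (le_of_eq ?_)
    rw [hxu, hsymm y u, hsymm z u, add_comm]
  by_cases hyz : y = z
  · refine le_max_of_le_left (le_of_eq ?_)
    rw [hyz]
  by_cases hyu : y = u
  · refine le_max_of_le_right (le_of_eq ?_)
    rw [hyu, hsymm z u]
  by_cases hxy : x = y
  · refine le_max_of_le_left ?_
    rw [hxy, hself, zero_add, hsymm y z]
    exact htri z u y
  by_cases hzu : z = u
  · refine le_max_of_le_left ?_
    rw [hzu, hself, add_zero, hsymm y u]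
    exact htri x y u
  rw [hne _ _ hxz, hne _ _ hxu, hne _ _ hyz, hne _ _ hyu, hne _ _ hxy, hne _ _ hzu, le_max_iff]
  rcases oa3_four (p x) (p y) (p z) (p u) with h | h
  · left
    linarith
  · right
    linarith

private theorem oa3_max (x y : ℝ) : |x - y| / 2 + (x + y) / 2 = max x y := by
  rcases le_total x y with h | h
  · rw [max_eq_right h, abs_of_nonpos (by linarith)]
    ring
  · rw [max_eq_left h, abs_of_nonneg (by linarith)]
    ring

theorem layer {V : Type} [Finite V] (side : V → Bool) (F1 F2 : V → ℤ) :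
    ∃ (d : V → V → ℝ) (a b : ℝ), FourPt d ∧ 0 ≤ a ∧ 0 ≤ b ∧ ∀ u v, u ≠ v →
      (Mid d a b u v ↔
        (side u = true ∧ side v = false ∧ (F1 u < F1 v ∨ F2 u < F2 v)) ∨
        (side u = false ∧ side v = true ∧ (F1 v < F1 u ∨ F2 v < F2 u))) := by
  classical
  obtain ⟨B1, hB1⟩ := (Set.finite_range (fun v => |(F1 v : ℝ)|)).bddAbove
  obtain ⟨B2, hB2⟩ := (Set.finite_range (fun v => |(F2 v : ℝ)|)).bddAbove
  obtain ⟨B, hB0, hb1, hb2⟩ : ∃ B : ℝ, 1 ≤ B ∧ (∀ v, |(F1 v : ℝ)| ≤ B) ∧
      ∀ v, |(F2 v : ℝ)| ≤ B :=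
    ⟨max 1 (max B1 B2), le_max_left _ _,
      fun v => (hB1 ⟨v, rfl⟩).trans ((le_max_left _ _).trans (le_max_right _ _)),
      fun v => (hB2 ⟨v, rfl⟩).trans ((le_max_right _ _).trans (le_max_right _ _))⟩
  obtain ⟨p, hp⟩ : ∃ p : V → ℝ, ∀ v, p v = ((F2 v : ℝ) - F1 v) / 2 := ⟨_, fun _ => rfl⟩
  obtain ⟨h, ht, hf⟩ : ∃ h : V → ℝ,
      (∀ v, side v = true → h v = 2 * (100 * B) - ((F1 v : ℝ) + F2 v) / 2) ∧
      (∀ v, side v = false → h v = 100 * B - 1 / 2 + ((F1 v : ℝ) + F2 v) / 2) :=
    ⟨fun v => if side v = true then 2 * (100 * B) - ((F1 v : ℝ) + F2 v) / 2 else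
        100 * B - 1 / 2 + ((F1 v : ℝ) + F2 v) / 2,
      fun v hv => by simp [hv], fun v hv => by simp [hv]⟩
  have hF1 : ∀ v, -B ≤ (F1 v : ℝ) ∧ (F1 v : ℝ) ≤ B := fun v => abs_le.mp (hb1 v)
  have hF2 : ∀ v, -B ≤ (F2 v : ℝ) ∧ (F2 v : ℝ) ≤ B := fun v => abs_le.mp (hb2 v)
  have hh : ∀ v, 0 ≤ h v := by
    intro v
    have h1 := hF1 v
    have h2 := hF2 v
    rcases hs : side v with _ | _
    · rw [hf v hs]
      linarith [h1.1, h2.1]
    · rw [ht v hs]
      linarith [h1.2, h2.2]
  have hpp : ∀ u v, |p u - p v| ≤ 2 * B := by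
    intro u v
    rw [hp, hp, abs_le]
    have h1 := hF1 u
    have h2 := hF2 u
    have h3 := hF1 v
    have h4 := hF2 v
    constructor <;> linarith [h1.1, h1.2, h2.1, h2.2, h3.1, h3.2, h4.1, h4.2]
  have key : ∀ u v, side u = true → side v = false →
      |p u - p v| + h u + h v = 3 * (100 * B) - 1 / 2 +
        max ((F1 v : ℝ) - F1 u) ((F2 v : ℝ) - F2 u) := by
    intro u v hu hv
    rw [ht u hu, hf v hv, ← oa3_max, hp, hp]
    have e : |((F2 u : ℝ) - F1 u) / 2 - ((F2 v : ℝ) - F1 v) / 2| =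
        |((F1 v : ℝ) - F1 u) - ((F2 v : ℝ) - F2 u)| / 2 := by
      rw [show ((F2 u : ℝ) - F1 u) / 2 - ((F2 v : ℝ) - F1 v) / 2 =
        (((F1 v : ℝ) - F1 u) - ((F2 v : ℝ) - F2 u)) / 2 by ring, abs_div, abs_two]
    rw [e]
    ring
  have kmid : ∀ u v, side u = true → side v = false →
      ((3 * (100 * B) ≤ |p u - p v| + h u + h v ∧
        |p u - p v| + h u + h v < 3 * (100 * B) + 2 * B + 1) ↔
        (F1 u < F1 v ∨ F2 u < F2 v)) := by
    intro u v hu hv
    rw [key u v hu hv]
    have h1 := hF1 u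
    have h2 := hF2 u
    have h3 := hF1 v
    have h4 := hF2 v
    constructor
    · rintro ⟨hge, _⟩
      by_contra hcon
      push Not at hcon
      have c1 : (F1 v : ℝ) ≤ F1 u := by exact_mod_cast hcon.1
      have c2 : (F2 v : ℝ) ≤ F2 u := by exact_mod_cast hcon.2
      have : max ((F1 v : ℝ) - F1 u) ((F2 v : ℝ) - F2 u) ≤ 0 :=
        max_le (by linarith) (by linarith)
      linarith
    · intro hor
      have hmax : max ((F1 v : ℝ) - F1 u) ((F2 v : ℝ) - F2 u) ≤ 2 * B :=
        max_le (by linarith [h1.1, h3.2]) (by linarith [h2.1, h4.2])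
      refine ⟨?_, by linarith⟩
      rcases hor with hor | hor
      · have c : (F1 u : ℝ) + 1 ≤ F1 v := by exact_mod_cast hor
        have : (1 : ℝ) ≤ max ((F1 v : ℝ) - F1 u) ((F2 v : ℝ) - F2 u) :=
          le_max_of_le_left (by linarith)
        linarith
      · have c : (F2 u : ℝ) + 1 ≤ F2 v := by exact_mod_cast hor
        have : (1 : ℝ) ≤ max ((F1 v : ℝ) - F1 u) ((F2 v : ℝ) - F2 u) :=
          le_max_of_le_right (by linarith)
        linarith
  refine ⟨fun x y => if x = y then 0 else |p x - p y| + h x + h y, 3 * (100 * B),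
    3 * (100 * B) + 2 * B + 1, fourPt_cat p h hh, by linarith, by linarith, ?_⟩
  intro u v huv
  unfold Mid
  simp only [if_neg huv]
  have h1 := hF1 u
  have h2 := hF2 u
  have h3 := hF1 v
  have h4 := hF2 v
  have hpp' := hpp u v
  have habs := abs_nonneg (p u - p v)
  rcases hu : side u with _ | _ <;> rcases hv : side v with _ | _
  · -- both false
    constructor
    · rintro ⟨hge, _⟩
      exfalso
      rw [hf u hu, hf v hv] at hge
      linarith [h1.2, h2.2, h3.2, h4.2]
    · rintro (⟨h', _⟩ | ⟨_, h', _⟩) <;> exact absurd h' (by decide)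
  · -- u false, v true
    have e : |p u - p v| + h u + h v = |p v - p u| + h v + h u := by
      rw [abs_sub_comm]; ring
    rw [e, kmid v u hv hu]
    constructor
    · intro hor
      exact Or.inr ⟨rfl, rfl, hor⟩
    · rintro (⟨h', _⟩ | ⟨_, _, hor⟩)
      · exact absurd h' (by decide)
      · exact hor
  · rw [kmid u v hu hv]
    constructor
    · intro hor
      exact Or.inl ⟨rfl, rfl, hor⟩
    · rintro (⟨_, _, hor⟩ | ⟨h', _⟩)
      · exact hor
      · exact absurd h' (by decide)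
  · constructor
    · rintro ⟨_, hlt⟩
      exfalso
      rw [ht u hu, ht v hv] at hlt
      linarith [h1.2, h2.2, h3.2, h4.2]
    · rintro (⟨_, h', _⟩ | ⟨h', _⟩) <;> exact absurd h' (by decide)

end Pool.Agent.LibOpc
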