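import Pool.Agent.LibOpc.ODefs

set_option autoImplicit false

/-!
Row OA4. The keys of the positions.

`lexk M c p = p c * M ^ D + ∑ c', p c' * M ^ c'`.

(1) `p c < q c`, all coordinates `< M` implies `lexk p < lexk q`: the second part is `< M ^ D`
(`∑ c', p c' * M ^ c' ≤ ∑ c', (M - 1) * M ^ c' = M ^ D - 1`; by induction on `D`, or
`Nat.geomSum_lt`, `Fin.sum_univ_eq_sum_range`, or `Nat.ofDigits_lt_base_pow_length`).
(2) if `lexk p < lexk q` then `p c' < q c'` for some `c'` (otherwise `q ≤ p`, monotone).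
(3) if `lexk p = lexk q`, `M ≥ 1`, then `p = q` or some `p c' < q c'` (otherwise `q ≤ p`, and
`q ≠ p` gives strictly smaller: `Finset.sum_lt_sum`).
-/

namespace Pool.Agent.LibOpc

/-- the key of a position, coordinate `c` first -/
def lexk {D : ℕ} (M : ℕ) (c : Fin D) (p : Fin D → ℕ) : ℕ :=
  p c * M ^ D + ∑ c', p c' * M ^ (c' : ℕ)

private theorem sum_lt_pow {D M : ℕ} (hM : 0 < M) (p : Fin D → ℕ) (hp : ∀ c, p c < M) :
    ∑ c', p c' * M ^ (c' : ℕ) < M ^ D := by
  induction D with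
  | zero => simp
  | succ D ih =>
    rw [Fin.sum_univ_castSucc]
    have h1 := ih (fun i => p i.castSucc) (fun c => hp _)
    have h2 : p (Fin.last D) * M ^ ((Fin.last D : Fin (D + 1)) : ℕ) ≤ (M - 1) * M ^ D := by
      rw [Fin.val_last]
      exact Nat.mul_le_mul_right _ (Nat.le_sub_one_of_lt (hp _))
    have h3 : (M - 1) * M ^ D + M ^ D = M ^ (D + 1) := by
      obtain ⟨k, rfl⟩ : ∃ k, M = k + 1 := ⟨M - 1, by omega⟩
      rw [Nat.add_sub_cancel, pow_succ]
      ring
    simp only [Fin.val_castSucc] at h1 ⊢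
    omega

theorem lexk_lt {D M : ℕ} (c : Fin D) (p q : Fin D → ℕ) (hp : ∀ c, p c < M)
    (h : p c < q c) : lexk M c p < lexk M c q := by
  have hM : 0 < M := lt_of_le_of_lt (Nat.zero_le _) (hp c)
  have h1 := sum_lt_pow hM p hp
  unfold lexk
  have h2 : (p c + 1) * M ^ D ≤ q c * M ^ D := Nat.mul_le_mul_right _ h
  have h3 : (p c + 1) * M ^ D = p c * M ^ D + M ^ D := by ring
  omega

theorem exists_lt_of_lexk {D M : ℕ} (c : Fin D) (p q : Fin D → ℕ)
    (h : lexk M c p < lexk M c q) : ∃ c', p c' < q c' := by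
  by_contra hcon
  push Not at hcon
  have h1 : lexk M c q ≤ lexk M c p := by
    unfold lexk
    exact Nat.add_le_add (Nat.mul_le_mul_right _ (hcon c))
      (Finset.sum_le_sum fun c' _ => Nat.mul_le_mul_right _ (hcon c'))
  omega

theorem eq_of_lexk {D M : ℕ} (hM : 1 ≤ M) (c : Fin D) (p q : Fin D → ℕ)
    (h : lexk M c p = lexk M c q) : p = q ∨ ∃ c', p c' < q c' := by
  by_contra hcon
  push Not at hcon
  obtain ⟨hne, hle⟩ := hcon
  obtain ⟨c₀, hc₀⟩ := Function.ne_iff.mp hne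
  have hlt : q c₀ < p c₀ := lt_of_le_of_ne (hle c₀) (Ne.symm hc₀)
  have h1 : lexk M c q < lexk M c p := by
    unfold lexk
    refine Nat.add_lt_add_of_le_of_lt (Nat.mul_le_mul_right _ (hle c)) ?_
    refine Finset.sum_lt_sum (fun c' _ => Nat.mul_le_mul_right _ (hle c'))
      ⟨c₀, Finset.mem_univ _, ?_⟩
    exact Nat.mul_lt_mul_of_pos_right hlt (pow_pos (by omega) _)
  omega

end Pool.Agent.LibOpc
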