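import Pool.Agent.LibOpc.OA2
import Pool.Agent.LibOpc.OA3
import Pool.Agent.LibOpc.OA4

set_option autoImplicit false

/-!
Row OA5. If the relation is covered by `2 k` chains, then the composite graph is a `k`-OR-PCG.
Sketch. Let `W` be larger than all `φ c s`, `ψ c s`, `s ∈ S` (finite). For a vertex `v` and
`c : Fin (2 * k)` let `K c v : ℤ = lexk M c (pos v) * W + (if side v then φ c (item v) else
ψ c (item v))`. For `u` on side `true`, `v` on side `false`:
`K c u < K c v` iff `lexk u < lexk v` or (`lexk u = lexk v` and `φ c < ψ c`).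
So `K c u < K c v` implies `CRel` (`exists_lt_of_lexk`, `eq_of_lexk` with `h1`), and `CRel` implies
`K c u < K c v` for some `c` (`lexk_lt`; `h2`).
Layer `i : Fin k`: `layer side (K (2 i)) (K (2 i + 1))`. Then `orPCG_iff_mid`, `C.adj`. Every
`c : Fin (2 * k)` is `2 i` or `2 i + 1` with `i = c / 2`. Adjacent vertices are different
(different sides). For `M`: `1 ≤ M` follows from `C.pos_lt` if `1 ≤ k` (there is a vertex); for
`k = 0` everything is on `Fin 0`: `CRel` is `Φ`, and `h2` shows that there are no edges.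
-/

namespace Pool.Agent.LibOpc

open SimpleGraph Pool.Agent.LibPcg

theorem comp_isOrPCG {k M : ℕ} {I V : Type} [Finite V] [Nonempty V] {Φ : I → I → Prop}
    {S : Finset I} {G : SimpleGraph V} (C : Comp (2 * k) M Φ S G) (φ ψ : Fin (2 * k) → I → ℕ)
    (h1 : ∀ c, ∀ s ∈ S, ∀ t ∈ S, φ c s < ψ c t → Φ s t)
    (h2 : ∀ s ∈ S, ∀ t ∈ S, Φ s t → ∃ c, φ c s < ψ c t) : IsOrPCG k G := by
  classical
  set W : ℕ := 1 + ∑ s ∈ S, ∑ c, (φ c s + ψ c s) with hW
  have hb : ∀ c, ∀ s ∈ S, φ c s < W ∧ ψ c s < W := by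
    intro c s hs
    have h3 : ∑ c, (φ c s + ψ c s) ≤ ∑ s ∈ S, ∑ c, (φ c s + ψ c s) :=
      Finset.single_le_sum (f := fun s => ∑ c, (φ c s + ψ c s)) (fun _ _ => Nat.zero_le _) hs
    have h4 : φ c s + ψ c s ≤ ∑ c, (φ c s + ψ c s) :=
      Finset.single_le_sum (f := fun c => φ c s + ψ c s) (fun _ _ => Nat.zero_le _)
        (Finset.mem_univ c)
    omega
  let K : Fin (2 * k) → V → ℤ := fun c v =>
    ((lexk M c (C.pos v) * W + (if C.side v then φ c (C.item v) else ψ c (C.item v)) : ℕ) : ℤ)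
  have hKt : ∀ c v, C.side v = true →
      K c v = ((lexk M c (C.pos v) * W + φ c (C.item v) : ℕ) : ℤ) := by
    intro c v hv
    simp only [K, hv, if_true]
  have hKf : ∀ c v, C.side v = false →
      K c v = ((lexk M c (C.pos v) * W + ψ c (C.item v) : ℕ) : ℤ) := by
    intro c v hv
    simp only [K, hv]
    simp
  have hA : ∀ c u v, C.side u = true → C.side v = false → K c u < K c v →
      CRel Φ (C.pos u) (C.item u) (C.pos v) (C.item v) := by
    intro c u v hu hv h
    rw [hKt c u hu, hKf c v hv, Nat.cast_lt] at h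
    have hv2 := (hb c _ (C.item_mem v)).2
    have hM : 1 ≤ M := lt_of_le_of_lt (Nat.zero_le _) (C.pos_lt u c)
    rcases lt_trichotomy (lexk M c (C.pos u)) (lexk M c (C.pos v)) with hlt | heq | hgt
    · exact Or.inl (exists_lt_of_lexk c _ _ hlt)
    · rw [heq] at h
      have h5 : φ c (C.item u) < ψ c (C.item v) := by omega
      have h6 := h1 c _ (C.item_mem u) _ (C.item_mem v) h5
      rcases eq_of_lexk hM c _ _ heq with h7 | h7
      · exact Or.inr ⟨h7, h6⟩
      · exact Or.inl h7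
    · exfalso
      have h8 : (lexk M c (C.pos v) + 1) * W ≤ lexk M c (C.pos u) * W :=
        Nat.mul_le_mul_right _ hgt
      rw [Nat.add_mul, Nat.one_mul] at h8
      omega
  have hB : ∀ u v, C.side u = true → C.side v = false →
      CRel Φ (C.pos u) (C.item u) (C.pos v) (C.item v) → ∃ c, K c u < K c v := by
    intro u v hu hv h
    rcases h with ⟨c, hc⟩ | ⟨hp, hΦ⟩
    · refine ⟨c, ?_⟩
      have h9 := lexk_lt (M := M) c (C.pos u) (C.pos v) (C.pos_lt u) hc
      rw [hKt c u hu, hKf c v hv, Nat.cast_lt]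
      have hu2 := (hb c _ (C.item_mem u)).1
      have h8 : (lexk M c (C.pos u) + 1) * W ≤ lexk M c (C.pos v) * W :=
        Nat.mul_le_mul_right _ h9
      rw [Nat.add_mul, Nat.one_mul] at h8
      omega
    · obtain ⟨c, hc⟩ := h2 _ (C.item_mem u) _ (C.item_mem v) hΦ
      refine ⟨c, ?_⟩
      rw [hKt c u hu, hKf c v hv, Nat.cast_lt, hp]
      omega
  let c0 : Fin k → Fin (2 * k) := fun i => ⟨2 * (i : ℕ), by omega⟩
  let c1 : Fin k → Fin (2 * k) := fun i => ⟨2 * (i : ℕ) + 1, by omega⟩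
  have hc : ∀ c : Fin (2 * k), ∃ i : Fin k, c = c0 i ∨ c = c1 i := by
    intro c
    refine ⟨⟨(c : ℕ) / 2, by omega⟩, ?_⟩
    rcases Nat.mod_two_eq_zero_or_one (c : ℕ) with h | h
    · left
      apply Fin.ext
      show (c : ℕ) = 2 * ((c : ℕ) / 2)
      omega
    · right
      apply Fin.ext
      show (c : ℕ) = 2 * ((c : ℕ) / 2) + 1
      omega
  choose d a b hd ha hb' hm using fun i : Fin k => layer C.side (K (c0 i)) (K (c1 i))
  refine (orPCG_iff_mid k G).2 ⟨d, a, b, hd, fun i => ⟨ha i, hb' i⟩, fun u v => ?_⟩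
  rw [C.adj]
  constructor
  · rintro (⟨hu, hv, h⟩ | ⟨hu, hv, h⟩)
    · have hne : u ≠ v := by
        rintro rfl
        rw [hu] at hv
        exact Bool.noConfusion hv
      obtain ⟨c, hc'⟩ := hB u v hu hv h
      obtain ⟨i, hi⟩ := hc c
      refine ⟨hne, i, (hm i u v hne).2 (Or.inl ⟨hu, hv, ?_⟩)⟩
      rcases hi with rfl | rfl
      · exact Or.inl hc'
      · exact Or.inr hc'
    · have hne : u ≠ v := by
        rintro rfl
        rw [hu] at hv
        exact Bool.noConfusion hv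
      obtain ⟨c, hc'⟩ := hB v u hv hu h
      obtain ⟨i, hi⟩ := hc c
      refine ⟨hne, i, (hm i u v hne).2 (Or.inr ⟨hu, hv, ?_⟩)⟩
      rcases hi with rfl | rfl
      · exact Or.inl hc'
      · exact Or.inr hc'
  · rintro ⟨hne, i, hi⟩
    rcases (hm i u v hne).1 hi with ⟨hu, hv, h | h⟩ | ⟨hu, hv, h | h⟩
    · exact Or.inl ⟨hu, hv, hA _ u v hu hv h⟩
    · exact Or.inl ⟨hu, hv, hA _ u v hu hv h⟩
    · exact Or.inr ⟨hu, hv, hA _ v u hv hu h⟩
    · exact Or.inr ⟨hu, hv, hA _ v u hv hu h⟩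

end Pool.Agent.LibOpc
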