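import Mathlib

set_option autoImplicit false

/-!
Row OB1. Ramsey's theorem for pairs, finitely many colours.
Sketch. (a proof of the same theorem, in another form, is `ramsey_two` in
Pool/Agent/LibSAR/Ramsey.lean on main, with `r_end`, `r_pigeon`; it can be copied into this file as
private lemmas.) Usual proof: end-homogeneous sequences, then pigeonhole. A good form: for every
`t` there is `s` such that every `A : Finset ℕ` with `s ≤ A.card` and `χ : ℕ → ℕ → C` has
`B ⊆ A`, `B.card = t`, and `f : ℕ → C` with `χ i j = f i` for `i < j` in `B`. Then pigeonhole on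
`f`, and `Finset.orderEmbOfFin`.
-/

namespace Pool.Agent.LibOpc

private lemma r_pigeon {κ : Type} [Fintype κ] [DecidableEq κ] (S : Finset ℕ) (f : ℕ → κ) (n : ℕ)
    (hn : 1 ≤ n) (h : Fintype.card κ * n ≤ S.card) :
    ∃ x, n ≤ (S.filter fun i => f i = x).card := by
  classical
  by_contra hcon
  push Not at hcon
  have h1 : S.card = ∑ x : κ, (S.filter fun i => f i = x).card :=
    Finset.card_eq_sum_card_fiberwise (f := f) (t := Finset.univ) fun _ _ => Finset.mem_univ _
  have h2 : ∑ x : κ, (S.filter fun i => f i = x).card ≤ ∑ _x : κ, (n - 1) :=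
    Finset.sum_le_sum fun x _ => Nat.le_sub_one_of_lt (hcon x)
  rw [Finset.sum_const, Finset.card_univ, smul_eq_mul] at h2
  rcases Nat.eq_zero_or_pos (Fintype.card κ) with h0 | h0
  · rw [h0, zero_mul] at h2
    have h3 : S.card = 0 := by omega
    rw [Fintype.card_eq_zero_iff] at h0
    exact h0.elim (f 0)
  · have h3 : Fintype.card κ * (n - 1) < Fintype.card κ * n :=
      Nat.mul_lt_mul_of_pos_left (by omega) h0
    omega

/-- End-homogeneous sequences for pairs. -/
private lemma r_end (κ : Type) [Fintype κ] [DecidableEq κ] (col : ℕ → ℕ → κ) (t : ℕ) : ∀ A : Finset ℕ,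
    (Fintype.card κ + 1) ^ t ≤ A.card → ∃ B ⊆ A, B.card = t ∧ ∃ f : ℕ → κ,
      ∀ i ∈ B, ∀ j ∈ B, i < j → col i j = f i := by
  classical
  induction t with
  | zero =>
    intro A _
    exact ⟨∅, Finset.empty_subset _, rfl, fun i => col i i, by simp⟩
  | succ t ih =>
    intro A hA
    have hpos : 0 < A.card := lt_of_lt_of_le (by positivity) hA
    have hne : A.Nonempty := Finset.card_pos.1 hpos
    set a := A.min' hne with ha
    have haA : a ∈ A := A.min'_mem hne
    have hcard : (A.erase a).card = A.card - 1 := Finset.card_erase_of_mem haA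
    have h1 : 1 ≤ (Fintype.card κ + 1) ^ t := Nat.one_le_pow _ _ (by omega)
    have h2 : Fintype.card κ * (Fintype.card κ + 1) ^ t ≤ (A.erase a).card := by
      rw [hcard]
      rw [pow_succ] at hA
      have : (Fintype.card κ + 1) ^ t * (Fintype.card κ + 1) =
          Fintype.card κ * (Fintype.card κ + 1) ^ t + (Fintype.card κ + 1) ^ t := by ring
      omega
    obtain ⟨x, hx⟩ := r_pigeon (A.erase a) (col a) _ h1 h2
    obtain ⟨B, hB, hBt, f, hf⟩ := ih _ hx
    have hBA : ∀ i ∈ B, i ∈ A ∧ a < i ∧ col a i = x := by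
      intro i hi
      have h3 := Finset.mem_filter.1 (hB hi)
      have h4 := Finset.mem_erase.1 h3.1
      exact ⟨h4.2, lt_of_le_of_ne (A.min'_le i h4.2) (Ne.symm h4.1), h3.2⟩
    have haB : a ∉ B := fun h => lt_irrefl a (hBA a h).2.1
    refine ⟨insert a B, ?_, ?_, Function.update f a x, ?_⟩
    · intro i hi
      rcases Finset.mem_insert.1 hi with rfl | hi
      · exact haA
      · exact (hBA i hi).1
    · rw [Finset.card_insert_of_notMem haB, hBt]
    · intro i hi j hj hij
      rcases Finset.mem_insert.1 hi with rfl | hi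
      · rcases Finset.mem_insert.1 hj with rfl | hj
        · exact absurd hij (lt_irrefl _)
        · rw [Function.update_self]
          exact (hBA j hj).2.2
      · rcases Finset.mem_insert.1 hj with rfl | hj
        · exact absurd hij (not_lt.2 (hBA i hi).2.1.le)
        · rw [Function.update_of_ne (ne_of_mem_of_not_mem hi haB)]
          exact hf i hi j hj hij

theorem ramsey2 (L : ℕ) (C : Type) [Finite C] : ∃ s, ∀ χ : Fin s → Fin s → C,
    ∃ ι : Fin L → Fin s, StrictMono ι ∧ ∀ a b a' b', a < b → a' < b' →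
      χ (ι a) (ι b) = χ (ι a') (ι b') := by
  classical
  have : Fintype C := Fintype.ofFinite C
  obtain ⟨c, hc⟩ : ∃ c, c = Fintype.card C := ⟨_, rfl⟩
  refine ⟨(c + 1) ^ (c * (L + 1)), fun χ => ?_⟩
  have hs : 0 < (c + 1) ^ (c * (L + 1)) := by positivity
  generalize hS : (c + 1) ^ (c * (L + 1)) = s at χ hs ⊢
  let col : ℕ → ℕ → C := fun i j =>
    if h : i < s ∧ j < s then χ ⟨i, h.1⟩ ⟨j, h.2⟩ else χ ⟨0, hs⟩ ⟨0, hs⟩
  have h1 : (Fintype.card C + 1) ^ (Fintype.card C * (L + 1)) ≤ (Finset.range s).card := by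
    rw [Finset.card_range, ← hc, hS]
  obtain ⟨B, hBA, hBt, f, hf⟩ := r_end C col _ (Finset.range s) h1
  obtain ⟨x, hx⟩ := r_pigeon B f (L + 1) (by omega) (by omega)
  obtain ⟨D, hD, hDc⟩ := Finset.exists_subset_card_eq (le_trans (Nat.le_succ L) hx)
  have hmem : ∀ a : Fin L, D.orderEmbOfFin hDc a ∈ B ∧ f (D.orderEmbOfFin hDc a) = x := by
    intro a
    have h2 := Finset.mem_filter.1 (hD (Finset.orderEmbOfFin_mem D hDc a))
    exact ⟨h2.1, h2.2⟩
  have hlt : ∀ a : Fin L, D.orderEmbOfFin hDc a < s := fun a =>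
    Finset.mem_range.1 (hBA (hmem a).1)
  refine ⟨fun a => ⟨D.orderEmbOfFin hDc a, hlt a⟩, ?_, ?_⟩
  · intro a b hab
    exact (D.orderEmbOfFin hDc).strictMono hab
  · have hval : ∀ a b : Fin L, a < b →
        χ ⟨D.orderEmbOfFin hDc a, hlt a⟩ ⟨D.orderEmbOfFin hDc b, hlt b⟩ = x := by
      intro a b hab
      have h3 := hf _ (hmem a).1 _ (hmem b).1 ((D.orderEmbOfFin hDc).strictMono hab)
      rw [(hmem a).2] at h3
      rw [← h3]
      change _ = dite _ _ _
      rw [dif_pos ⟨hlt a, hlt b⟩]
    intro a b a' b' hab hab'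
    rw [hval a b hab, hval a' b' hab']

end Pool.Agent.LibOpc
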