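import Pool.Agent.LibOpc.ONDefs
import Pool.Agent.LibPcg.PA3
import Pool.Agent.LibPcg.PA6
import Pool.Agent.LibPcg.PA7
import Pool.Agent.LibPcg.PB9

set_option autoImplicit false

/-!
OR-PCGs in terms of four point functions and thresholds.
-/

namespace Pool.Agent.LibOpc

open SimpleGraph Pool.Agent.LibPcg

theorem orPCG_iff {V : Type} [Finite V] [Nonempty V] (k : ℕ) (G : SimpleGraph V) :
    IsOrPCG k G ↔ ∃ (d : Fin k → V → V → ℝ) (a b : Fin k → ℝ), (∀ i, FourPt (d i)) ∧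
      (∀ i, 0 ≤ a i ∧ 0 ≤ b i) ∧
      ∀ u v, G.Adj u v ↔ u ≠ v ∧ ∃ i, a i ≤ d i u v ∧ d i u v < b i := by
  constructor
  · rintro ⟨D, I, hI, hG⟩
    have hfin : ∀ i, (Set.range (fun p : V × V => (D i).d p.1 p.2)).Finite :=
      fun i => Set.finite_range _
    have h1 : ∀ i, ∃ a b : ℝ, 0 ≤ a ∧ 0 ≤ b ∧ ∀ t ∈ (hfin i).toFinset, t ∈ I i ↔ a ≤ t ∧ t < b :=
      fun i => interval_fin (I i) (hI i) _
    choose a b ha hb hab using h1
    refine ⟨fun i => (D i).d, a, b, fun i => (D i).fourPt, fun i => ⟨ha i, hb i⟩, fun u v => ?_⟩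
    rw [hG u v]
    refine and_congr_right fun _ => exists_congr fun i => ?_
    rw [← hab i ((D i).d u v) ((hfin i).mem_toFinset.2 ⟨(u, v), rfl⟩)]
    constructor
    · rintro ⟨t, ht, h2⟩
      rw [(D i).dist_iff u v t] at h2
      rw [← h2]
      exact ht
    · intro h2
      exact ⟨_, h2, ((D i).dist_iff u v _).2 rfl⟩
  · rintro ⟨d, a, b, hd, hab, hG⟩
    choose D hD using fun i => buneman (d i) (hd i)
    refine ⟨D, fun i => Set.Ico (a i) (b i), fun i => ⟨Set.ordConnected_Ico, fun t ht =>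
      (hab i).1.trans ht.1⟩, fun u v => ?_⟩
    rw [hG u v]
    refine and_congr_right fun _ => exists_congr fun i => ?_
    constructor
    · intro h2
      exact ⟨d i u v, h2, ((D i).dist_iff u v _).2 (hD i u v).symm⟩
    · rintro ⟨t, ht, h2⟩
      rw [(D i).dist_iff u v t, hD i u v] at h2
      rw [← h2]
      exact ht

end Pool.Agent.LibOpc
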