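import Pool.Agent.LibOpc.ONDefs

set_option autoImplicit false

/-!
Row PB11. Being a `k`-OR-PCG is invariant under isomorphism; and there is no `0`-vertex one.
Sketch. `iso`: compose `leaf` with the equivalence: `D' i := { D i with leaf := (D i).leaf ∘ φ.symm, ..}`.
It suffices to prove one implication for all `φ` and use `φ.symm` for the other.
-/

namespace Pool.Agent.LibOpc

open SimpleGraph Pool.Agent.LibPcg

theorem isOrPCG_of_iso {V V' : Type} {k : ℕ} {G : SimpleGraph V} {G' : SimpleGraph V'}
    (φ : G ≃g G') (h : IsOrPCG k G) : IsOrPCG k G' := by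
  obtain ⟨D, I, hI, hD⟩ := h
  refine ⟨fun i =>
    { W := (D i).W
      fin := (D i).fin
      T := (D i).T
      tree := (D i).tree
      w := (D i).w
      nonneg := (D i).nonneg
      leaf := fun v => (D i).leaf (φ.symm v)
      inj := (D i).inj.comp φ.symm.injective
      leaves := fun x => by
        rw [(D i).leaves x]
        constructor
        · rintro ⟨v, hv⟩
          refine ⟨φ v, ?_⟩
          rw [RelIso.symm_apply_apply]
          exact hv
        · rintro ⟨v, hv⟩
          exact ⟨_, hv⟩ }, I, hI, fun u v => ?_⟩
  have h1 : G'.Adj u v ↔ G.Adj (φ.symm u) (φ.symm v) := φ.symm.map_adj_iff.symm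
  rw [h1, hD]
  exact and_congr (not_congr φ.symm.injective.eq_iff) Iff.rfl

end Pool.Agent.LibOpc
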