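import Pool.Agent.LibOpc.ONDefs
import Pool.Agent.LibPcg.PB12

set_option autoImplicit false

/-!
Row PB12. A `k`-OR-PCG with `k ≥ 1` has a vertex.
Sketch. If `V` is empty, the tree `D 0` has no leaf by `WTree.leaves`. But a finite tree has a leaf:
it is nonempty (`IsTree.connected`, `.nonempty`); if it is a subsingleton any vertex is a leaf
(`Adj` is irreflexive); otherwise `IsTree.exists_vert_degree_one_of_nontrivial` gives a vertex of
degree one, which is a leaf (`degree_eq_one_iff_unique_adj` or the like).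
-/

namespace Pool.Agent.LibOpc

open SimpleGraph Pool.Agent.LibPcg

theorem nonempty_of_isOrPCG {V : Type} {k : ℕ} (hk : 1 ≤ k) {G : SimpleGraph V}
    (h : IsOrPCG k G) : Nonempty V := by
  obtain ⟨D, -⟩ := h
  have := (D ⟨0, hk⟩).fin
  obtain ⟨x, hx⟩ := PB12_leaf (D ⟨0, hk⟩).tree
  obtain ⟨v, -⟩ := ((D ⟨0, hk⟩).leaves x).1 hx
  exact ⟨v⟩

end Pool.Agent.LibOpc
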