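import Pool.Agent.LibOpc.OB1

set_option autoImplicit false

/-!
Row OB2. Product Ramsey theorem for pairs: the colour depends only on the strict sign pattern.
Sketch. Induction on `D` (for all `C`). `D = 0`: `s = L` (or anything), everything is a
subsingleton. Step: by `ramsey2 L C₂` with `C₂ = (Fin D → Bool) → C × C` get `s₂`. By the induction
hypothesis for `C₁ = Fin s₂ → Fin s₂ → C` get `s₁`. Let `s = max s₁ s₂`, with the embeddings
`Fin.castLE`. Given `χ` on `Fin (D + 1) → Fin s`, put
`χ₁ p q = fun z z' => χ (Fin.snoc p z) (Fin.snoc q z')` (or `Fin.cons`) for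
`p q : Fin D → Fin s₁`. Get `ι₁ c`. For a pattern `σ : Fin D → Bool` choose `p q : Fin D → Fin L`
strictly of the pattern `σ` (`p c < q c ↔ σ c = true`) if there are such (that is if `L ≥ 2`; the
case `L ≤ 1`: there are no `p, q : Fin (D + 1) → Fin L` with `p 0 ≠ q 0`, trivial), and put
`χ₂ z z' = fun σ => (χ₁ p q z z', χ₁ p q z' z)` for `z z' : Fin s₂`. Get `ι₂`. The last coordinate
uses `ι₂`, the others `ι₁ c`.
-/

namespace Pool.Agent.LibOpc

theorem prod_ramsey (L : ℕ) : ∀ (D : ℕ) (C : Type) [Finite C], ∃ s,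
    ∀ χ : (Fin D → Fin s) → (Fin D → Fin s) → C,
    ∃ ι : Fin D → Fin L → Fin s, (∀ c, StrictMono (ι c)) ∧ ∀ p q p' q' : Fin D → Fin L,
      (∀ c, p c ≠ q c) → (∀ c, p' c ≠ q' c) → (∀ c, p c < q c ↔ p' c < q' c) →
      χ (fun c => ι c (p c)) (fun c => ι c (q c)) =
        χ (fun c => ι c (p' c)) (fun c => ι c (q' c)) := by
  rcases Nat.lt_or_ge L 2 with hL | hL
  · have : Subsingleton (Fin L) := by
      interval_cases L <;> infer_instance
    intro D C _
    refine ⟨L, fun χ => ⟨fun _ => id, fun _ => strictMono_id, ?_⟩⟩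
    intro p q p' q' _ _ _
    rw [Subsingleton.elim p p', Subsingleton.elim q q']
  · intro D
    induction D with
    | zero =>
      intro C _
      refine ⟨L, fun χ => ⟨fun _ => id, fun _ => strictMono_id, ?_⟩⟩
      intro p q p' q' _ _ _
      rw [Subsingleton.elim p p', Subsingleton.elim q q']
    | succ D ih =>
      intro C hC
      obtain ⟨s₂, hs₂⟩ := ramsey2 L ((Fin D → Bool) → C × C)
      obtain ⟨s₁, hs₁⟩ := ih (Fin s₂ → Fin s₂ → C)
      refine ⟨max s₁ s₂, ?_⟩
      intro χ
      set e₁ : Fin s₁ → Fin (max s₁ s₂) := Fin.castLE (le_max_left s₁ s₂) with he₁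
      set e₂ : Fin s₂ → Fin (max s₁ s₂) := Fin.castLE (le_max_right s₁ s₂) with he₂
      have me₁ : StrictMono e₁ := Fin.strictMono_castLE _
      have me₂ : StrictMono e₂ := Fin.strictMono_castLE _
      let χ₁ : (Fin D → Fin s₁) → (Fin D → Fin s₁) → Fin s₂ → Fin s₂ → C :=
        fun p q z z' => χ (Matrix.vecCons (e₂ z) (fun c => e₁ (p c)))
          (Matrix.vecCons (e₂ z') (fun c => e₁ (q c)))
      obtain ⟨ι₁, mι₁, h₁⟩ := hs₁ χ₁
      let z0 : Fin L := ⟨0, by omega⟩
      let z1 : Fin L := ⟨1, by omega⟩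
      have h01 : z0 < z1 := by
        show (⟨0, _⟩ : Fin L) < ⟨1, _⟩
        rw [Fin.mk_lt_mk]; omega
      let P : (Fin D → Bool) → Fin D → Fin L := fun σ c => if σ c = true then z0 else z1
      let Q : (Fin D → Bool) → Fin D → Fin L := fun σ c => if σ c = true then z1 else z0
      have hPQ : ∀ σ c, P σ c ≠ Q σ c := by
        intro σ c
        by_cases h : σ c = true
        · simp only [P, Q, h, if_true]; exact ne_of_lt h01
        · simp only [P, Q, h]; exact ne_of_gt h01
      have hPQ' : ∀ σ c, P σ c < Q σ c ↔ σ c = true := by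
        intro σ c
        by_cases h : σ c = true
        · simp only [P, Q, h, if_true]; simpa using h01
        · simp only [P, Q, h]; simpa using h01.le
      let χ₂ : Fin s₂ → Fin s₂ → ((Fin D → Bool) → C × C) := fun z z' σ =>
        (χ₁ (fun c => ι₁ c (P σ c)) (fun c => ι₁ c (Q σ c)) z z',
          χ₁ (fun c => ι₁ c (P σ c)) (fun c => ι₁ c (Q σ c)) z' z)
      obtain ⟨ι₂, mι₂, h₂⟩ := hs₂ χ₂
      let ι : Fin (D + 1) → Fin L → Fin (max s₁ s₂) := fun c =>
        Fin.cases (motive := fun _ => Fin L → Fin (max s₁ s₂)) (fun a => e₂ (ι₂ a))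
          (fun c a => e₁ (ι₁ c a)) c
      have hι : ∀ p : Fin (D + 1) → Fin L, (fun c => ι c (p c)) =
          Matrix.vecCons (e₂ (ι₂ (p 0))) (fun c => e₁ (ι₁ c (p c.succ))) := by
        intro p
        funext c
        refine Fin.cases ?_ (fun i => ?_) c
        · simp [ι]
        · simp [ι]
      refine ⟨ι, ?_, ?_⟩
      · intro c
        refine Fin.cases ?_ (fun i => ?_) c
        · exact fun a b hab => me₂ (mι₂ hab)
        · exact fun a b hab => me₁ (mι₁ i hab)
      · have key : ∀ p q : Fin (D + 1) → Fin L, (∀ c, p c ≠ q c) →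
            ∀ σ : Fin D → Bool, (∀ c : Fin D, p c.succ < q c.succ ↔ σ c = true) →
            χ (fun c => ι c (p c)) (fun c => ι c (q c)) =
              χ₁ (fun c => ι₁ c (P σ c)) (fun c => ι₁ c (Q σ c)) (ι₂ (p 0)) (ι₂ (q 0)) := by
          intro p q hpq σ hσ
          rw [hι p, hι q]
          have := h₁ (fun c => p c.succ) (fun c => q c.succ) (P σ) (Q σ)
            (fun c => hpq c.succ) (hPQ σ) (fun c => by rw [hσ c, hPQ' σ c])
          exact congrFun (congrFun this (ι₂ (p 0))) (ι₂ (q 0))
        intro p q p' q' hp hp' hlt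
        let σ : Fin D → Bool := fun c => decide (p c.succ < q c.succ)
        have hσ : ∀ c : Fin D, p c.succ < q c.succ ↔ σ c = true := by
          intro c; simp [σ]
        have hσ' : ∀ c : Fin D, p' c.succ < q' c.succ ↔ σ c = true := by
          intro c; rw [← hσ c, hlt c.succ]
        rw [key p q hp σ hσ, key p' q' hp' σ hσ']
        rcases lt_or_gt_of_ne (hp 0) with h | h
        · have h' : p' 0 < q' 0 := (hlt 0).1 h
          have := congrFun (h₂ (p 0) (q 0) (p' 0) (q' 0) h h') σ
          exact congrArg Prod.fst this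
        · have h' : q' 0 < p' 0 := by
            rcases lt_or_gt_of_ne (hp' 0) with h3 | h3
            · exact absurd ((hlt 0).2 h3) (not_lt.2 h.le)
            · exact h3
          have := congrFun (h₂ (q 0) (p 0) (q' 0) (p' 0) h h') σ
          exact congrArg Prod.snd this

end Pool.Agent.LibOpc
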