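import Mathlib

set_option autoImplicit false

/-!
Row OB3. Box lemma: monochromatic boxes with a polynomial bound.
Sketch. Induction on `D`. `D = 0`: `e = 0` (one point; `J` is vacuous). Step: let `e` be the
exponent for `D`, `e' = e * (D * s) + s + 1` (and `e' ≥ e`, e.g. add `e`). Let `M₀ = (N + 2) ^ e`;
`M₀ ≤ M`. For `z : Fin M` colour `p : Fin D → Fin M₀` by `χ` of the point with first coordinates
`p` (via `Fin.castLE`) and last coordinate `z`; the induction hypothesis gives
`J z : Fin D → Fin s → Fin M₀` and, if `s ≥ 1`, a colour `x z` (all `p`); if `s = 0` the claim is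
trivial (`Fin D' → Fin 0` is empty for `D' ≥ 1`). The number of pairs `(J, x)` is
`M₀ ^ (s * D) * N`, and `s * (M₀ ^ (s * D) * N) < M` since `s < (N + 2) ^ s`. Pigeonhole
(`Finset.exists_lt_card_fiber_of_mul_lt_card_of_maps_to`): some pair is taken by more than `s`
values `z`; take the `s` smallest of them, `Finset.orderEmbOfFin` of a subset of cardinality `s`.
-/

namespace Pool.Agent.LibOpc

theorem box (s : ℕ) : ∀ D : ℕ, ∃ e, ∀ N M : ℕ, (N + 2) ^ e ≤ M →
    ∀ χ : (Fin D → Fin M) → Fin N,
    ∃ J : Fin D → Fin s → Fin M, (∀ c, StrictMono (J c)) ∧ ∀ p q : Fin D → Fin s,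
      χ (fun c => J c (p c)) = χ (fun c => J c (q c)) := by
  intro D
  induction D with
  | zero =>
    exact ⟨0, fun N M _ χ => ⟨fun c => c.elim0, fun c => c.elim0, fun p q => by
      congr 1
      funext c
      exact c.elim0⟩⟩
  | succ D ih =>
    obtain ⟨e, he⟩ := ih
    rcases Nat.eq_zero_or_pos s with hs | hs
    · subst hs
      exact ⟨0, fun N M _ χ => ⟨fun _ i => i.elim0, fun _ a => a.elim0, fun p => (p 0).elim0⟩⟩
    · refine ⟨(s + e * (s * D) + 1) + e, fun N M hM χ => ?_⟩
      have hN1 : 1 ≤ N + 2 := by omega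
      have hM0 : (N + 2) ^ e ≤ M := le_trans (Nat.pow_le_pow_right hN1 (by omega)) hM
      have hcard : Fintype.card ((Fin D → Fin s → Fin ((N + 2) ^ e)) × Fin N) * s
          < Fintype.card (Fin M) := by
        simp only [Fintype.card_prod, Fintype.card_fin, Fintype.card_pi, Finset.prod_const,
          Finset.card_univ]
        have h1 : s < (N + 2) ^ s := by
          calc s < 2 ^ s := Nat.lt_two_pow_self
            _ ≤ (N + 2) ^ s := Nat.pow_le_pow_left (by omega) s
        have h2 : ((((N + 2) ^ e) ^ s) ^ D) = (N + 2) ^ (e * (s * D)) := by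
          rw [← pow_mul, ← pow_mul]
        have h3 : 0 < (N + 2) ^ (e * (s * D)) := Nat.pow_pos (by omega)
        rw [h2]
        calc (N + 2) ^ (e * (s * D)) * N * s
            ≤ (N + 2) ^ (e * (s * D)) * (N + 2) * s := by
              apply Nat.mul_le_mul_right
              apply Nat.mul_le_mul_left
              omega
          _ < (N + 2) ^ (e * (s * D)) * (N + 2) * (N + 2) ^ s := by
              apply Nat.mul_lt_mul_of_pos_left h1
              positivity
          _ = (N + 2) ^ (s + e * (s * D) + 1) := by ring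
          _ ≤ (N + 2) ^ ((s + e * (s * D) + 1) + e) := Nat.pow_le_pow_right hN1 (by omega)
          _ ≤ M := hM
      let ψ : Fin M → (Fin D → Fin ((N + 2) ^ e)) → Fin N := fun z p =>
        χ (Fin.snoc (α := fun _ => Fin M) (fun c => Fin.castLE hM0 (p c)) z)
      choose J hJm hJc using fun z : Fin M => he N ((N + 2) ^ e) le_rfl (ψ z)
      obtain ⟨y, hy⟩ := Fintype.exists_lt_card_fiber_of_mul_lt_card
        (fun z : Fin M => ((J z, ψ z (fun c => J z c ⟨0, hs⟩)) :
          (Fin D → Fin s → Fin ((N + 2) ^ e)) × Fin N)) hcard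
      obtain ⟨T, hTsub, hT⟩ := Finset.exists_subset_card_eq (le_of_lt hy)
      have key : ∀ z ∈ T, J z = y.1 ∧ ψ z (fun c => J z c ⟨0, hs⟩) = y.2 := by
        intro z hz
        have hz' := hTsub hz
        rw [Finset.mem_filter] at hz'
        have h := hz'.2
        rw [Prod.ext_iff] at h
        exact h
      refine ⟨Fin.snoc (α := fun _ => Fin s → Fin M)
        (fun c i => Fin.castLE hM0 (y.1 c i)) (fun i => T.orderEmbOfFin hT i), ?_, ?_⟩
      · intro c
        refine Fin.lastCases ?_ (fun c => ?_) c
        · rw [Fin.snoc_last]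
          exact (T.orderEmbOfFin hT).strictMono
        · rw [Fin.snoc_castSucc]
          have hz := T.orderEmbOfFin_mem hT ⟨0, hs⟩
          have h := hJm (T.orderEmbOfFin hT ⟨0, hs⟩) c
          rw [(key _ hz).1] at h
          intro a b hab
          exact h hab
      · have main : ∀ p : Fin (D + 1) → Fin s,
            χ (fun c => (Fin.snoc (α := fun _ => Fin s → Fin M)
              (fun c i => Fin.castLE hM0 (y.1 c i)) (fun i => T.orderEmbOfFin hT i) :
                Fin (D + 1) → Fin s → Fin M) c (p c)) = y.2 := by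
          intro p
          have hz := T.orderEmbOfFin_mem hT (p (Fin.last D))
          obtain ⟨h1, h2⟩ := key _ hz
          rw [← h2, hJc _ (fun _ => ⟨0, hs⟩) (fun c => p c.castSucc)]
          show _ = χ _
          congr 1
          funext c
          refine Fin.lastCases ?_ (fun c => ?_) c
          · rw [Fin.snoc_last, Fin.snoc_last]
          · rw [Fin.snoc_castSucc, Fin.snoc_castSucc, h1]
        intro p q
        rw [main p, main q]

end Pool.Agent.LibOpc
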