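import Pool.Agent.LibOpc.OCDefs

set_option autoImplicit false

/-!
Row OC1. Every pure pattern is handled by some layer; all pairs of the pattern above are of the
same class in each layer: near or far.
Sketch. `cls3 = 1` iff `Mid`. If not `Mid`: `cls3 = 0` iff `d < a`; otherwise `cls3 = 2` and `a ≤ d`,
hence `b ≤ d`. `exists_handles`: take any `p q` with `Pure c p q` (`p c = 1`, `q c = 2`,
`p c' = 2`, `q c' = 1`), `U.pure` gives `j`; by `U.unif` the class is `1` for all pairs of the
pattern (from `Pure` one gets `∀ c, p c ≠ q c` and the pattern). `near_or_far`: by `U.unif` the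
class is constant, by `U.above` it is not `1`.
-/

namespace Pool.Agent.LibOpc

open SimpleGraph Pool.Agent.LibPcg

theorem cls3_eq_one {V : Type} (d : V → V → ℝ) (a b : ℝ) (u v : V) :
    cls3 d a b u v = 1 ↔ Mid d a b u v := by
  unfold cls3
  by_cases h : Mid d a b u v
  · simp [h]
  · by_cases h' : d u v < a
    · simp [h, h']
    · simp [h, h']

private theorem cls3_eq_zero {V : Type} (d : V → V → ℝ) (a b : ℝ) (u v : V) :
    cls3 d a b u v = 0 ↔ d u v < a := by
  unfold cls3
  by_cases h : Mid d a b u v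
  · have h' : ¬ d u v < a := not_lt.mpr h.1
    simp [h, h']
  · by_cases h' : d u v < a
    · simp [h, h']
    · simp [h, h']

private theorem pure_ne {D L : ℕ} {c : Fin D} {p q : Fin D → Fin L} (h : Pure c p q) :
    ∀ c', p c' ≠ q c' := by
  intro c'
  by_cases hc : c' = c
  · subst hc
    exact h.1.ne
  · exact (h.2 c' hc).ne'

private theorem pure_iff {D L : ℕ} {c : Fin D} {p q p' q' : Fin D → Fin L} (h : Pure c p q)
    (h' : Pure c p' q') : ∀ c', p c' < q c' ↔ p' c' < q' c' := by
  intro c'
  by_cases hc : c' = c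
  · subst hc
    exact ⟨fun _ => h'.1, fun _ => h.1⟩
  · exact ⟨fun h1 => absurd h1 (lt_asymm (h.2 c' hc)),
      fun h1 => absurd h1 (lt_asymm (h'.2 c' hc))⟩

theorem exists_handles {k : ℕ} {V : Type} (U : Unif k V) {s t : Fin 3} (hst : s ≠ t)
    (c : Fin (2 * k)) : ∃ j, U.Handles j s t c := by
  have hp : Pure c (fun c' : Fin (2 * k) => if c' = c then (1 : Fin 6) else 2)
      (fun c' => if c' = c then (2 : Fin 6) else 1) := by
    refine ⟨?_, ?_⟩
    · simp only [if_true]
      decide
    · intro c' hc'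
      simp only [if_neg hc']
      decide
  obtain ⟨j, hj⟩ := U.pure s t hst c _ _ hp
  refine ⟨j, ?_⟩
  intro p q hpq
  have h1 := U.unif j s t hst _ _ p q (pure_ne hp) (pure_ne hpq) (pure_iff hp hpq)
  rw [(cls3_eq_one _ _ _ _ _).mpr hj] at h1
  exact (cls3_eq_one _ _ _ _ _).mp h1.symm

theorem near_or_far {k : ℕ} {V : Type} (U : Unif k V) {s t : Fin 3} (hst : s ≠ t) (j : Fin k) :
    (∀ p q, (∀ c, q c < p c) → U.d j (U.X p s) (U.Y q t) < U.a j) ∨
    (∀ p q, (∀ c, q c < p c) → U.b j ≤ U.d j (U.X p s) (U.Y q t)) := by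
  classical
  have key : ∀ p q, (∀ c, q c < p c) →
      cls3 (U.d j) (U.a j) (U.b j) (U.X p s) (U.Y q t) =
      cls3 (U.d j) (U.a j) (U.b j) (U.X (fun _ => 1) s) (U.Y (fun _ => 0) t) := by
    intro p q h
    refine U.unif j s t hst p q _ _ (fun c => (h c).ne') (fun c => by decide) ?_
    intro c
    constructor
    · intro h'
      exact absurd h' (lt_asymm (h c))
    · intro h'
      exact absurd h' (by decide)
  by_cases h0 : U.d j (U.X (fun _ => 1) s) (U.Y (fun _ => 0) t) < U.a j
  · left
    intro p q h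
    have hk := key p q h
    rw [(cls3_eq_zero _ _ _ _ _).mpr h0] at hk
    exact (cls3_eq_zero _ _ _ _ _).mp hk
  · right
    intro p q h
    have hk := key p q h
    have hn : ¬ U.d j (U.X p s) (U.Y q t) < U.a j := by
      intro h2
      rw [(cls3_eq_zero _ _ _ _ _).mpr h2] at hk
      exact h0 ((cls3_eq_zero _ _ _ _ _).mp hk.symm)
    have hm := U.above s t hst p q h j
    unfold Mid at hm
    push Not at hm hn
    exact hm hn

end Pool.Agent.LibOpc
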