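import Pool.Agent.LibOpc.OA1
import Pool.Agent.LibOpc.OC1

set_option autoImplicit false

/-!
Row OC2. A layer which handles two patterns is of the near type.
Sketch. Suppose not; by `near_or_far` all above pairs are far. Let `D = 2 k`. Values in the
coordinate `c`: `yL = 0, x'' = 1, y0 = 2, x = 3, yR = 4, x' = 5`; in the coordinate `c'`:
`yR = 0, x' = 1, y0 = 2, x = 3, yL = 4, x'' = 5`; in all other coordinates: `0` for
`y0, yR, yL` and `1` for `x, x', x''`. (E.g. `fun i => if i = c then 3 else if i = c' then 3 else 1`.)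
Item `s` for `x, x', x''`, item `t` for `y0, yR, yL`. Then
`x`: far from `y0`; `Pure c` with `yR`, `Pure c'` with `yL`: in the layer.
`x'`: far from `yR`; `Pure c'` with `y0` and with `yL`.
`x''`: far from `yL`; `Pure c` with `y0` and with `yR`.
In the layer means `d < b`, far means `b ≤ d`. `lemmaT` with `(x, x', x'')`, `(y0, yR, yL)`:
contradiction.
-/

namespace Pool.Agent.LibOpc

open SimpleGraph Pool.Agent.LibPcg

/-- a position with the values `u`, `v` in the coordinates `c`, `c'` and `w` elsewhere -/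
private def oc2P {D : ℕ} (c c' : Fin D) (u v w : Fin 6) : Fin D → Fin 6 :=
  fun i => if i = c then u else if i = c' then v else w

private theorem oc2_above {D : ℕ} (c c' : Fin D) {u v w u' v' w' : Fin 6} (hu : u' < u)
    (hv : v' < v) (hw : w' < w) : ∀ i, oc2P c c' u' v' w' i < oc2P c c' u v w i := by
  intro i
  unfold oc2P
  split_ifs
  · exact hu
  · exact hv
  · exact hw

private theorem oc2_pure {D : ℕ} {c c' : Fin D} {u v w u' v' w' : Fin 6}
    (hu : u < u') (hv : v' < v) (hw : w' < w) :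
    Pure c (oc2P c c' u v w) (oc2P c c' u' v' w') := by
  unfold oc2P
  refine ⟨?_, fun i hi => ?_⟩
  · beta_reduce
    rw [if_pos rfl, if_pos rfl]
    exact hu
  · beta_reduce
    rw [if_neg hi, if_neg hi]
    split_ifs
    · exact hv
    · exact hw

private theorem oc2_pure' {D : ℕ} {c c' : Fin D} (hcc : c ≠ c') {u v w u' v' w' : Fin 6}
    (hu : u' < u) (hv : v < v') (hw : w' < w) :
    Pure c' (oc2P c c' u v w) (oc2P c c' u' v' w') := by
  unfold oc2P
  refine ⟨?_, fun i hi => ?_⟩
  · beta_reduce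
    rw [if_neg hcc.symm, if_neg hcc.symm, if_pos rfl, if_pos rfl]
    exact hv
  · beta_reduce
    rw [if_neg hi, if_neg hi]
    split_ifs
    · exact hu
    · exact hw

theorem near_of_two {k : ℕ} {V : Type} (U : Unif k V) {s t : Fin 3} (hst : s ≠ t) (j : Fin k)
    {c c' : Fin (2 * k)} (hcc : c ≠ c') (h : U.Handles j s t c) (h' : U.Handles j s t c') :
    ∀ p q, (∀ c, q c < p c) → U.d j (U.X p s) (U.Y q t) < U.a j := by
  rcases near_or_far U hst j with hn | hf
  · exact hn
  exfalso
  have l1 : (0 : Fin 6) < 1 := by decide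
  have l2 : (2 : Fin 6) < 3 := by decide
  have l3 : (3 : Fin 6) < 4 := by decide
  have l4 : (0 : Fin 6) < 3 := by decide
  have l5 : (4 : Fin 6) < 5 := by decide
  have l6 : (1 : Fin 6) < 2 := by decide
  have l7 : (2 : Fin 6) < 5 := by decide
  have l8 : (1 : Fin 6) < 4 := by decide
  have l9 : (0 : Fin 6) < 5 := by decide
  let x : Fin 3 → (Fin (2 * k) → Fin 6) :=
    ![oc2P c c' 3 3 1, oc2P c c' 5 1 1, oc2P c c' 1 5 1]
  let y : Fin 3 → (Fin (2 * k) → Fin 6) :=
    ![oc2P c c' 2 2 0, oc2P c c' 4 0 0, oc2P c c' 0 4 0]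
  have hfar : ∀ i, U.b j ≤ U.d j (U.X (x i) s) (U.Y (y i) t) := by
    intro i
    fin_cases i
    · exact hf _ _ (oc2_above c c' l2 l2 l1)
    · exact hf _ _ (oc2_above c c' l5 l1 l1)
    · exact hf _ _ (oc2_above c c' l1 l5 l1)
  have hin : ∀ i i', i ≠ i' → U.d j (U.X (x i) s) (U.Y (y i') t) < U.b j := by
    intro i i' hii
    fin_cases i <;> fin_cases i'
    · exact absurd rfl hii
    · exact (h _ _ (oc2_pure l3 l4 l1)).2
    · exact (h' _ _ (oc2_pure' hcc l4 l3 l1)).2
    · exact (h' _ _ (oc2_pure' hcc l7 l6 l1)).2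
    · exact absurd rfl hii
    · exact (h' _ _ (oc2_pure' hcc l9 l8 l1)).2
    · exact (h _ _ (oc2_pure l6 l7 l1)).2
    · exact (h _ _ (oc2_pure l8 l9 l1)).2
    · exact absurd rfl hii
  exact lemmaT (U.four j) (fun i => U.X (x i) s) (fun i => U.Y (y i) t)
    (fun i i' hii => lt_of_lt_of_le (hin i i' hii) (hfar i))

end Pool.Agent.LibOpc
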