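import Pool.Agent.LibOpc.OC2

set_option autoImplicit false

/-!
Row OC3. A layer handles at most two patterns, hence exactly two.
Sketch. `not_three`: for `c₀, c₁, c₂` different, `x i` = value `1` in the coordinate `c i`, `3` in
all others; `y i` = value `2` in the coordinate `c i`, `0` in all others. `Pure (c i) (x i) (y i)`:
in the layer, `a ≤ d`. For `i ≠ j` the position `x i` is above `y j` in all coordinates (in the
coordinate `c i`: `1 > 0`; in `c j`: `3 > 2`; else `3 > 0`): near by `near_of_two`, `d < a`.
`lemmaT`.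
`exists_two`: let `H j` be the finset of the patterns handled by the layer `j`. By `not_three`
`(H j).card ≤ 2` (`Finset.two_lt_card`), by `exists_handles` the union of the `H j` is everything
(`2 k` elements): `2 k ≤ ∑ j, (H j).card ≤ 2 k`, so all are equal to `2` (`Finset.sum_eq_sum_iff...`
or: if `(H j₀).card ≤ 1` the sum is `≤ 2 k - 1`), `Finset.card_eq_two`.
-/

namespace Pool.Agent.LibOpc

open SimpleGraph Pool.Agent.LibPcg

theorem not_three {k : ℕ} {V : Type} (U : Unif k V) {s t : Fin 3} (hst : s ≠ t) (j : Fin k)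
    (c : Fin 3 → Fin (2 * k)) (hc : Function.Injective c) (h : ∀ i, U.Handles j s t (c i)) :
    False := by
  have hcne : ∀ i i', i ≠ i' → c i ≠ c i' := fun i i' hii h' => hii (hc h')
  have hnear := near_of_two U hst j (hcne 0 1 (by decide)) (h 0) (h 1)
  let x : Fin 3 → (Fin (2 * k) → Fin 6) := fun i m => if m = c i then 1 else 3
  let y : Fin 3 → (Fin (2 * k) → Fin 6) := fun i m => if m = c i then 2 else 0
  have hpure : ∀ i, Pure (c i) (x i) (y i) := by
    intro i
    refine ⟨?_, fun m hm => ?_⟩
    · change (if c i = c i then (1 : Fin 6) else 3) < (if c i = c i then (2 : Fin 6) else 0)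
      rw [if_pos rfl, if_pos rfl]
      decide
    · change (if m = c i then (2 : Fin 6) else 0) < (if m = c i then (1 : Fin 6) else 3)
      rw [if_neg hm, if_neg hm]
      decide
  have habove : ∀ i i', i ≠ i' → ∀ m, y i' m < x i m := by
    intro i i' hii m
    change (if m = c i' then (2 : Fin 6) else 0) < (if m = c i then (1 : Fin 6) else 3)
    by_cases h1 : m = c i'
    · have h2 : m ≠ c i := fun h2 => hcne i i' hii (h2.symm.trans h1)
      rw [if_pos h1, if_neg h2]
      decide
    · rw [if_neg h1]
      split_ifs <;> decide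
  exact lemmaT (U.four j) (fun i => U.X (x i) s) (fun i => U.Y (y i) t)
    (fun i i' hii => lt_of_lt_of_le (hnear _ _ (habove i i' hii)) (h i _ _ (hpure i)).1)

theorem exists_two {k : ℕ} {V : Type} (U : Unif k V) {s t : Fin 3} (hst : s ≠ t) (j : Fin k) :
    ∃ c c' : Fin (2 * k), c ≠ c' ∧ U.Handles j s t c ∧ U.Handles j s t c' := by
  classical
  let H : Fin k → Finset (Fin (2 * k)) := fun j => Finset.univ.filter fun c => U.Handles j s t c
  have hmem : ∀ j c, c ∈ H j ↔ U.Handles j s t c := fun j c => by simp [H]
  have hle : ∀ j, (H j).card ≤ 2 := by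
    intro j
    by_contra hlt
    push Not at hlt
    obtain ⟨a, ha, b, hb, e, he, hab, hae, hbe⟩ := Finset.two_lt_card.mp hlt
    refine not_three U hst j ![a, b, e] ?_ ?_
    · intro i i' hii
      fin_cases i <;> fin_cases i' <;> simp_all
    · intro i
      fin_cases i
      · exact (hmem j a).mp ha
      · exact (hmem j b).mp hb
      · exact (hmem j e).mp he
  have hcover : (Finset.univ : Finset (Fin (2 * k))) ⊆ Finset.univ.biUnion H := by
    intro c _
    obtain ⟨j', hj'⟩ := exists_handles U hst c
    exact Finset.mem_biUnion.mpr ⟨j', Finset.mem_univ _, (hmem j' c).mpr hj'⟩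
  have hcard : 2 * k ≤ ∑ j, (H j).card := by
    calc 2 * k = (Finset.univ : Finset (Fin (2 * k))).card := by simp
      _ ≤ (Finset.univ.biUnion H).card := Finset.card_le_card hcover
      _ ≤ ∑ j, (H j).card := Finset.card_biUnion_le
  have htwo : (H j).card = 2 := by
    refine le_antisymm (hle j) ?_
    by_contra hlt
    push Not at hlt
    have h1 : ∑ j', (H j').card < ∑ _j' : Fin k, 2 :=
      Finset.sum_lt_sum (fun j' _ => hle j') ⟨j, Finset.mem_univ j, hlt⟩
    simp only [Finset.sum_const, Finset.card_univ, Fintype.card_fin, smul_eq_mul] at h1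
    omega
  obtain ⟨c, c', hcc, hH⟩ := Finset.card_eq_two.mp htwo
  exact ⟨c, c', hcc, (hmem j c).mp (by rw [hH]; simp), (hmem j c').mp (by rw [hH]; simp)⟩

end Pool.Agent.LibOpc
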