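import Pool.Agent.LibOpc.OC3

set_option autoImplicit false

/-!
Row OC4. At the position `(1, ..., 1)` the non-edges are near; contradiction.
Sketch. `near_equal`: by `exists_two` the layer handles `c ≠ c'`, by `near_of_two` all above pairs
are near. By `U.equal` the pair is not in the layer; if it is not near then `b ≤ d`
(`not_lt`, `Mid`). Values in the coordinate `c`: `yL = 0, p = 1, u = 2, yR = 3, v = 4`; in the
coordinate `c'`: `yR = 0, p = 1, v = 2, yL = 3, u = 4`; in all other coordinates: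
`yL = yR = 0, p = 1, u = v = 2`. `x = X p s`, `y0 = Y p t`, `u, v` item `s`, `yL, yR` item `t`:
`x`: far from `y0`, `Pure c` with `yR`, `Pure c'` with `yL` (in the layer, `d < b ≤ d x y0`).
`u`: `Pure c` with `yR` (`a ≤ d`), above `p` and above `yL` (`d < a`).
`v`: `Pure c'` with `yL` (`a ≤ d`), above `p` and above `yR` (`d < a`).
`lemmaT` with `(x, u, v)`, `(y0, yR, yL)`.
`unif_false`: `lemmaT` with `x i = X p i`, `y i = Y p i`: `a ≤ d (x i) (y i)`, and
`d (x i) (y j) < a` for `i ≠ j` by `near_equal`.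
-/

namespace Pool.Agent.LibOpc

open SimpleGraph Pool.Agent.LibPcg

/-- the position with the value `m` at `c`, the value `n` at `c'` and the value `r` elsewhere -/
private def oc4pos {D : ℕ} (c c' : Fin D) (m n r : Fin 6) : Fin D → Fin 6 :=
  fun i => if i = c then m else if i = c' then n else r

private theorem oc4_left {D : ℕ} (c c' : Fin D) (m n r : Fin 6) : oc4pos c c' m n r c = m := by
  simp [oc4pos]

private theorem oc4_right {D : ℕ} {c c' : Fin D} (h : c ≠ c') (m n r : Fin 6) :
    oc4pos c c' m n r c' = n := by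
  simp [oc4pos, h.symm]

private theorem oc4_other {D : ℕ} {c c' i : Fin D} (h : i ≠ c) (h' : i ≠ c') (m n r : Fin 6) :
    oc4pos c c' m n r i = r := by
  simp [oc4pos, h, h']

private theorem oc4_const {D : ℕ} (c c' : Fin D) :
    (fun _ => 1 : Fin D → Fin 6) = oc4pos c c' 1 1 1 := by
  funext i
  simp [oc4pos]

/-- the strict sign pattern above -/
private theorem oc4_above {D : ℕ} {c c' : Fin D} (h : c ≠ c') {m n r m' n' r' : Fin 6}
    (h1 : m' < m) (h2 : n' < n) (h3 : r' < r) :
    ∀ i, oc4pos c c' m' n' r' i < oc4pos c c' m n r i := by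
  intro i
  by_cases hi : i = c
  · subst hi
    rw [oc4_left, oc4_left]
    exact h1
  · by_cases hi' : i = c'
    · subst hi'
      rw [oc4_right h, oc4_right h]
      exact h2
    · rw [oc4_other hi hi', oc4_other hi hi']
      exact h3

private theorem oc4_pure_left {D : ℕ} {c c' : Fin D} (h : c ≠ c') {m n r m' n' r' : Fin 6}
    (h1 : m < m') (h2 : n' < n) (h3 : r' < r) :
    Pure c (oc4pos c c' m n r) (oc4pos c c' m' n' r') := by
  refine ⟨?_, ?_⟩
  · rw [oc4_left, oc4_left]
    exact h1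
  · intro i hi
    by_cases hi' : i = c'
    · subst hi'
      rw [oc4_right h, oc4_right h]
      exact h2
    · rw [oc4_other hi hi', oc4_other hi hi']
      exact h3

private theorem oc4_pure_right {D : ℕ} {c c' : Fin D} (h : c ≠ c') {m n r m' n' r' : Fin 6}
    (h1 : m' < m) (h2 : n < n') (h3 : r' < r) :
    Pure c' (oc4pos c c' m n r) (oc4pos c c' m' n' r') := by
  refine ⟨?_, ?_⟩
  · rw [oc4_right h, oc4_right h]
    exact h2
  · intro i hi
    by_cases hi' : i = c
    · subst hi'
      rw [oc4_left, oc4_left]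
      exact h1
    · rw [oc4_other hi' hi, oc4_other hi' hi]
      exact h3

theorem near_equal {k : ℕ} {V : Type} (U : Unif k V) {s t : Fin 3} (hst : s ≠ t) (j : Fin k) :
    U.d j (U.X (fun _ => 1) s) (U.Y (fun _ => 1) t) < U.a j := by
  obtain ⟨c, c', hcc, hc, hc'⟩ := exists_two U hst j
  have near := near_of_two U hst j hcc hc hc'
  by_contra hnear
  have ha : U.a j ≤ U.d j (U.X (fun _ => 1) s) (U.Y (fun _ => 1) t) := not_lt.1 hnear
  have hb : U.b j ≤ U.d j (U.X (fun _ => 1) s) (U.Y (fun _ => 1) t) := by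
    by_contra hlt
    exact U.equal s t hst (fun _ => 1) j ⟨ha, not_le.1 hlt⟩
  rw [oc4_const c c'] at hb
  have m1 := hc (oc4pos c c' 1 1 1) (oc4pos c c' 3 0 0)
    (oc4_pure_left hcc (by decide) (by decide) (by decide))
  have m2 := hc' (oc4pos c c' 1 1 1) (oc4pos c c' 0 3 0)
    (oc4_pure_right hcc (by decide) (by decide) (by decide))
  have m3 := hc (oc4pos c c' 2 4 2) (oc4pos c c' 3 0 0)
    (oc4_pure_left hcc (by decide) (by decide) (by decide))
  have m4 := hc' (oc4pos c c' 4 2 2) (oc4pos c c' 0 3 0)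
    (oc4_pure_right hcc (by decide) (by decide) (by decide))
  have n1 := near (oc4pos c c' 2 4 2) (oc4pos c c' 1 1 1)
    (oc4_above hcc (by decide) (by decide) (by decide))
  have n2 := near (oc4pos c c' 2 4 2) (oc4pos c c' 0 3 0)
    (oc4_above hcc (by decide) (by decide) (by decide))
  have n3 := near (oc4pos c c' 4 2 2) (oc4pos c c' 1 1 1)
    (oc4_above hcc (by decide) (by decide) (by decide))
  have n4 := near (oc4pos c c' 4 2 2) (oc4pos c c' 3 0 0)
    (oc4_above hcc (by decide) (by decide) (by decide))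
  refine lemmaT (U.four j)
    ![U.X (oc4pos c c' 1 1 1) s, U.X (oc4pos c c' 2 4 2) s, U.X (oc4pos c c' 4 2 2) s]
    ![U.Y (oc4pos c c' 1 1 1) t, U.Y (oc4pos c c' 3 0 0) t, U.Y (oc4pos c c' 0 3 0) t] ?_
  intro p q hpq
  fin_cases p <;> fin_cases q
  · exact absurd rfl hpq
  · exact lt_of_lt_of_le m1.2 hb
  · exact lt_of_lt_of_le m2.2 hb
  · exact lt_of_lt_of_le n1 m3.1
  · exact absurd rfl hpq
  · exact lt_of_lt_of_le n2 m3.1
  · exact lt_of_lt_of_le n3 m4.1
  · exact lt_of_lt_of_le n4 m4.1
  · exact absurd rfl hpq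

theorem unif_false {k : ℕ} {V : Type} (U : Unif k V) (j : Fin k)
    (h : ∀ s, Mid (U.d j) (U.a j) (U.b j) (U.X (fun _ => 1) s) (U.Y (fun _ => 1) s)) :
    False := by
  refine lemmaT (U.four j) (fun i => U.X (fun _ => 1) i) (fun i => U.Y (fun _ => 1) i) ?_
  intro p q hpq
  exact lt_of_lt_of_le (near_equal U hpq j) (h p).1

end Pool.Agent.LibOpc
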