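import Pool.Agent.LibOpc.OA2
import Pool.Agent.LibOpc.OB2
import Pool.Agent.LibOpc.OB3
import Pool.Agent.LibOpc.OC4

set_option autoImplicit false

/-!
Row OC5. The good position.
Sketch. Let `D = 2 k`. The colours for the product Ramsey theorem: `C = Fin k → Fin 3 → Fin 3 →
Fin 3` (layer, item, item ↦ class). `prod_ramsey 6 D C` gives `s`, `box s D` gives `e₀`; take
`e = e₀`. If `S` is empty: `F` arbitrary. Otherwise `M ≥ 1`, there is a vertex (`C.surj`), and
`orPCG_iff_mid` gives `d, a, b`. For a position `p` with entries `< M` and an item `i ∈ S` let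
`vx p i`, `vy p i` be vertices with side `true`, `false`, position `p`, item `i` (`C.surj`,
choice). Say that the position `p : Fin D → Fin M` is good if `F i t := Mid (d i) .. (vx p t) (vy p t)`
has the second property. (First property: `(p, t) ~ (p, t)` is an edge by `hΦ` and `C.adj`, so it is
in some layer.) If some `p` is good we are done. Otherwise every `p` has a bad quadruple
`(i, s₁, s₂, s₃) ∈ Fin k × S × S × S`, a colour in `Fin N`, `N = k * S.card ^ 3`
(`Fintype.equivFin`). `box` gives `J` with a constant quadruple. Now apply `prod_ramsey` to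
`χ p q = fun j σ τ => cls3 (d j) (a j) (b j) (vx (J p) (s σ)) (vy (J q) (s τ))`, get `ι`.
`Unif`: `X p σ = vx (fun c => J c (ι c (p c))) (s σ)`, `Y` in the same way. `pure`: the composite
relation holds because of the coordinate `c` (strict monotonicity); `C.adj` and the description of
`G`. `above`: no coordinate is smaller, the positions differ in all coordinates (`D ≥ 1`: if `k = 0`
there is no layer `j`, the field is vacuous), so it is not an edge, so it is in no layer (the two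
vertices are different, different sides). `equal`: no smaller coordinate, and `¬ Φ` by the conflict.
`unif`: from `prod_ramsey`. The three items are in pairwise conflict, so `s σ`, `s τ` are in
conflict for `σ ≠ τ` (symmetric). Then `unif_false` with the layer `i` of the bad quadruple.
-/

namespace Pool.Agent.LibOpc

open SimpleGraph Pool.Agent.LibPcg

private theorem conf_symm {I : Type} {Φ : I → I → Prop} {s t : I} (h : Conf Φ s t) :
    Conf Φ t s := ⟨h.1.symm, h.2.2, h.2.1⟩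

theorem good_position (k : ℕ) : ∃ e : ℕ, ∀ {I V : Type} [Finite V] {Φ : I → I → Prop}
    {S : Finset I} {M : ℕ} {G : SimpleGraph V}, Comp (2 * k) M Φ S G → (∀ s ∈ S, Φ s s) →
    (k * S.card ^ 3 + 2) ^ e ≤ M → IsOrPCG k G →
    ∃ F : Fin k → I → Prop, (∀ s ∈ S, ∃ i, F i s) ∧
      ∀ i, ∀ s₁ ∈ S, ∀ s₂ ∈ S, ∀ s₃ ∈ S, Conf Φ s₁ s₂ → Conf Φ s₁ s₃ → Conf Φ s₂ s₃ →
        ¬ (F i s₁ ∧ F i s₂ ∧ F i s₃) := by
  obtain ⟨s, hs⟩ := prod_ramsey 6 (2 * k) (Fin k → Fin 3 → Fin 3 → Fin 3)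
  obtain ⟨e, he⟩ := box s (2 * k)
  refine ⟨e, ?_⟩
  intro I V _ Φ S M G C hΦ hM hG
  rcases S.eq_empty_or_nonempty with rfl | hS
  · exact ⟨fun _ _ => False, by simp, by simp⟩
  have hM1 : 0 < M := lt_of_lt_of_le (Nat.pow_pos (by omega)) hM
  have hx : ∀ (bb : Bool) (p : Fin (2 * k) → Fin M) (i : {x // x ∈ S}),
      ∃ v, C.side v = bb ∧ C.pos v = (fun c => (p c : ℕ)) ∧ C.item v = i.1 :=
    fun bb p i => C.surj bb _ (fun c => (p c).2) i.1 i.2
  choose vt ht1 ht2 ht3 using hx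
  have : Nonempty V := ⟨vt true (fun _ => ⟨0, hM1⟩) ⟨hS.choose, hS.choose_spec⟩⟩
  obtain ⟨d, a, b, hd, hab, hG'⟩ := (orPCG_iff_mid k G).1 hG
  have hadj : ∀ (p q : Fin (2 * k) → Fin M) (i j : {x // x ∈ S}),
      CRel Φ (fun c => (p c : ℕ)) i.1 (fun c => (q c : ℕ)) j.1 ↔
        ∃ l, Mid (d l) (a l) (b l) (vt true p i) (vt false q j) := by
    intro p q i j
    have h1 : G.Adj (vt true p i) (vt false q j) ↔
        CRel Φ (fun c => (p c : ℕ)) i.1 (fun c => (q c : ℕ)) j.1 := by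
      rw [C.adj]
      simp only [ht1, ht2, ht3]
      simp
    have hne : vt true p i ≠ vt false q j := by
      intro h
      have := congrArg C.side h
      rw [ht1, ht1] at this
      exact absurd this (by decide)
    rw [← h1, hG']
    exact ⟨fun h => h.2, fun h => ⟨hne, h⟩⟩
  by_contra hno
  have hbad : ∀ p : Fin (2 * k) → Fin M, ∃ (i : Fin k) (s1 s2 s3 : {x // x ∈ S}),
      (Conf Φ s1.1 s2.1 ∧ Conf Φ s1.1 s3.1 ∧ Conf Φ s2.1 s3.1) ∧
      (Mid (d i) (a i) (b i) (vt true p s1) (vt false p s1) ∧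
        Mid (d i) (a i) (b i) (vt true p s2) (vt false p s2) ∧
        Mid (d i) (a i) (b i) (vt true p s3) (vt false p s3)) := by
    intro p
    by_contra hp
    apply hno
    refine ⟨fun i t => ∃ ht : t ∈ S,
      Mid (d i) (a i) (b i) (vt true p ⟨t, ht⟩) (vt false p ⟨t, ht⟩), ?_, ?_⟩
    · intro t ht
      obtain ⟨i, hi⟩ := (hadj p p ⟨t, ht⟩ ⟨t, ht⟩).1 (Or.inr ⟨rfl, hΦ t ht⟩)
      exact ⟨i, ht, hi⟩
    · rintro i s1 h1 s2 h2 s3 h3 c12 c13 c23 ⟨⟨g1, f1⟩, ⟨g2, f2⟩, ⟨g3, f3⟩⟩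
      exact hp ⟨i, ⟨s1, h1⟩, ⟨s2, h2⟩, ⟨s3, h3⟩, ⟨c12, c13, c23⟩, ⟨f1, f2, f3⟩⟩
  choose bi b1 b2 b3 hbc hbm using hbad
  have hcard : Fintype.card (Fin k × {x // x ∈ S} × {x // x ∈ S} × {x // x ∈ S}) =
      k * S.card ^ 3 := by
    simp only [Fintype.card_prod, Fintype.card_fin, Fintype.card_coe]
    ring
  let eqv := Fintype.equivFinOfCardEq hcard
  obtain ⟨J, hJ1, hJ2⟩ := he (k * S.card ^ 3) M hM (fun p => eqv (bi p, b1 p, b2 p, b3 p))
  obtain ⟨ι0, -⟩ := hs (fun _ _ _ _ _ => 0)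
  let P0 : Fin (2 * k) → Fin M := fun c => J c (ι0 c 0)
  have hconst : ∀ p : Fin (2 * k) → Fin s, bi (fun c => J c (p c)) = bi P0 ∧
      b1 (fun c => J c (p c)) = b1 P0 ∧ b2 (fun c => J c (p c)) = b2 P0 ∧
      b3 (fun c => J c (p c)) = b3 P0 := by
    intro p
    have h := eqv.injective (hJ2 p (fun c => ι0 c 0))
    simp only [Prod.mk.injEq] at h
    exact h
  let ss : Fin 3 → {x // x ∈ S} := ![b1 P0, b2 P0, b3 P0]
  have hss : ∀ σ τ : Fin 3, σ ≠ τ → Conf Φ (ss σ).1 (ss τ).1 := by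
    obtain ⟨c12, c13, c23⟩ := hbc P0
    intro σ τ hστ
    fin_cases σ <;> fin_cases τ
    · exact absurd rfl hστ
    · exact c12
    · exact c13
    · exact conf_symm c12
    · exact absurd rfl hστ
    · exact c23
    · exact conf_symm c13
    · exact conf_symm c23
    · exact absurd rfl hστ
  obtain ⟨ι, hι1, hι2⟩ := hs (fun p q => fun j σ τ => cls3 (d j) (a j) (b j)
    (vt true (fun c => J c (p c)) (ss σ)) (vt false (fun c => J c (q c)) (ss τ)))
  have hlt : ∀ (p q : Fin (2 * k) → Fin 6) (c : Fin (2 * k)),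
      ((J c (ι c (p c)) : Fin M) : ℕ) < ((J c (ι c (q c)) : Fin M) : ℕ) ↔ p c < q c := by
    intro p q c
    rw [← Fin.lt_def, (hJ1 c).lt_iff_lt, (hι1 c).lt_iff_lt]
  let U : Unif k V :=
    { d := d
      a := a
      b := b
      four := hd
      X := fun p σ => vt true (fun c => J c (ι c (p c))) (ss σ)
      Y := fun p σ => vt false (fun c => J c (ι c (p c))) (ss σ)
      pure := by
        intro σ τ _ c p q hpq
        exact (hadj _ _ _ _).1 (Or.inl ⟨c, (hlt p q c).2 hpq.1⟩)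
      above := by
        intro σ τ _ p q hpq j hj
        rcases (hadj _ _ _ _).2 ⟨j, hj⟩ with ⟨c, hc⟩ | ⟨h, -⟩
        · exact absurd ((hlt p q c).1 hc) (not_lt.2 (hpq c).le)
        · have h0 : 0 < 2 * k := by
            have := j.2
            omega
          have h1 := (hlt q p ⟨0, h0⟩).2 (hpq ⟨0, h0⟩)
          have h2 := congrFun h ⟨0, h0⟩
          omega
      equal := by
        intro σ τ hστ p j hj
        rcases (hadj _ _ _ _).2 ⟨j, hj⟩ with ⟨c, hc⟩ | ⟨-, h⟩
        · exact absurd hc (lt_irrefl _)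
        · exact (hss σ τ hστ).2.1 h
      unif := by
        intro j σ τ _ p q p' q' h1 h2 h3
        exact congrFun (congrFun (congrFun (hι2 p q p' q' h1 h2 h3) j) σ) τ }
  refine unif_false U (bi P0) ?_
  intro σ
  obtain ⟨e0, e1, e2, e3⟩ := hconst (fun c => ι c 1)
  obtain ⟨m1, m2, m3⟩ := hbm (fun c => J c (ι c 1))
  rw [e0, e1] at m1
  rw [e0, e2] at m2
  rw [e0, e3] at m3
  fin_cases σ
  · exact m1
  · exact m2
  · exact m3

end Pool.Agent.LibOpc
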