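import Pool.Agent.LibOpc.ODefs

set_option autoImplicit false

/-!
Uniform families of layers.
-/

namespace Pool.Agent.LibOpc

open SimpleGraph Pool.Agent.LibPcg

/-- `p` is below `q` in the coordinate `c` and above `q` in all other coordinates -/
def Pure {D L : ℕ} (c : Fin D) (p q : Fin D → Fin L) : Prop :=
  p c < q c ∧ ∀ c', c' ≠ c → q c' < p c'

/-- `k` layers, positions in `{0, ..., 5} ^ D` with `D = 2 k`, three items; everything depends
only on the strict sign pattern of two positions. -/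
structure Unif (k : ℕ) (V : Type) where
  /-- the distance functions -/
  d : Fin k → V → V → ℝ
  /-- lower thresholds -/
  a : Fin k → ℝ
  /-- upper thresholds -/
  b : Fin k → ℝ
  four : ∀ j, FourPt (d j)
  /-- the vertices on the first side -/
  X : (Fin (2 * k) → Fin 6) → Fin 3 → V
  /-- the vertices on the second side -/
  Y : (Fin (2 * k) → Fin 6) → Fin 3 → V
  pure : ∀ s t, s ≠ t → ∀ c p q, Pure c p q → ∃ j, Mid (d j) (a j) (b j) (X p s) (Y q t)
  above : ∀ s t, s ≠ t → ∀ p q, (∀ c, q c < p c) → ∀ j, ¬ Mid (d j) (a j) (b j) (X p s) (Y q t)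
  equal : ∀ s t, s ≠ t → ∀ p j, ¬ Mid (d j) (a j) (b j) (X p s) (Y p t)
  unif : ∀ j s t, s ≠ t → ∀ p q p' q', (∀ c, p c ≠ q c) → (∀ c, p' c ≠ q' c) →
    (∀ c, p c < q c ↔ p' c < q' c) →
    cls3 (d j) (a j) (b j) (X p s) (Y q t) = cls3 (d j) (a j) (b j) (X p' s) (Y q' t)

/-- the layer `j` contains the edges of the pattern `Pure c` between the items `s` and `t` -/
def Unif.Handles {k : ℕ} {V : Type} (U : Unif k V) (j : Fin k) (s t : Fin 3)
    (c : Fin (2 * k)) : Prop :=
  ∀ p q, Pure c p q → Mid (U.d j) (U.a j) (U.b j) (U.X p s) (U.Y q t)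

end Pool.Agent.LibOpc
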