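import Mathlib

set_option autoImplicit false

/-!
Row OD0. Greedy colouring.
Sketch. A relation (graph) on a finite type with all degrees `≤ m` has a proper colouring with
`m + 1` colours. Induction on a finset `A` of vertices (`Finset.induction_on`): there is
`κ : V → Fin (m + 1)` which is proper on `A`; for one more vertex `v` change `κ v` to a colour not in
`(s.image κ)`, `s` the finset of `hm v` (`≤ m` elements, `m + 1` colours:
`Finset.exists_mem_notMem_of_card_lt_card` or `Finset.exists_of_ssubset`...). Then `A = univ`.
-/

namespace Pool.Agent.LibOpc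

theorem greedy {V : Type} [Fintype V] (R : V → V → Prop) (hs : ∀ u v, R u v → R v u) (m : ℕ)
    (hm : ∀ v, ∃ s : Finset V, s.card ≤ m ∧ ∀ u, R v u → u ∈ s) :
    ∃ κ : V → Fin (m + 1), ∀ u v, u ≠ v → R u v → κ u ≠ κ v := by
  classical
  have key : ∀ A : Finset V, ∃ κ : V → Fin (m + 1),
      ∀ u ∈ A, ∀ v ∈ A, u ≠ v → R u v → κ u ≠ κ v := by
    intro A
    induction A using Finset.induction_on with
    | empty => exact ⟨fun _ => 0, fun u hu => absurd hu (Finset.notMem_empty u)⟩
    | insert w A hw ih =>
      obtain ⟨κ, hκ⟩ := ih
      obtain ⟨s, hsc, hsm⟩ := hm w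
      have hex : ∃ c : Fin (m + 1), c ∉ s.image κ := by
        by_contra hcon
        push Not at hcon
        have h1 : (Finset.univ : Finset (Fin (m + 1))) ⊆ s.image κ := fun c _ => hcon c
        have h2 := Finset.card_le_card h1
        have h3 : (s.image κ).card ≤ s.card := Finset.card_image_le
        simp only [Finset.card_univ, Fintype.card_fin] at h2
        omega
      obtain ⟨c, hc⟩ := hex
      refine ⟨Function.update κ w c, ?_⟩
      intro u hu v hv huv hR
      rcases Finset.mem_insert.1 hu with rfl | hu'
      · rcases Finset.mem_insert.1 hv with rfl | hv'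
        · exact absurd rfl huv
        · rw [Function.update_self, Function.update_of_ne (Ne.symm huv)]
          intro h
          exact hc (Finset.mem_image.2 ⟨v, hsm v hR, h.symm⟩)
      · rcases Finset.mem_insert.1 hv with rfl | hv'
        · rw [Function.update_self, Function.update_of_ne huv]
          intro h
          exact hc (Finset.mem_image.2 ⟨u, hsm u (hs u v hR), h⟩)
        · have hu2 : u ≠ w := fun h => hw (h ▸ hu')
          have hv2 : v ≠ w := fun h => hw (h ▸ hv')
          rw [Function.update_of_ne hu2, Function.update_of_ne hv2]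
          exact hκ u hu' v hv' huv hR
  obtain ⟨κ, hκ⟩ := key Finset.univ
  exact ⟨κ, fun u v => hκ u (Finset.mem_univ u) v (Finset.mem_univ v)⟩

end Pool.Agent.LibOpc
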