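import Pool.Agent.LibOpc.OD0

set_option autoImplicit false

/-!
Row OD1. The lemma of Rodl and Trotter on linear orders.
Sketch. `rodl_trotter`: use `greedy` (OD0) for the graph on `{A // A ∈ F}`: `A ~ A'` iff `A ≠ A'` and some `B ∈ F` meets both `A` and
`A'`. Degree `≤ a² b²`: the `B`'s which meet `A` are at most `a b` (union over `x ∈ A`), for each `B`
the `A'` which meet it at most `a b`. Take a colouring `κ` with `Λ = a² b² + 1` colours and an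
injective numbering `ν` of `F` by numbers `< n = F.card`. For the colour `l`:
`π (2 l) x = ν A` if `x ∈ A` for some `A ∈ F` of colour `l` (unique: two such sets which both
contain `x` are adjacent, take `B = A`), and `= n` otherwise;
`π (2 l + 1) x = n - ν A` in the first case (it is `≥ 1`), and `n + 1` otherwise.
Given disjoint `A, B ∈ F`, `l = κ A`. `B` meets at most one set of colour `l` of `F`, and this set is
not `A`. If it meets none: `π (2 l)` works (`ν A < n`). If it meets `A'`: if `ν A < ν A'` then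
`π (2 l)` works, if `ν A' < ν A` then `π (2 l + 1)` works. (If `A` or `B` is empty any `c` works.)
-/

namespace Pool.Agent.LibOpc

private theorem card_meets {P : Type} [DecidableEq P] (F : Finset (Finset P)) (a b : ℕ)
    (hb : ∀ p, (F.filter fun A => p ∈ A).card ≤ b) (A : Finset P) (hA : A.card ≤ a) :
    (A.biUnion fun x => F.filter fun B => x ∈ B).card ≤ a * b := by
  refine le_trans Finset.card_biUnion_le ?_
  refine le_trans (Finset.sum_le_sum fun x _ => hb x) ?_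
  rw [Finset.sum_const, smul_eq_mul]
  exact Nat.mul_le_mul_right b hA

theorem rodl_trotter {P : Type} [DecidableEq P] (F : Finset (Finset P)) (a b : ℕ)
    (ha : ∀ A ∈ F, A.card ≤ a) (hb : ∀ p, (F.filter fun A => p ∈ A).card ≤ b) :
    ∃ π : Fin (2 * (a ^ 2 * b ^ 2 + 1)) → P → ℕ, ∀ A ∈ F, ∀ B ∈ F, Disjoint A B →
      ∃ c, ∀ x ∈ A, ∀ y ∈ B, π c x < π c y := by
  classical
  let R : {A // A ∈ F} → {A // A ∈ F} → Prop := fun A A' =>
    A ≠ A' ∧ ∃ B ∈ F, (∃ x ∈ A.1, x ∈ B) ∧ ∃ y ∈ A'.1, y ∈ B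
  obtain ⟨κ, hκ⟩ := greedy R
    (fun u v ⟨h1, B, hB, h2, h3⟩ => ⟨h1.symm, B, hB, h3, h2⟩) (a ^ 2 * b ^ 2) (by
      intro v
      let T : Finset (Finset P) := v.1.biUnion fun x => F.filter fun B => x ∈ B
      let S : Finset (Finset P) := T.biUnion fun B => B.biUnion fun y => F.filter fun C => y ∈ C
      refine ⟨S.subtype (fun A => A ∈ F), ?_, ?_⟩
      · rw [Finset.card_subtype]
        refine le_trans (Finset.card_filter_le _ _) ?_
        refine le_trans Finset.card_biUnion_le ?_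
        have hT : T.card ≤ a * b := card_meets F a b hb v.1 (ha v.1 v.2)
        have h1 : ∀ B ∈ T, (B.biUnion fun y => F.filter fun C => y ∈ C).card ≤ a * b := by
          intro B hB
          apply card_meets F a b hb B
          apply ha
          simp only [T, Finset.mem_biUnion, Finset.mem_filter] at hB
          obtain ⟨_, _, h, _⟩ := hB
          exact h
        refine le_trans (Finset.sum_le_sum h1) ?_
        rw [Finset.sum_const, smul_eq_mul]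
        refine le_trans (Nat.mul_le_mul_right _ hT) ?_
        apply le_of_eq
        ring
      · rintro u ⟨_, B, hB, ⟨x, hx, hxB⟩, y, hy, hyB⟩
        rw [Finset.mem_subtype]
        simp only [S, T, Finset.mem_biUnion, Finset.mem_filter]
        exact ⟨B, ⟨x, hx, hB, hxB⟩, y, hyB, u.2, hy⟩)
  let ν : {A // A ∈ F} → ℕ := fun A => (F.equivFin A : ℕ)
  have hν : ∀ A, ν A < F.card := fun A => (F.equivFin A).2
  have hνi : ∀ A A', ν A = ν A' → A = A' := fun A A' h =>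
    F.equivFin.injective (Fin.ext h)
  -- sets of the same colour which meet a common member are equal
  have huniq : ∀ A A' : {A // A ∈ F}, κ A = κ A' → ∀ B ∈ F, (∃ x ∈ A.1, x ∈ B) →
      (∃ y ∈ A'.1, y ∈ B) → A = A' := by
    intro A A' h B hB h1 h2
    by_contra hne
    exact hκ A A' hne ⟨hne, B, hB, h1, h2⟩ h
  have huniq2 : ∀ A A' : {A // A ∈ F}, κ A = κ A' → ∀ x, x ∈ A.1 → x ∈ A'.1 → A = A' :=
    fun A A' h x hx hx' => huniq A A' h A.1 A.2 ⟨x, hx, hx⟩ ⟨x, hx', hx⟩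
  let p0 : ℕ → P → ℕ := fun l x =>
    if h : ∃ A : {A // A ∈ F}, (κ A : ℕ) = l ∧ x ∈ A.1 then ν h.choose else F.card
  let p1 : ℕ → P → ℕ := fun l x =>
    if h : ∃ A : {A // A ∈ F}, (κ A : ℕ) = l ∧ x ∈ A.1 then F.card - ν h.choose else F.card + 1
  have h0 : ∀ (A : {A // A ∈ F}) (x : P), x ∈ A.1 → p0 (κ A) x = ν A := by
    intro A x hx
    have h : ∃ A' : {A // A ∈ F}, (κ A' : ℕ) = κ A ∧ x ∈ A'.1 := ⟨A, rfl, hx⟩
    have h2 : h.choose = A := huniq2 _ _ (Fin.ext h.choose_spec.1) x h.choose_spec.2 hx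
    simp only [p0]
    rw [dif_pos h, h2]
  have h1 : ∀ (A : {A // A ∈ F}) (x : P), x ∈ A.1 → p1 (κ A) x = F.card - ν A := by
    intro A x hx
    have h : ∃ A' : {A // A ∈ F}, (κ A' : ℕ) = κ A ∧ x ∈ A'.1 := ⟨A, rfl, hx⟩
    have h2 : h.choose = A := huniq2 _ _ (Fin.ext h.choose_spec.1) x h.choose_spec.2 hx
    simp only [p1]
    rw [dif_pos h, h2]
  have h0' : ∀ (l : ℕ) (x : P), (¬ ∃ A : {A // A ∈ F}, (κ A : ℕ) = l ∧ x ∈ A.1) →
      p0 l x = F.card := by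
    intro l x h
    simp only [p0]
    rw [dif_neg h]
  have h1' : ∀ (l : ℕ) (x : P), (¬ ∃ A : {A // A ∈ F}, (κ A : ℕ) = l ∧ x ∈ A.1) →
      p1 l x = F.card + 1 := by
    intro l x h
    simp only [p1]
    rw [dif_neg h]
  refine ⟨fun c x => if (c : ℕ) % 2 = 0 then p0 ((c : ℕ) / 2) x else p1 ((c : ℕ) / 2) x, ?_⟩
  intro A hA B hB hAB
  have hlt : (κ ⟨A, hA⟩ : ℕ) < a ^ 2 * b ^ 2 + 1 := (κ ⟨A, hA⟩).2
  -- the two possible colours
  have hc0 : ∀ x, (if ((⟨2 * (κ ⟨A, hA⟩ : ℕ), by omega⟩ : Fin (2 * (a ^ 2 * b ^ 2 + 1))) : ℕ) % 2 = 0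
      then p0 (((⟨2 * (κ ⟨A, hA⟩ : ℕ), by omega⟩ : Fin (2 * (a ^ 2 * b ^ 2 + 1))) : ℕ) / 2) x
      else p1 (((⟨2 * (κ ⟨A, hA⟩ : ℕ), by omega⟩ : Fin (2 * (a ^ 2 * b ^ 2 + 1))) : ℕ) / 2) x) =
      p0 (κ ⟨A, hA⟩) x := by
    intro x
    have e1 : (2 * (κ ⟨A, hA⟩ : ℕ)) % 2 = 0 := by omega
    have e2 : (2 * (κ ⟨A, hA⟩ : ℕ)) / 2 = κ ⟨A, hA⟩ := by omega
    simp only [e1, e2, if_true]
  have hc1 : ∀ x, (if ((⟨2 * (κ ⟨A, hA⟩ : ℕ) + 1, by omega⟩ : Fin (2 * (a ^ 2 * b ^ 2 + 1))) : ℕ) % 2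
      = 0
      then p0 (((⟨2 * (κ ⟨A, hA⟩ : ℕ) + 1, by omega⟩ : Fin (2 * (a ^ 2 * b ^ 2 + 1))) : ℕ) / 2) x
      else p1 (((⟨2 * (κ ⟨A, hA⟩ : ℕ) + 1, by omega⟩ : Fin (2 * (a ^ 2 * b ^ 2 + 1))) : ℕ) / 2) x) =
      p1 (κ ⟨A, hA⟩) x := by
    intro x
    have e1 : ¬ (2 * (κ ⟨A, hA⟩ : ℕ) + 1) % 2 = 0 := by omega
    have e2 : (2 * (κ ⟨A, hA⟩ : ℕ) + 1) / 2 = κ ⟨A, hA⟩ := by omega
    simp only [e1, e2, if_false]
  by_cases hex : ∃ y ∈ B, ∃ A' : {A // A ∈ F}, κ A' = κ ⟨A, hA⟩ ∧ y ∈ A'.1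
  · obtain ⟨y0, hy0, A', hA', hyA'⟩ := hex
    have hne : A' ≠ ⟨A, hA⟩ := by
      rintro rfl
      exact Finset.disjoint_left.mp hAB hyA' hy0
    have hνne : ν ⟨A, hA⟩ ≠ ν A' := fun h => hne (hνi _ _ h).symm
    have hB' : ∀ y ∈ B, (∃ A'' : {A // A ∈ F}, (κ A'' : ℕ) = κ ⟨A, hA⟩ ∧ y ∈ A''.1) → y ∈ A'.1 := by
      rintro y hy ⟨A'', hA'', hyA''⟩
      have : A'' = A' := huniq A'' A' ((Fin.ext hA'').trans hA'.symm) B hB ⟨y, hyA'', hy⟩
        ⟨y0, hyA', hy0⟩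
      rw [← this]
      exact hyA''
    have hl : (κ ⟨A, hA⟩ : ℕ) = κ A' := by rw [hA']
    rcases lt_or_gt_of_ne hνne with hlt' | hgt
    · refine ⟨⟨2 * (κ ⟨A, hA⟩ : ℕ), by omega⟩, ?_⟩
      intro x hx y hy
      beta_reduce
      rw [hc0, hc0, h0 ⟨A, hA⟩ x hx]
      by_cases hyy : ∃ A'' : {A // A ∈ F}, (κ A'' : ℕ) = κ ⟨A, hA⟩ ∧ y ∈ A''.1
      · have : p0 (κ ⟨A, hA⟩) y = ν A' := by
          rw [hl]
          exact h0 A' y (hB' y hy hyy)
        rw [this]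
        exact hlt'
      · rw [h0' _ _ hyy]
        exact hν _
    · refine ⟨⟨2 * (κ ⟨A, hA⟩ : ℕ) + 1, by omega⟩, ?_⟩
      intro x hx y hy
      beta_reduce
      rw [hc1, hc1, h1 ⟨A, hA⟩ x hx]
      have hn := hν ⟨A, hA⟩
      by_cases hyy : ∃ A'' : {A // A ∈ F}, (κ A'' : ℕ) = κ ⟨A, hA⟩ ∧ y ∈ A''.1
      · have : p1 (κ ⟨A, hA⟩) y = F.card - ν A' := by
          rw [hl]
          exact h1 A' y (hB' y hy hyy)
        rw [this]
        have hgt' : ν A' < ν ⟨A, hA⟩ := hgt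
        omega
      · rw [h1' _ _ hyy]
        omega
  · refine ⟨⟨2 * (κ ⟨A, hA⟩ : ℕ), by omega⟩, ?_⟩
    intro x hx y hy
    beta_reduce
    rw [hc0, hc0, h0 ⟨A, hA⟩ x hx, h0' _ _ ?_]
    · exact hν _
    · rintro ⟨A'', hA'', hyA''⟩
      exact hex ⟨y, hy, A'', Fin.ext hA'', hyA''⟩

end Pool.Agent.LibOpc
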