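import Pool.Agent.LibOpc.ODDefs

set_option autoImplicit false

/-!
Row OD2. Basic facts on items; the main chains.
Sketch. `mem_items`: an item of the list is `(0, 0, 0, u)` with `u` in some triple `T ∈ TL`, or
`(1, j, m, 0)`, `j ≤ length`, `m < 3`, or `(2, j, c, 0)`, `j ≤ length`, `c < N`.
`pset_nonempty`: kind 0: the number of the triple; kinds 1, 2: the node `j`.
`share_iff`: `share` is true iff the node sets are not disjoint.
`main_sub`: if `mphi s < mpsi t` then `phi s t`. Cases on the kinds of `s` and `t`. (0,0): only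
`2 < 3`: `χ = m` for both; if `s ≠ t` and they share a node `j` then `j < length` and both are in
the triple number `j`, which is rainbow, contradiction; so `¬ share`. (0,1): `before`. (1,0):
impossible (`≥ 12` against `≤ 3`). (1,1): `j < j'`: `before`; `j = j'`: `2 < 3` means `m' = m = m''`,
so `s = t`; `j > j'` impossible. Blockers: `mpsi = 0`; `mphi ≥ 10 (length + 10) > mpsi`
(for items of kind 1, `s.2.1 ≤ length`).
`main_cover`: `before s t` implies `mphi < mpsi` for every `m`: (0,1): `≤ 4 < 11 ≤`; (1,1):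
`10 (j + 1) + 4 < 10 (j' + 1) + 1`. `main_self`: `mphi s < mpsi s` for `m = χ` resp. `m = s.2.2.1`.
-/

namespace Pool.Agent.LibOpc

private theorem od2_tri_mem (TL : List (Mn × Mn × Mn)) (j : ℕ) (hj : j < TL.length) :
    tri TL j ∈ TL := by
  unfold tri
  rw [List.getD_eq_getElem _ _ hj]
  exact List.getElem_mem hj

private theorem od2_inT (T : Mn × Mn × Mn) (u : Mn) :
    inT T u = true ↔ u = T.1 ∨ u = T.2.1 ∨ u = T.2.2 := by
  simp [inT]

theorem mem_items (TL : List (Mn × Mn × Mn)) (N : ℕ) (s : ItC) : s ∈ itemsL TL N ↔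
    (∃ j < TL.length, ∃ u, inT (tri TL j) u = true ∧ s = (0, 0, 0, u)) ∨
    (∃ j ≤ TL.length, ∃ m < 3, s = (1, j, m, (0, 0, 0, 0))) ∨
    (∃ j ≤ TL.length, ∃ c < N, s = (2, j, c, (0, 0, 0, 0))) := by
  unfold itemsL
  rw [List.mem_append, List.mem_append]
  refine or_congr ?_ (or_congr ?_ ?_)
  · rw [List.mem_flatMap]
    constructor
    · rintro ⟨T, hT, hs⟩
      obtain ⟨j, hj, rfl⟩ := List.mem_iff_getElem.1 hT
      have ht : tri TL j = TL[j] := by
        unfold tri
        rw [List.getD_eq_getElem _ _ hj]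
      simp only [List.mem_cons, List.not_mem_nil, or_false] at hs
      rcases hs with rfl | rfl | rfl
      · exact ⟨j, hj, _, (od2_inT _ _).2 (Or.inl (by rw [ht])), rfl⟩
      · exact ⟨j, hj, _, (od2_inT _ _).2 (Or.inr (Or.inl (by rw [ht]))), rfl⟩
      · exact ⟨j, hj, _, (od2_inT _ _).2 (Or.inr (Or.inr (by rw [ht]))), rfl⟩
    · rintro ⟨j, hj, u, hu, rfl⟩
      refine ⟨tri TL j, od2_tri_mem TL j hj, ?_⟩
      simp only [List.mem_cons, List.not_mem_nil, or_false]
      rcases (od2_inT _ _).1 hu with rfl | rfl | rfl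
      · exact Or.inl rfl
      · exact Or.inr (Or.inl rfl)
      · exact Or.inr (Or.inr rfl)
  · simp only [List.mem_flatMap, List.mem_map, List.mem_range]
    constructor
    · rintro ⟨j, hj, m, hm, rfl⟩
      exact ⟨j, Nat.lt_succ_iff.1 hj, m, hm, rfl⟩
    · rintro ⟨j, hj, m, hm, rfl⟩
      exact ⟨j, Nat.lt_succ_iff.2 hj, m, hm, rfl⟩
  · simp only [List.mem_flatMap, List.mem_map, List.mem_range]
    constructor
    · rintro ⟨j, hj, m, hm, rfl⟩
      exact ⟨j, Nat.lt_succ_iff.1 hj, m, hm, rfl⟩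
    · rintro ⟨j, hj, m, hm, rfl⟩
      exact ⟨j, Nat.lt_succ_iff.2 hj, m, hm, rfl⟩

theorem pset_nonempty (TL : List (Mn × Mn × Mn)) (N : ℕ) (s : ItC) (hs : s ∈ itemsL TL N) :
    (Pset TL s).Nonempty := by
  rcases (mem_items TL N s).1 hs with ⟨j, hj, u, hu, rfl⟩ | ⟨j, hj, m, hm, rfl⟩ |
    ⟨j, hj, c, hc, rfl⟩
  · refine ⟨j, ?_⟩
    rw [Pset, Finset.mem_filter, Finset.mem_range]
    exact ⟨by omega, by simp [inP, hj, hu]⟩
  · refine ⟨j, ?_⟩
    rw [Pset, Finset.mem_filter, Finset.mem_range]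
    exact ⟨by omega, by simp [inP]⟩
  · refine ⟨j, ?_⟩
    rw [Pset, Finset.mem_filter, Finset.mem_range]
    exact ⟨by omega, by simp [inP]⟩

theorem share_iff (TL : List (Mn × Mn × Mn)) (s t : ItC) :
    share TL s t = false ↔ Disjoint (Pset TL s) (Pset TL t) := by
  rw [Finset.disjoint_left]
  unfold share Pset
  simp only [List.any_eq_false, List.mem_range, Bool.and_eq_true, Finset.mem_filter,
    Finset.mem_range, not_and]
  constructor
  · rintro h j ⟨hj, h1⟩ _ h2
    exact h j hj h1 h2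
  · intro h j hj h1 h2
    exact h ⟨hj, h1⟩ hj h2

private theorem od2_phi (TL : List (Mn × Mn × Mn)) (s t : ItC) :
    phi TL s t = true ↔ s = t ∨ share TL s t = false ∨ before s t = true := by
  simp [phi]

private theorem od2_before (s t : ItC) :
    before s t = true ↔ (s.1 = 0 ∧ t.1 = 1) ∨ (s.1 = 1 ∧ t.1 = 1 ∧ s.2.1 < t.2.1) := by
  simp [before]

private theorem od2_share0 (TL : List (Mn × Mn × Mn)) (χ : Mn → ℕ) (hχ : Rainbow TL χ) (m : ℕ)
    (u v : Mn) (huv : u ≠ v) (hu : χ u = m) (hv : χ v = m) :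
    share TL (0, 0, 0, u) (0, 0, 0, v) = false := by
  rw [share_iff, Finset.disjoint_left]
  intro j h1 h2
  rw [Pset, Finset.mem_filter] at h1 h2
  have h3 : j < TL.length ∧ inT (tri TL j) u = true := by simpa [inP] using h1.2
  have h4 : j < TL.length ∧ inT (tri TL j) v = true := by simpa [inP] using h2.2
  obtain ⟨-, h5, h6, h7⟩ := hχ _ (od2_tri_mem TL j h3.1)
  have h8 := (od2_inT _ _).1 h3.2
  have h9 := (od2_inT _ _).1 h4.2
  have h10 : χ u = χ v := by rw [hu, hv]
  rcases h8 with h8 | h8 | h8 <;> rcases h9 with h9 | h9 | h9 <;> rw [h8, h9] at h10 huv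
  · exact huv rfl
  · exact h5 h10
  · exact h6 h10
  · exact h5 h10.symm
  · exact huv rfl
  · exact h7 h10
  · exact h6 h10.symm
  · exact h7 h10.symm
  · exact huv rfl

theorem main_sub (TL : List (Mn × Mn × Mn)) (N : ℕ) (χ : Mn → ℕ) (hχ : Rainbow TL χ) (m : ℕ)
    (s t : ItC) (hs : s ∈ itemsL TL N) (ht : t ∈ itemsL TL N)
    (h : mphi TL χ m s < mpsi χ m t) : phi TL s t = true := by
  rw [od2_phi, od2_before]
  rcases (mem_items TL N s).1 hs with ⟨j, hj, u, hu, rfl⟩ | ⟨j, hj, a, ha, rfl⟩ |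
      ⟨j, hj, c, hc, rfl⟩ <;>
    rcases (mem_items TL N t).1 ht with ⟨j', hj', u', hu', rfl⟩ | ⟨j', hj', a', ha', rfl⟩ |
      ⟨j', hj', c', hc', rfl⟩
  · by_cases huu : u = u'
    · left
      rw [huu]
    · right
      left
      have h1 : (if χ u = m then 2 else 4) < (if χ u' = m then 3 else 1) := by
        simpa [mphi, mpsi] using h
      have h2 : χ u = m := by
        by_contra hc
        rw [if_neg hc] at h1
        split_ifs at h1 <;> omega
      have h3 : χ u' = m := by
        by_contra hc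
        rw [if_neg hc] at h1
        split_ifs at h1 <;> omega
      exact od2_share0 TL χ hχ m u u' huu h2 h3
  · right
    right
    left
    exact ⟨rfl, rfl⟩
  · exfalso
    simp [mpsi] at h
  · exfalso
    have h1 : 10 * (j + 1) + (if a = m then 2 else 4) < (if χ u' = m then 3 else 1) := by
      simpa [mphi, mpsi] using h
    split_ifs at h1 <;> omega
  · have h1 : 10 * (j + 1) + (if a = m then 2 else 4) <
        10 * (j' + 1) + (if a' = m then 3 else 1) := by
      simpa [mphi, mpsi] using h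
    by_cases hjj : j < j'
    · right
      right
      right
      exact ⟨rfl, rfl, hjj⟩
    · left
      have h2 : j = j' ∧ a = m ∧ a' = m := by
        split_ifs at h1 with h3 h4 h4
        · exact ⟨by omega, h3, h4⟩
        · omega
        · omega
        · omega
      obtain ⟨h3, h4, h5⟩ := h2
      rw [h3, h4, h5]
  · exfalso
    simp [mpsi] at h
  · exfalso
    have h1 : 10 * (TL.length + 10) < (if χ u' = m then 3 else 1) := by
      simpa [mphi, mpsi] using h
    split_ifs at h1 <;> omega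
  · exfalso
    have h1 : 10 * (TL.length + 10) < 10 * (j' + 1) + (if a' = m then 3 else 1) := by
      simpa [mphi, mpsi] using h
    split_ifs at h1 <;> omega
  · exfalso
    simp [mpsi] at h

theorem main_cover (TL : List (Mn × Mn × Mn)) (χ : Mn → ℕ) (m : ℕ) (s t : ItC)
    (h : before s t = true) : mphi TL χ m s < mpsi χ m t := by
  rcases (od2_before s t).1 h with ⟨h1, h2⟩ | ⟨h1, h2, h3⟩
  · have h4 : mphi TL χ m s = (if χ s.2.2.2 = m then 2 else 4) := by
      simp [mphi, h1]
    have h5 : mpsi χ m t = 10 * (t.2.1 + 1) + (if t.2.2.1 = m then 3 else 1) := by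
      simp [mpsi, h2]
    rw [h4, h5]
    split_ifs <;> omega
  · have h4 : mphi TL χ m s = 10 * (s.2.1 + 1) + (if s.2.2.1 = m then 2 else 4) := by
      simp [mphi, h1]
    have h5 : mpsi χ m t = 10 * (t.2.1 + 1) + (if t.2.2.1 = m then 3 else 1) := by
      simp [mpsi, h2]
    rw [h4, h5]
    split_ifs <;> omega

theorem main_self (TL : List (Mn × Mn × Mn)) (N : ℕ) (χ : Mn → ℕ) (hχ : Rainbow TL χ)
    (s : ItC) (hs : s ∈ itemsL TL N) (h2 : s.1 < 2) :
    ∃ m < 3, mphi TL χ m s < mpsi χ m s := by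
  rcases (mem_items TL N s).1 hs with ⟨j, hj, u, hu, rfl⟩ | ⟨j, hj, a, ha, rfl⟩ |
    ⟨j, hj, c, hc, rfl⟩
  · refine ⟨χ u, ?_, by simp [mphi, mpsi]⟩
    obtain ⟨⟨h3, h4, h5⟩, -⟩ := hχ _ (od2_tri_mem TL j hj)
    rcases (od2_inT _ _).1 hu with rfl | rfl | rfl
    · exact h3
    · exact h4
    · exact h5
  · exact ⟨a, ha, by simp [mphi, mpsi]⟩
  · exact absurd h2 (by simp)

end Pool.Agent.LibOpc
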