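import Pool.Agent.LibOpc.OD1
import Pool.Agent.LibOpc.OD2

set_option autoImplicit false

/-!
Row OD3. The extra chains.
Sketch. `extra_sub`: if `xphi s < xpsi t` then `phi s t`. A centre is a blocker with number `c`;
its node set is `{s.2.1}`. Non-centre, non-centre: `4 max + 3 < 4 min`, so `max π < min π` on the
node sets, which are then disjoint: `¬ share`. Centre `j`, non-centre: `4 π j + 1 < 4 min`, so `j`
is not in the node set of `t`. Non-centre, centre `j`: `4 max + 3 < 4 π j + 2`. Centre, centre: if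
the nodes are equal then `s = t` (both are `(2, j, c, 0)`), otherwise the node sets are disjoint.
`extra_cover`: if all `π x < π y` for `x ∈ Pset s`, `y ∈ Pset t` then `xphi s < xpsi t` (in all four
cases; `Finset.sup_lt_iff`..., the node sets are nonempty, for a centre the node `s.2.1` is in the
node set). `extra_self`: a centre has `4 π + 1 < 4 π + 2`.
`exists_orders`: apply `rodl_trotter` to `F = ((itemsL TL N).toFinset).image (Pset TL)` with
`a = max r 2`, `b = 6`. Cardinality of the node set: kind 0: `occ ≤ r` (the filtered range of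
`occ` and the filtered finset of `Pset`, only `j < length` count); kind 1: inside `{j, j + 1}`;
kind 2: `{j}`. For a node `p` the sets of `F` which contain `p` are among the six sets
`Pset` of `(0,0,0,T.1)`, `(0,0,0,T.2.1)`, `(0,0,0,T.2.2)` with `T` = triple number `p`,
`(1, p, 0, 0)`, `(1, p - 1, 0, 0)`, `(2, p, 0, 0)` (`Pset` does not depend on `s.2.2.1`):
`Finset.card_le_card` with the explicit list, `Finset.card_le_six`.
-/

namespace Pool.Agent.LibOpc

private theorem od3_mem_pset (TL : List (Mn × Mn × Mn)) (s : ItC) (j : ℕ) :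
    j ∈ Pset TL s ↔ j < TL.length + 1 ∧ inP TL j s = true := by
  unfold Pset
  rw [Finset.mem_filter, Finset.mem_range]

private theorem od3_pset_zero (TL : List (Mn × Mn × Mn)) (u : Mn) (j : ℕ) :
    j ∈ Pset TL (0, 0, 0, u) ↔ j < TL.length ∧ inT (tri TL j) u = true := by
  rw [od3_mem_pset]
  unfold inP
  simp
  intro h _
  omega

private theorem od3_pset_one (TL : List (Mn × Mn × Mn)) (i m : ℕ) (u : Mn) (j : ℕ) :
    j ∈ Pset TL (1, i, m, u) ↔ j < TL.length + 1 ∧ (j = i ∨ j = i + 1) := by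
  rw [od3_mem_pset]
  unfold inP
  simp

private theorem od3_pset_two (TL : List (Mn × Mn × Mn)) (i m : ℕ) (u : Mn) (hi : i ≤ TL.length) :
    Pset TL (2, i, m, u) = {i} := by
  ext j
  rw [od3_mem_pset]
  unfold inP
  simp
  intro h
  omega

/-- a centre is a blocker at a node -/
private theorem od3_centre (TL : List (Mn × Mn × Mn)) (N : ℕ) (s : ItC)
    (hs : s ∈ itemsL TL N) (h2 : 2 ≤ s.1) :
    ∃ i, i ≤ TL.length ∧ ∃ m < N, s = (2, i, m, (0, 0, 0, 0)) ∧ Pset TL s = {i} := by
  rcases (mem_items TL N s).1 hs with ⟨j, hj, u, hu, rfl⟩ | ⟨j, hj, m, hm, rfl⟩ |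
    ⟨j, hj, c, hc, rfl⟩
  · simp at h2
  · simp at h2
  · exact ⟨j, hj, c, hc, rfl, od3_pset_two TL j c _ hj⟩

private theorem od3_phi_of_disj (TL : List (Mn × Mn × Mn)) (s t : ItC)
    (h : Disjoint (Pset TL s) (Pset TL t)) : phi TL s t = true := by
  have h1 : share TL s t = false := (share_iff TL s t).2 h
  unfold phi
  rw [h1]
  simp

/-- lower bound for the lower key -/
private theorem od3_xphi_eq (TL : List (Mn × Mn × Mn)) (N : ℕ) (π : ℕ → ℕ) (c : ℕ) (s : ItC)
    (hs : s ∈ itemsL TL N) :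
    ((2 ≤ s.1 ∧ s.2.2.1 = c) ∧ xphi TL π c s = 4 * (Pset TL s).sup π + 1) ∨
    (¬ (2 ≤ s.1 ∧ s.2.2.1 = c) ∧ xphi TL π c s = 4 * (Pset TL s).sup π + 3) := by
  by_cases h : 2 ≤ s.1 ∧ s.2.2.1 = c
  · left
    refine ⟨h, ?_⟩
    unfold xphi
    rw [if_pos h]
    obtain ⟨i, hi, m, hm, he, hP⟩ := od3_centre TL N s hs h.1
    rw [hP]
    subst he
    simp
  · right
    refine ⟨h, ?_⟩
    unfold xphi
    rw [if_neg h]

private theorem od3_xpsi_eq (TL : List (Mn × Mn × Mn)) (N : ℕ) (π : ℕ → ℕ) (c : ℕ) (s : ItC)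
    (hs : s ∈ itemsL TL N) (hne : (Pset TL s).Nonempty) :
    ((2 ≤ s.1 ∧ s.2.2.1 = c) ∧ xpsi TL π c s = 4 * (Pset TL s).inf' hne π + 2) ∨
    (¬ (2 ≤ s.1 ∧ s.2.2.1 = c) ∧ xpsi TL π c s = 4 * (Pset TL s).inf' hne π) := by
  by_cases h : 2 ≤ s.1 ∧ s.2.2.1 = c
  · left
    refine ⟨h, ?_⟩
    unfold xpsi
    rw [if_pos h]
    obtain ⟨i, hi, m, hm, he, hP⟩ := od3_centre TL N s hs h.1
    have h1 : (Pset TL s).inf' hne π = π i := by
      have h2 : i ∈ Pset TL s := by rw [hP]; simp
      apply le_antisymm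
      · exact Finset.inf'_le π h2
      · apply Finset.le_inf'
        intro b hb
        rw [hP, Finset.mem_singleton] at hb
        rw [hb]
    rw [h1]
    subst he
    rfl
  · right
    refine ⟨h, ?_⟩
    unfold xpsi
    rw [if_neg h, dif_pos hne]

private theorem od3_disj_of_lt (A B : Finset ℕ) (π : ℕ → ℕ) (hB : B.Nonempty)
    (h : A.sup π < B.inf' hB π) : Disjoint A B := by
  rw [Finset.disjoint_left]
  intro x hA hx
  have h1 : π x ≤ A.sup π := Finset.le_sup (f := π) hA
  have h2 : B.inf' hB π ≤ π x := Finset.inf'_le π hx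
  omega

private theorem od3_card (TL : List (Mn × Mn × Mn)) (N r : ℕ) (hr : ∀ u, occ TL u ≤ r)
    (s : ItC) (hs : s ∈ itemsL TL N) : (Pset TL s).card ≤ max r 2 := by
  rcases (mem_items TL N s).1 hs with ⟨j, hj, u, hu, rfl⟩ | ⟨j, hj, m, hm, rfl⟩ |
    ⟨j, hj, c, hc, rfl⟩
  · refine le_trans ?_ (le_max_left r 2)
    refine le_trans ?_ (hr u)
    have h1 : Pset TL (0, 0, 0, u) =
        ((List.range TL.length).filter fun j => inT (tri TL j) u).toFinset := by
      ext i
      rw [od3_pset_zero, List.mem_toFinset, List.mem_filter, List.mem_range]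
    rw [h1]
    unfold occ
    exact List.toFinset_card_le _
  · refine le_trans ?_ (le_max_right r 2)
    have h1 : Pset TL (1, j, m, (0, 0, 0, 0)) ⊆ {j, j + 1} := by
      intro i hi
      rw [od3_pset_one] at hi
      rw [Finset.mem_insert, Finset.mem_singleton]
      exact hi.2
    exact le_trans (Finset.card_le_card h1) Finset.card_le_two
  · rw [od3_pset_two TL j c _ hj]
    simp

private theorem od3_pset_one_eq (TL : List (Mn × Mn × Mn)) (i m : ℕ) (u : Mn) :
    Pset TL (1, i, m, u) = Pset TL (1, i, 0, (0, 0, 0, 0)) := by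
  ext j
  rw [od3_pset_one, od3_pset_one]

private theorem od3_deg (TL : List (Mn × Mn × Mn)) (N p : ℕ) :
    ((((itemsL TL N).toFinset).image (Pset TL)).filter fun A => p ∈ A).card ≤ 6 := by
  have h1 : ((((itemsL TL N).toFinset).image (Pset TL)).filter fun A => p ∈ A) ⊆
      {Pset TL (0, 0, 0, (tri TL p).1), Pset TL (0, 0, 0, (tri TL p).2.1),
        Pset TL (0, 0, 0, (tri TL p).2.2), Pset TL (1, p, 0, (0, 0, 0, 0)),
        Pset TL (1, p - 1, 0, (0, 0, 0, 0)), {p}} := by
    intro A hA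
    rw [Finset.mem_filter, Finset.mem_image] at hA
    obtain ⟨⟨s, hs, rfl⟩, hp⟩ := hA
    rw [List.mem_toFinset] at hs
    simp only [Finset.mem_insert, Finset.mem_singleton]
    rcases (mem_items TL N s).1 hs with ⟨j, hj, u, hu, rfl⟩ | ⟨j, hj, m, hm, rfl⟩ |
      ⟨j, hj, c, hc, rfl⟩
    · rw [od3_pset_zero] at hp
      have h2 := hp.2
      unfold inT at h2
      simp only [Bool.or_eq_true, decide_eq_true_eq] at h2
      rcases h2 with h2 | h2 | h2
      · left; rw [h2]
      · right; left; rw [h2]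
      · right; right; left; rw [h2]
    · rw [od3_pset_one] at hp
      rcases hp.2 with h2 | h2
      · right; right; right; left
        rw [h2]
        exact od3_pset_one_eq TL j m _
      · right; right; right; right; left
        have h3 : p - 1 = j := by omega
        rw [h3]
        exact od3_pset_one_eq TL j m _
    · rw [od3_pset_two TL j c _ hj, Finset.mem_singleton] at hp
      right; right; right; right; right
      rw [od3_pset_two TL j c _ hj, hp]
  exact le_trans (Finset.card_le_card h1) Finset.card_le_six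

theorem extra_sub (TL : List (Mn × Mn × Mn)) (N : ℕ) (π : ℕ → ℕ) (c : ℕ)
    (s t : ItC) (hs : s ∈ itemsL TL N) (ht : t ∈ itemsL TL N)
    (h : xphi TL π c s < xpsi TL π c t) : phi TL s t = true := by
  have hne := pset_nonempty TL N t ht
  rcases od3_xphi_eq TL N π c s hs with ⟨hs1, hs2⟩ | ⟨hs1, hs2⟩
  · rcases od3_xpsi_eq TL N π c t ht hne with ⟨ht1, ht2⟩ | ⟨ht1, ht2⟩
    · obtain ⟨i, hi, m, hm, he, hP⟩ := od3_centre TL N s hs hs1.1
      obtain ⟨i', hi', m', hm', he', hP'⟩ := od3_centre TL N t ht ht1.1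
      by_cases hii : i = i'
      · have h1 : m = c := by
          have := hs1.2
          rw [he] at this
          exact this
        have h2 : m' = c := by
          have := ht1.2
          rw [he'] at this
          exact this
        have h3 : s = t := by rw [he, he', hii, h1, h2]
        unfold phi
        rw [h3]
        simp
      · apply od3_phi_of_disj
        rw [hP, hP', Finset.disjoint_singleton]
        exact hii
    · apply od3_phi_of_disj
      apply od3_disj_of_lt _ _ π hne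
      rw [hs2, ht2] at h
      omega
  · rcases od3_xpsi_eq TL N π c t ht hne with ⟨ht1, ht2⟩ | ⟨ht1, ht2⟩
    · apply od3_phi_of_disj
      apply od3_disj_of_lt _ _ π hne
      rw [hs2, ht2] at h
      omega
    · apply od3_phi_of_disj
      apply od3_disj_of_lt _ _ π hne
      rw [hs2, ht2] at h
      omega

theorem extra_cover (TL : List (Mn × Mn × Mn)) (N : ℕ) (π : ℕ → ℕ) (c : ℕ)
    (s t : ItC) (hs : s ∈ itemsL TL N) (ht : t ∈ itemsL TL N)
    (h : ∀ x ∈ Pset TL s, ∀ y ∈ Pset TL t, π x < π y) : xphi TL π c s < xpsi TL π c t := by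
  have hnes := pset_nonempty TL N s hs
  have hne := pset_nonempty TL N t ht
  have hlt : (Pset TL s).sup π < (Pset TL t).inf' hne π := by
    rw [Finset.lt_inf'_iff]
    intro y hy
    obtain ⟨x0, hx0⟩ := hnes
    have h0 := h x0 hx0 y hy
    rw [Finset.sup_lt_iff (by rw [Nat.bot_eq_zero]; omega)]
    intro x hx
    exact h x hx y hy
  rcases od3_xphi_eq TL N π c s hs with ⟨hs1, hs2⟩ | ⟨hs1, hs2⟩ <;>
  rcases od3_xpsi_eq TL N π c t ht hne with ⟨ht1, ht2⟩ | ⟨ht1, ht2⟩ <;>
  · rw [hs2, ht2]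
    omega

theorem extra_self (TL : List (Mn × Mn × Mn)) (N : ℕ) (π : ℕ → ℕ)
    (s : ItC) (hs : s ∈ itemsL TL N) (h2 : 2 ≤ s.1) :
    s.2.2.1 < N ∧ xphi TL π s.2.2.1 s < xpsi TL π s.2.2.1 s := by
  obtain ⟨i, hi, m, hm, he, hP⟩ := od3_centre TL N s hs h2
  constructor
  · rw [he]
    exact hm
  · unfold xphi xpsi
    rw [if_pos ⟨h2, rfl⟩, if_pos ⟨h2, rfl⟩]
    omega

theorem exists_orders (TL : List (Mn × Mn × Mn)) (N r : ℕ) (hr : ∀ u, occ TL u ≤ r) :
    ∃ π : Fin (2 * ((max r 2) ^ 2 * 6 ^ 2 + 1)) → ℕ → ℕ,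
      ∀ s ∈ itemsL TL N, ∀ t ∈ itemsL TL N, Disjoint (Pset TL s) (Pset TL t) →
        ∃ c, ∀ x ∈ Pset TL s, ∀ y ∈ Pset TL t, π c x < π c y := by
  obtain ⟨π, hπ⟩ := rodl_trotter (((itemsL TL N).toFinset).image (Pset TL)) (max r 2) 6
    (by
      intro A hA
      rw [Finset.mem_image] at hA
      obtain ⟨s, hs, rfl⟩ := hA
      rw [List.mem_toFinset] at hs
      exact od3_card TL N r hr s hs)
    (fun p => od3_deg TL N p)
  refine ⟨π, fun s hs t ht hd => ?_⟩
  exact hπ (Pset TL s) (Finset.mem_image.2 ⟨s, List.mem_toFinset.2 hs, rfl⟩)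
    (Pset TL t) (Finset.mem_image.2 ⟨t, List.mem_toFinset.2 ht, rfl⟩) hd

end Pool.Agent.LibOpc
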