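import Pool.Agent.LibOpc.OD3

set_option autoImplicit false

/-!
Row OD4. A rainbow colouring gives a cover by `3 + N` chains.
Sketch. `c < 3`: main chain `c`; `c ≥ 3`: extra chain `c - 3` with the order number `c - 3` of
`exists_orders` if `c - 3 < 2 * (...)`, and the zero function otherwise. (h1): `main_sub`,
`extra_sub`. (h2): `phi s t` means `s = t`, or `¬ share`, or `before`. `s = t`: `main_self` if the
kind is `< 2`, otherwise `extra_self` (chain `3 + s.2.2.1 < 3 + N`). `¬ share`: `share_iff`,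
`exists_orders`, `extra_cover` (the number of the chain is `3 + c`, `c < 2 * (...) ≤ N`).
`before`: `main_cover`, chain `0`.
-/

namespace Pool.Agent.LibOpc

theorem phi_complete (TL : List (Mn × Mn × Mn)) (N r k : ℕ) (hk : 3 + N = 2 * k)
    (hN : 2 * ((max r 2) ^ 2 * 6 ^ 2 + 1) ≤ N) (hr : ∀ u, occ TL u ≤ r) (χ : Mn → ℕ)
    (hχ : Rainbow TL χ) :
    ∃ φ ψ : Fin (2 * k) → ItC → ℕ,
      (∀ c, ∀ s ∈ itemsL TL N, ∀ t ∈ itemsL TL N, φ c s < ψ c t → phi TL s t = true) ∧
      (∀ s ∈ itemsL TL N, ∀ t ∈ itemsL TL N, phi TL s t = true → ∃ c, φ c s < ψ c t) := by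
  obtain ⟨π, hπ⟩ := exists_orders TL N r hr
  obtain ⟨ρ, hρ⟩ : ∃ ρ : ℕ → ℕ → ℕ, ∀ (c : ℕ)
      (h : c < 2 * ((max r 2) ^ 2 * 6 ^ 2 + 1)), ρ c = π ⟨c, h⟩ := by
    refine ⟨fun c => if h : c < 2 * ((max r 2) ^ 2 * 6 ^ 2 + 1) then π ⟨c, h⟩ else fun _ => 0, ?_⟩
    intro c h
    exact dif_pos h
  refine ⟨fun c s => if c.val < 3 then mphi TL χ c.val s else xphi TL (ρ (c.val - 3)) (c.val - 3) s,
    fun c s => if c.val < 3 then mpsi χ c.val s else xpsi TL (ρ (c.val - 3)) (c.val - 3) s,
    ?_, ?_⟩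
  · intro c s hs t ht h
    simp only at h
    by_cases hc : c.val < 3
    · rw [if_pos hc, if_pos hc] at h
      exact main_sub TL N χ hχ c.val s t hs ht h
    · rw [if_neg hc, if_neg hc] at h
      exact extra_sub TL N _ _ s t hs ht h
  · intro s hs t ht h
    simp only
    have hex : ∀ (c : ℕ), c < N → xphi TL (ρ c) c s < xpsi TL (ρ c) c t →
        ∃ c : Fin (2 * k),
          (if c.val < 3 then mphi TL χ c.val s else xphi TL (ρ (c.val - 3)) (c.val - 3) s) <
          (if c.val < 3 then mpsi χ c.val t else xpsi TL (ρ (c.val - 3)) (c.val - 3) t) := by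
      intro c hc hlt
      refine ⟨⟨3 + c, by omega⟩, ?_⟩
      have h3 : ¬ (3 + c < 3) := by omega
      simp only
      rw [if_neg h3, if_neg h3]
      have h4 : 3 + c - 3 = c := by omega
      rw [h4]
      exact hlt
    have hmn : ∀ (m : ℕ), m < 3 → mphi TL χ m s < mpsi χ m t →
        ∃ c : Fin (2 * k),
          (if c.val < 3 then mphi TL χ c.val s else xphi TL (ρ (c.val - 3)) (c.val - 3) s) <
          (if c.val < 3 then mpsi χ c.val t else xpsi TL (ρ (c.val - 3)) (c.val - 3) t) := by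
      intro m hm hlt
      refine ⟨⟨m, by omega⟩, ?_⟩
      simp only
      rw [if_pos hm, if_pos hm]
      exact hlt
    unfold phi at h
    rw [Bool.or_eq_true, Bool.or_eq_true] at h
    rcases h with h | h | h
    · have hst : s = t := of_decide_eq_true h
      subst hst
      by_cases h2 : s.1 < 2
      · obtain ⟨m, hm, hlt⟩ := main_self TL N χ hχ s hs h2
        exact hmn m hm hlt
      · obtain ⟨hlN, hlt⟩ := extra_self TL N (ρ s.2.2.1) s hs (by omega)
        exact hex _ hlN hlt
    · have hsh : share TL s t = false := by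
        cases hb : share TL s t
        · rfl
        · rw [hb] at h; simp at h
      have hdis := (share_iff TL s t).1 hsh
      obtain ⟨c, hc⟩ := hπ s hs t ht hdis
      refine hex c.val (by have := c.isLt; omega) ?_
      rw [hρ c.val c.isLt]
      exact extra_cover TL N _ _ s t hs ht hc
    · exact hmn 0 (by norm_num) (main_cover TL χ 0 s t h)

end Pool.Agent.LibOpc
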