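import Pool.Agent.LibOpc.OD2

set_option autoImplicit false

/-!
Row OD5. Soundness: from the layers to a 1-in-3 assignment.
Sketch. Items in conflict: `Conf (fun s t => phi TL s t = true)`: different, sharing a node, and
neither `before` the other. So: two different items of the same triple `j` (kind 0), two different
items `(1, j, m, 0)` with the same `j`, two different blockers of the same node, a blocker of the
node `j` with any item linked to the node `j` of kind 0 or 1 are in conflict.
`clique`: let `W : Fin (3 + N) → ItC` be injective, with values in the list, pairwise in conflict.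
Every layer `i : Fin k` covers at most two of them (`hT`), every item is covered: since
`3 + N = 2 k`, every layer covers exactly two of them, and each item is covered by exactly one layer.
(Count pairs (item, layer): `≥ 3 + N` and `≤ 2 k`.) So for each layer `i`:
`#{x : Fin 3 | F i (W x)} + #{c : Fin N | F i (W (3 + c))} = 2`.
Apply it to: (A) the three items of the triple `j` and the blockers of the node `j`, `j < length`;
(B) the items `(1, j, m, 0)` and the blockers of the node `j`, `j ≤ length`; (C) the items
`(1, j, m, 0)` and the blockers of the node `j + 1`, `j + 1 ≤ length`. With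
`n i j = #{blockers of the node j covered by i}` (B), (C) give `n i j = n i (j + 1)`, so
`n i j = n i 0` for all `j ≤ length`; (A): the number of items of the triple `j` covered by `i` is
`2 - n i 0` for every `j`. If `TL = []` the claim is trivial. Otherwise, summing over the layers,
`∑ i, (2 - n i 0) = 3` (each item of the triple `0` is covered by exactly one layer) and each
summand is `≤ 2`, so some layer `i` has `2 - n i 0 = 1` (if all summands were `0` or `2` the sum
would be even). `f u = decide (F i (0, 0, 0, u))`.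
-/

namespace Pool.Agent.LibOpc

theorem clique {k N : ℕ} (hk : 3 + N = 2 * k) (Φ : ItC → ItC → Prop) (S : Finset ItC)
    (F : Fin k → ItC → Prop) (hF : ∀ s ∈ S, ∃ i, F i s)
    (hT : ∀ i, ∀ s₁ ∈ S, ∀ s₂ ∈ S, ∀ s₃ ∈ S, Conf Φ s₁ s₂ → Conf Φ s₁ s₃ → Conf Φ s₂ s₃ →
      ¬ (F i s₁ ∧ F i s₂ ∧ F i s₃)) (W : Fin 3 ⊕ Fin N → ItC) (hW : ∀ x, W x ∈ S)
    (hc : ∀ x y, x ≠ y → Conf Φ (W x) (W y)) :
    (∀ x, ∃! i, F i (W x)) ∧
    ∀ i, Nat.card {x : Fin 3 // F i (W (.inl x))} + Nat.card {c : Fin N // F i (W (.inr c))} = 2 := by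
  classical
  set n : Fin k → ℕ := fun i => (Finset.univ.filter (fun x => F i (W x))).card with hn
  set m : Fin 3 ⊕ Fin N → ℕ := fun x => (Finset.univ.filter (fun i => F i (W x))).card with hm
  have hn2 : ∀ i, n i ≤ 2 := by
    intro i
    by_contra h
    have h3 : 2 < (Finset.univ.filter (fun x => F i (W x))).card := not_le.mp h
    obtain ⟨a, ha, b, hb, c, hc', hab, hac, hbc⟩ := Finset.two_lt_card.mp h3
    simp only [Finset.mem_filter, Finset.mem_univ, true_and] at ha hb hc'
    exact hT i (W a) (hW a) (W b) (hW b) (W c) (hW c) (hc a b hab) (hc a c hac) (hc b c hbc)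
      ⟨ha, hb, hc'⟩
  have hm1 : ∀ x, 1 ≤ m x := by
    intro x
    obtain ⟨i, hi⟩ := hF _ (hW x)
    exact Finset.card_pos.mpr ⟨i, by simp [hi]⟩
  have hsum : ∑ i, n i = ∑ x, m x := by
    simp only [hn, hm, Finset.card_filter]
    exact Finset.sum_comm
  have hcardA : ∑ _x : Fin 3 ⊕ Fin N, 1 = 2 * k := by
    simp only [Finset.sum_const, Finset.card_univ, Fintype.card_sum, Fintype.card_fin, smul_eq_mul,
      mul_one]
    omega
  have hle1 : ∑ x : Fin 3 ⊕ Fin N, 1 ≤ ∑ x, m x := Finset.sum_le_sum (fun x _ => hm1 x)
  have hle2 : ∑ i, n i ≤ ∑ _i : Fin k, 2 := Finset.sum_le_sum (fun i _ => hn2 i)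
  have hk2 : ∑ _i : Fin k, 2 = 2 * k := by simp [mul_comm]
  have hn_eq : ∀ i, n i = 2 := by
    have h : ∑ i, n i = ∑ _i : Fin k, 2 := by omega
    intro i
    exact (Finset.sum_eq_sum_iff_of_le (fun i _ => hn2 i)).mp h i (Finset.mem_univ i)
  have hm_eq : ∀ x, m x = 1 := by
    have h : ∑ _x : Fin 3 ⊕ Fin N, 1 = ∑ x, m x := by omega
    intro x
    exact ((Finset.sum_eq_sum_iff_of_le (fun x _ => hm1 x)).mp h x (Finset.mem_univ x)).symm
  constructor
  · intro x
    obtain ⟨i, hi⟩ := Finset.card_eq_one.mp (hm_eq x)
    refine ⟨i, ?_, ?_⟩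
    · have : i ∈ Finset.univ.filter (fun i => F i (W x)) := by rw [hi]; exact Finset.mem_singleton_self i
      simpa using this
    · intro i' hi'
      have : i' ∈ Finset.univ.filter (fun i => F i (W x)) := by simp [hi']
      rw [hi] at this
      exact Finset.mem_singleton.mp this
  · intro i
    have h := hn_eq i
    simp only [hn] at h
    rw [← Nat.card_sum, ← Nat.card_congr (Equiv.subtypeSum (p := fun x => F i (W x))),
      Nat.card_eq_fintype_card, Fintype.card_subtype]
    exact h

private theorem od5_conf (TL : List (Mn × Mn × Mn)) (s t : ItC) (j : ℕ) (hj : j ≤ TL.length)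
    (hs : inP TL j s = true) (ht : inP TL j t = true) (hne : s ≠ t) (h1 : before s t = false)
    (h2 : before t s = false) : Conf (fun s t => phi TL s t = true) s t := by
  have sh : share TL s t = true := by
    unfold share
    rw [List.any_eq_true]
    exact ⟨j, List.mem_range.mpr (by omega), by rw [hs, ht]; rfl⟩
  have sh' : share TL t s = true := by
    unfold share
    rw [List.any_eq_true]
    exact ⟨j, List.mem_range.mpr (by omega), by rw [hs, ht]; rfl⟩
  refine ⟨hne, ?_, ?_⟩
  · simp [phi, hne, sh, h1]
  · simp [phi, hne.symm, sh', h2]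

private theorem od5_card (p : Fin 3 → Prop) [DecidablePred p] :
    Nat.card {x : Fin 3 // p x} = (decide (p 0)).toNat + (decide (p 1)).toNat +
      (decide (p 2)).toNat := by
  rw [Nat.card_eq_fintype_card, Fintype.card_subtype, Finset.card_filter, Fin.sum_univ_three]
  by_cases h0 : p 0 <;> by_cases h1 : p 1 <;> by_cases h2 : p 2 <;> simp [h0, h1, h2]

theorem phi_sound (TL : List (Mn × Mn × Mn)) (N k : ℕ) (hk : 3 + N = 2 * k)
    (hd : ∀ T ∈ TL, T.1 ≠ T.2.1 ∧ T.1 ≠ T.2.2 ∧ T.2.1 ≠ T.2.2) (F : Fin k → ItC → Prop)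
    (hF : ∀ s ∈ (itemsL TL N).toFinset, ∃ i, F i s)
    (hT : ∀ i, ∀ s₁ ∈ (itemsL TL N).toFinset, ∀ s₂ ∈ (itemsL TL N).toFinset,
      ∀ s₃ ∈ (itemsL TL N).toFinset,
      Conf (fun s t => phi TL s t = true) s₁ s₂ → Conf (fun s t => phi TL s t = true) s₁ s₃ →
      Conf (fun s t => phi TL s t = true) s₂ s₃ → ¬ (F i s₁ ∧ F i s₂ ∧ F i s₃)) :
    ∃ f : Mn → Bool, ∀ T ∈ TL, ExOne (f T.1) (f T.2.1) (f T.2.2) := by
  classical
  by_cases hL : TL.length = 0
  · refine ⟨fun _ => true, fun T hT' => ?_⟩
    rw [List.length_eq_zero_iff] at hL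
    rw [hL] at hT'
    exact absurd hT' (by simp)
  have htri : ∀ j, j < TL.length → tri TL j ∈ TL := by
    intro j hj
    unfold tri
    rw [List.getD_eq_getElem _ _ hj]
    exact List.getElem_mem hj
  -- the families
  let mn : ℕ → Fin 3 → ItC := fun j x =>
    (0, 0, 0, (![(tri TL j).1, (tri TL j).2.1, (tri TL j).2.2] : Fin 3 → Mn) x)
  let cn : ℕ → Fin 3 → ItC := fun j m => (1, j, m.val, (0, 0, 0, 0))
  let bl : ℕ → Fin N → ItC := fun j c => (2, j, c.val, (0, 0, 0, 0))
  have mem_mn : ∀ j, j < TL.length → ∀ x, mn j x ∈ (itemsL TL N).toFinset := by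
    intro j hj x
    rw [List.mem_toFinset, mem_items]
    refine Or.inl ⟨j, hj, _, ?_, rfl⟩
    fin_cases x <;> simp [inT]
  have mem_cn : ∀ j, j ≤ TL.length → ∀ x, cn j x ∈ (itemsL TL N).toFinset := by
    intro j hj x
    rw [List.mem_toFinset, mem_items]
    exact Or.inr (Or.inl ⟨j, hj, x.val, x.isLt, rfl⟩)
  have mem_bl : ∀ j, j ≤ TL.length → ∀ x, bl j x ∈ (itemsL TL N).toFinset := by
    intro j hj x
    rw [List.mem_toFinset, mem_items]
    exact Or.inr (Or.inr ⟨j, hj, x.val, x.isLt, rfl⟩)
  have in_mn : ∀ j, j < TL.length → ∀ x, inP TL j (mn j x) = true := by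
    intro j hj x
    have : inT (tri TL j) ((![(tri TL j).1, (tri TL j).2.1, (tri TL j).2.2] : Fin 3 → Mn) x)
        = true := by
      fin_cases x <;> simp [inT]
    simp [inP, mn, hj, this]
  have in_cn : ∀ j x, inP TL j (cn j x) = true := by
    intro j x; simp [inP, cn]
  have in_cn' : ∀ j x, inP TL (j + 1) (cn j x) = true := by
    intro j x; simp [inP, cn]
  have in_bl : ∀ j x, inP TL j (bl j x) = true := by
    intro j x; simp [inP, bl]
  have mn_inj : ∀ j, j < TL.length → ∀ x y, x ≠ y → mn j x ≠ mn j y := by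
    intro j hj x y hxy h
    obtain ⟨h1, h2, h3⟩ := hd _ (htri j hj)
    have h' : (![(tri TL j).1, (tri TL j).2.1, (tri TL j).2.2] : Fin 3 → Mn) x =
        (![(tri TL j).1, (tri TL j).2.1, (tri TL j).2.2] : Fin 3 → Mn) y := by
      have := congrArg (fun s : ItC => s.2.2.2) h
      exact this
    fin_cases x <;> fin_cases y <;> simp at h' hxy
    · exact h1 h'
    · exact h2 h'
    · exact h1 h'.symm
    · exact h3 h'
    · exact h2 h'.symm
    · exact h3 h'.symm
  -- (A)
  have hA := fun (j : ℕ) (hj : j < TL.length) =>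
    clique hk (fun s t => phi TL s t = true) (itemsL TL N).toFinset F hF hT
      (Sum.elim (mn j) (bl j))
      (by
        rintro (x | x)
        · exact mem_mn j hj x
        · exact mem_bl j hj.le x)
      (by
        rintro (x | x) (y | y) hxy
        · refine od5_conf TL _ _ j hj.le (in_mn j hj x) (in_mn j hj y)
            (mn_inj j hj x y (fun h => hxy (by rw [h]))) ?_ ?_ <;> simp [before, mn]
        · refine od5_conf TL _ _ j hj.le (in_mn j hj x) (in_bl j y) ?_ ?_ ?_ <;>
            simp [before, mn, bl]
        · refine od5_conf TL _ _ j hj.le (in_bl j x) (in_mn j hj y) ?_ ?_ ?_ <;>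
            simp [before, mn, bl]
        · refine od5_conf TL _ _ j hj.le (in_bl j x) (in_bl j y) ?_ ?_ ?_
          · intro h
            apply hxy
            have h' : x.val = y.val := congrArg (fun s : ItC => s.2.2.1) h
            rw [Fin.ext h']
          · simp [before, bl]
          · simp [before, bl])
  have hB := fun (j : ℕ) (hj : j ≤ TL.length) =>
    clique hk (fun s t => phi TL s t = true) (itemsL TL N).toFinset F hF hT
      (Sum.elim (cn j) (bl j))
      (by
        rintro (x | x)
        · exact mem_cn j hj x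
        · exact mem_bl j hj x)
      (by
        rintro (x | x) (y | y) hxy
        · refine od5_conf TL _ _ j hj (in_cn j x) (in_cn j y) ?_ ?_ ?_
          · intro h
            apply hxy
            have h' : x.val = y.val := congrArg (fun s : ItC => s.2.2.1) h
            rw [Fin.ext h']
          · simp [before, cn]
          · simp [before, cn]
        · refine od5_conf TL _ _ j hj (in_cn j x) (in_bl j y) ?_ ?_ ?_ <;>
            simp [before, cn, bl]
        · refine od5_conf TL _ _ j hj (in_bl j x) (in_cn j y) ?_ ?_ ?_ <;>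
            simp [before, cn, bl]
        · refine od5_conf TL _ _ j hj (in_bl j x) (in_bl j y) ?_ ?_ ?_
          · intro h
            apply hxy
            have h' : x.val = y.val := congrArg (fun s : ItC => s.2.2.1) h
            rw [Fin.ext h']
          · simp [before, bl]
          · simp [before, bl])
  have hC := fun (j : ℕ) (hj : j + 1 ≤ TL.length) =>
    clique hk (fun s t => phi TL s t = true) (itemsL TL N).toFinset F hF hT
      (Sum.elim (cn j) (bl (j + 1)))
      (by
        rintro (x | x)
        · exact mem_cn j (by omega) x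
        · exact mem_bl (j + 1) hj x)
      (by
        rintro (x | x) (y | y) hxy
        · refine od5_conf TL _ _ (j + 1) hj (in_cn' j x) (in_cn' j y) ?_ ?_ ?_
          · intro h
            apply hxy
            have h' : x.val = y.val := congrArg (fun s : ItC => s.2.2.1) h
            rw [Fin.ext h']
          · simp [before, cn]
          · simp [before, cn]
        · refine od5_conf TL _ _ (j + 1) hj (in_cn' j x) (in_bl (j + 1) y) ?_ ?_ ?_ <;>
            simp [before, cn, bl]
        · refine od5_conf TL _ _ (j + 1) hj (in_bl (j + 1) x) (in_cn' j y) ?_ ?_ ?_ <;>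
            simp [before, cn, bl]
        · refine od5_conf TL _ _ (j + 1) hj (in_bl (j + 1) x) (in_bl (j + 1) y) ?_ ?_ ?_
          · intro h
            apply hxy
            have h' : x.val = y.val := congrArg (fun s : ItC => s.2.2.1) h
            rw [Fin.ext h']
          · simp [before, bl]
          · simp [before, bl])
  -- the numbers
  set n : Fin k → ℕ → ℕ := fun i j => Nat.card {c : Fin N // F i (bl j c)} with hn
  set a : Fin k → ℕ → ℕ := fun i j => Nat.card {x : Fin 3 // F i (mn j x)} with ha
  set b : Fin k → ℕ → ℕ := fun i j => Nat.card {x : Fin 3 // F i (cn j x)} with hb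
  have eA : ∀ i j, j < TL.length → a i j + n i j = 2 := fun i j hj => (hA j hj).2 i
  have eB : ∀ i j, j ≤ TL.length → b i j + n i j = 2 := fun i j hj => (hB j hj).2 i
  have eC : ∀ i j, j + 1 ≤ TL.length → b i j + n i (j + 1) = 2 := fun i j hj => (hC j hj).2 i
  have en : ∀ i j, j ≤ TL.length → n i j = n i 0 := by
    intro i j
    induction j with
    | zero => intro _; rfl
    | succ j ih =>
      intro hj
      have h1 := eB i j (by omega)
      have h2 := eC i j hj
      have h3 := ih (by omega)
      omega
  have hL0 : 0 < TL.length := Nat.pos_of_ne_zero hL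
  have hsum : ∑ i, a i 0 = 3 := by
    have h1 : ∀ i, a i 0 = ∑ x : Fin 3, if F i (mn 0 x) then 1 else 0 := by
      intro i
      simp only [ha]
      rw [Nat.card_eq_fintype_card, Fintype.card_subtype, Finset.card_filter]
    rw [Finset.sum_congr rfl (fun i _ => h1 i), Finset.sum_comm]
    have h2 : ∀ x : Fin 3, (∑ i, if F i (mn 0 x) then 1 else 0) = 1 := by
      intro x
      obtain ⟨i, hi, hu⟩ := (hA 0 hL0).1 (Sum.inl x)
      rw [← Finset.card_filter, Finset.card_eq_one]
      refine ⟨i, ?_⟩
      ext i'
      simp only [Finset.mem_filter, Finset.mem_univ, true_and, Finset.mem_singleton]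
      constructor
      · intro h; exact hu i' h
      · rintro rfl; exact hi
    rw [Finset.sum_congr rfl (fun x _ => h2 x)]
    simp
  obtain ⟨i, hi⟩ : ∃ i, a i 0 = 1 := by
    by_contra hno
    push Not at hno
    have heven : ∀ i, a i 0 = 2 * (a i 0 / 2) := by
      intro i
      have h1 := eA i 0 hL0
      have h2 := hno i
      omega
    have h3 : ∑ i, a i 0 = 2 * ∑ i, (a i 0 / 2) := by
      rw [Finset.mul_sum]
      exact Finset.sum_congr rfl (fun i _ => heven i)
    omega
  have hn1 : n i 0 = 1 := by have := eA i 0 hL0; omega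
  refine ⟨fun u => decide (F i (0, 0, 0, u)), fun T hTm => ?_⟩
  obtain ⟨j, hj, rfl⟩ := List.mem_iff_getElem.mp hTm
  have hje : tri TL j = TL[j] := by
    unfold tri
    rw [List.getD_eq_getElem _ _ hj]
  have haj : a i j = 1 := by
    have h1 := eA i j hj
    have h2 := en i j hj.le
    omega
  simp only [ha] at haj
  rw [od5_card] at haj
  unfold ExOne
  rw [← hje]
  exact haj

end Pool.Agent.LibOpc
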