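import Pool.Agent.LibOpc.ODefs

set_option autoImplicit false

/-!
The chains which cover the relation `phi`.
-/

namespace Pool.Agent.LibOpc

/-- the set of the nodes to which an item is linked -/
def Pset (TL : List (Mn × Mn × Mn)) (s : ItC) : Finset ℕ :=
  (Finset.range (TL.length + 1)).filter fun j => inP TL j s = true

/-- lower key of an item in the main chain `m`, `χ` being a colouring of the main items -/
def mphi (TL : List (Mn × Mn × Mn)) (χ : Mn → ℕ) (m : ℕ) (s : ItC) : ℕ :=
  if s.1 = 0 then (if χ s.2.2.2 = m then 2 else 4)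
  else if s.1 = 1 then 10 * (s.2.1 + 1) + (if s.2.2.1 = m then 2 else 4)
  else 10 * (TL.length + 10)

/-- upper key of an item in the main chain `m` -/
def mpsi (χ : Mn → ℕ) (m : ℕ) (s : ItC) : ℕ :=
  if s.1 = 0 then (if χ s.2.2.2 = m then 3 else 1)
  else if s.1 = 1 then 10 * (s.2.1 + 1) + (if s.2.2.1 = m then 3 else 1)
  else 0

/-- lower key of an item in the extra chain `c`, with the order `π` of the nodes -/
def xphi (TL : List (Mn × Mn × Mn)) (π : ℕ → ℕ) (c : ℕ) (s : ItC) : ℕ :=
  if 2 ≤ s.1 ∧ s.2.2.1 = c then 4 * π s.2.1 + 1 else 4 * (Pset TL s).sup π + 3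

/-- upper key of an item in the extra chain `c`; it is `4 * (minimum of π on the nodes)` -/
def xpsi (TL : List (Mn × Mn × Mn)) (π : ℕ → ℕ) (c : ℕ) (s : ItC) : ℕ :=
  if 2 ≤ s.1 ∧ s.2.2.1 = c then 4 * π s.2.1 + 2
  else if h : (Pset TL s).Nonempty then 4 * (Pset TL s).inf' h π else 0

end Pool.Agent.LibOpc
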