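import Pool.Agent.LibPcg.PDefs

set_option autoImplicit false

/-!
Definitions for the recognition problem of `k`-OR-PCGs (problem MP_dff376_lc, part (a)):
OR-PCGs, the composite graph, the bipartite relation made from a list of triples, the list of
triples made from a formula.
-/

namespace Pool.Agent.LibOpc

open SimpleGraph Pool.Agent.LibPcg

/-- `G` is a `k`-OR-PCG. -/
def IsOrPCG {V : Type} (k : ℕ) (G : SimpleGraph V) : Prop :=
  ∃ (D : Fin k → WTree V) (I : Fin k → Set ℝ), (∀ i, IsInterval (I i)) ∧
    ∀ u v, G.Adj u v ↔ u ≠ v ∧ ∃ i, ∃ t ∈ I i, (D i).Dist u v t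

/-- the graph is bipartite -/
def Bip {V : Type} (G : SimpleGraph V) : Prop := ∃ s : V → Bool, ∀ u v, G.Adj u v → s u ≠ s v

/-! ### The composite graph -/

/-- the relation between (position, item) and (position, item) -/
def CRel {D : ℕ} {I : Type} (Φ : I → I → Prop) (p : Fin D → ℕ) (s : I) (q : Fin D → ℕ) (t : I) :
    Prop :=
  (∃ c, p c < q c) ∨ (p = q ∧ Φ s t)

/-- `G` is the composite graph of the grid `{0, ..., M - 1} ^ D` and the relation `Φ` on the set
`S` of items: every vertex has a side, a position and an item. (Several vertices may have the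
same data.) -/
structure Comp (D M : ℕ) {I : Type} (Φ : I → I → Prop) (S : Finset I) {V : Type}
    (G : SimpleGraph V) where
  /-- the side of a vertex -/
  side : V → Bool
  /-- the position of a vertex -/
  pos : V → Fin D → ℕ
  /-- the item of a vertex -/
  item : V → I
  item_mem : ∀ v, item v ∈ S
  pos_lt : ∀ v c, pos v c < M
  surj : ∀ (b : Bool) (p : Fin D → ℕ), (∀ c, p c < M) → ∀ s ∈ S,
    ∃ v, side v = b ∧ pos v = p ∧ item v = s
  adj : ∀ u v, G.Adj u v ↔
    (side u = true ∧ side v = false ∧ CRel Φ (pos u) (item u) (pos v) (item v)) ∨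
    (side u = false ∧ side v = true ∧ CRel Φ (pos v) (item v) (pos u) (item u))

/-- two items are in conflict -/
def Conf {I : Type} (Φ : I → I → Prop) (s t : I) : Prop := s ≠ t ∧ ¬ Φ s t ∧ ¬ Φ t s

/-- the edge between `u` and `v` is in the layer with distance function `d`, thresholds `a`, `b` -/
def Mid {V : Type} (d : V → V → ℝ) (a b : ℝ) (u v : V) : Prop := a ≤ d u v ∧ d u v < b

open Classical in
/-- the class of a pair of vertices in a layer: near (`0`), in the layer (`1`), far (`2`) -/
noncomputable def cls3 {V : Type} (d : V → V → ℝ) (a b : ℝ) (u v : V) : Fin 3 :=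
  if Mid d a b u v then 1 else if d u v < a then 0 else 2

/-! ### Triples -/

/-- codes of the main items -/
abbrev Mn : Type := ℕ × ℕ × ℕ × ℕ

/-- codes of the items: kind (`0`: main item, `1`: connecting item, `2`: blocker), number of the
node, number of the item at this node, main item -/
abbrev ItC : Type := ℕ × ℕ × ℕ × Mn

instance instDecItC : DecidableEq ItC := instDecidableEqProd

/-- the main item `u` belongs to the triple `T` -/
def inT (T : Mn × Mn × Mn) (u : Mn) : Bool :=
  decide (u = T.1) || (decide (u = T.2.1) || decide (u = T.2.2))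

/-- the triple number `j` -/
def tri (TL : List (Mn × Mn × Mn)) (j : ℕ) : Mn × Mn × Mn :=
  TL.getD j ((0, 0, 0, 0), (0, 0, 0, 0), (0, 0, 0, 0))

/-- the item `s` is linked to the node `j` -/
def inP (TL : List (Mn × Mn × Mn)) (j : ℕ) (s : ItC) : Bool :=
  (decide (s.1 = 0) && (decide (j < TL.length) && inT (tri TL j) s.2.2.2)) ||
  ((decide (s.1 = 1) && (decide (j = s.2.1) || decide (j = s.2.1 + 1))) ||
  (decide (2 ≤ s.1) && decide (j = s.2.1)))

/-- the items `s` and `t` are linked to a common node -/
def share (TL : List (Mn × Mn × Mn)) (s t : ItC) : Bool :=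
  (List.range (TL.length + 1)).any fun j => inP TL j s && inP TL j t

/-- `s` and `t` are not blockers, and `s` comes before `t` -/
def before (s t : ItC) : Bool :=
  (decide (s.1 = 0) && decide (t.1 = 1)) ||
  (decide (s.1 = 1) && (decide (t.1 = 1) && decide (s.2.1 < t.2.1)))

/-- the relation between the items -/
def phi (TL : List (Mn × Mn × Mn)) (s t : ItC) : Bool :=
  decide (s = t) || (!(share TL s t) || before s t)

/-- the list of the items, `N` being the number of the blockers at each node -/
def itemsL (TL : List (Mn × Mn × Mn)) (N : ℕ) : List ItC :=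
  (TL.flatMap fun T => [(0, 0, 0, T.1), (0, 0, 0, T.2.1), (0, 0, 0, T.2.2)]) ++
  (((List.range (TL.length + 1)).flatMap fun j =>
    (List.range 3).map fun m => (1, j, m, (0, 0, 0, 0))) ++
  ((List.range (TL.length + 1)).flatMap fun j =>
    (List.range N).map fun c => (2, j, c, (0, 0, 0, 0))))

/-- the number of the triples which contain the main item `u` -/
def occ (TL : List (Mn × Mn × Mn)) (u : Mn) : ℕ :=
  ((List.range TL.length).filter fun j => inT (tri TL j) u).length

/-- exactly one of the three values is true -/
def ExOne (a b c : Bool) : Prop := a.toNat + b.toNat + c.toNat = 1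

/-! ### From formulas to triples -/

/-- the digit number `l` of `x` in base `3` -/
def dg (x l : ℕ) : ℕ := x / 3 ^ l % 3

/-- the number below `81` with the given digits -/
def mk4 (a b c d : ℕ) : ℕ := a + 3 * b + 9 * c + 27 * d

/-- adds `k` times the vector `δ` (with entries `1`, `2`, from the bits of `δ`) to the vector `x` -/
def shift (x δ k : ℕ) : ℕ :=
  mk4 ((dg x 0 + k * (δ % 2 + 1)) % 3) ((dg x 1 + k * (δ / 2 % 2 + 1)) % 3)
    ((dg x 2 + k * (δ / 4 % 2 + 1)) % 3) ((dg x 3 + k * (δ / 8 % 2 + 1)) % 3)

/-- the triples of a cell -/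
def CT : List (ℕ × ℕ × ℕ) :=
  (List.range 81).flatMap fun x => (List.range 16).map fun δ => (x, shift x δ 1, shift x δ 2)

/-- The labels are `(b, s)` with number `b + 2 * s`. The vector of the pair `a = a₀ + 3 * a₁`
pulled back along `s`. -/
def inc (a : ℕ) : ℕ := mk4 (dg a 0) (dg a 0) (dg a 1) (dg a 1)

/-- the vector of the pair `a` pulled back along `b` -/
def varc (a : ℕ) : ℕ := mk4 (dg a 0) (dg a 1) (dg a 0) (dg a 1)

/-- the constant vector -/
def conc (c : ℕ) : ℕ := mk4 c c c c

/-- the vector of the pair `a` pulled back along `(b, s) ↦ s ∨ w b` -/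
def outc (w0 w1 : Bool) (a : ℕ) : ℕ :=
  mk4 (if w0 then dg a 1 else dg a 0) (if w1 then dg a 1 else dg a 0) (dg a 1) (dg a 1)

/-- the pairs of vectors which are identified on the way from a cell to the next variable -/
def HP (w0 w1 : Bool) : List (ℕ × ℕ × ℕ) :=
  (List.range 9).map fun a => (outc w0 w1 a, inc a, a)

/-- the pairs of vectors which are identified on the way from a cell to the next clause -/
def VP : List (ℕ × ℕ × ℕ) := (List.range 9).map fun a => (varc a, varc a, a)

/-- the pairs of vectors which are identified at the start (clause not satisfied) -/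
def SP : List (ℕ × ℕ × ℕ) := (List.range 9).map fun a => (inc a, conc (dg a 0), a)

/-- the pairs of vectors which are identified at the end (clause satisfied) -/
def EP : List (ℕ × ℕ × ℕ) := (List.range 9).map fun a => (inc a, conc (dg a 1), a)

/-- The triples which force the main items `(0, i, j, x)` and `(0, i', j', y)` to have the same
colour, for all `(x, y, a)` in the list. -/
def linkL (tag i j i' j' : ℕ) (ps : List (ℕ × ℕ × ℕ)) : List (Mn × Mn × Mn) :=
  ps.flatMap fun p =>
    [((0, i, j, p.1), (tag, i, j, 2 * p.2.2), (tag, i, j, 2 * p.2.2 + 1)),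
      ((0, i', j', p.2.1), (tag, i, j, 2 * p.2.2), (tag, i, j, 2 * p.2.2 + 1))]

/-- the variable number `i` in the formula -/
def vr {V : Type} (φ : List (List (V × Bool))) (i : ℕ) : Option V :=
  (φ.flatten.map fun l => some l.1).getD i none

/-- the variable number `i` does not occur before -/
def isFirst {V : Type} [DecidableEq V] (φ : List (List (V × Bool))) (i : ℕ) : Bool :=
  !(List.range i).any fun i' => decide (vr φ i' = vr φ i)

/-- the clause number `j` is satisfied if the variable number `i` has the value `b` (only for the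
first occurrence of the variable) -/
def satb {V : Type} [DecidableEq V] (φ : List (List (V × Bool))) (i j : ℕ) (b : Bool) : Bool :=
  isFirst φ i && (φ.getD j []).any fun l => decide (some l.1 = vr φ i) && decide (l.2 = b)

/-- the triples of the cell `(i, j)` -/
def cellT {V : Type} [DecidableEq V] (φ : List (List (V × Bool))) (i j : ℕ) :
    List (Mn × Mn × Mn) :=
  (CT.map fun t => ((0, i, j, t.1), (0, i, j, t.2.1), (0, i, j, t.2.2))) ++
  (linkL 1 i j (i + 1) j (HP (satb φ i j false) (satb φ i j true)) ++
  (linkL 2 i j i (j + 1) VP ++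
  ((if i = 0 then linkL 3 i j i j SP else []) ++
  (if i = φ.flatten.length + 1 then linkL 4 i j i j EP else []))))

/-- the list of the triples of a formula -/
def TLof {V : Type} [DecidableEq V] (φ : List (List (V × Bool))) : List (Mn × Mn × Mn) :=
  (List.range (φ.flatten.length + 2)).flatMap fun i =>
    (List.range φ.length).flatMap fun j => cellT φ i j

/-- a bound for the number of triples which contain a given main item -/
def r0 : ℕ := 10000

/-- the colouring is a rainbow colouring of all triples -/
def Rainbow (TL : List (Mn × Mn × Mn)) (χ : Mn → ℕ) : Prop :=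
  ∀ T ∈ TL, (χ T.1 < 3 ∧ χ T.2.1 < 3 ∧ χ T.2.2 < 3) ∧
    χ T.1 ≠ χ T.2.1 ∧ χ T.1 ≠ χ T.2.2 ∧ χ T.2.1 ≠ χ T.2.2

/-! ### The output graph -/

/-- all positions -/
def posL : ℕ → ℕ → List (List ℕ)
  | 0, _ => [[]]
  | D + 1, M => (posL D M).flatMap fun p => (List.range M).map fun a => a :: p

/-- codes of the vertices of the output graph: side, position, item -/
abbrev Vc : Type := Bool × List ℕ × ItC

/-- the composite relation on codes -/
def crel (D : ℕ) (TL : List (Mn × Mn × Mn)) (x y : List ℕ × ItC) : Bool :=
  ((List.range D).any fun c => decide (x.1.getD c 0 < y.1.getD c 0)) ||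
  (decide (x.1 = y.1) && phi TL x.2 y.2)

/-- adjacency on codes -/
def gadj (D : ℕ) (TL : List (Mn × Mn × Mn)) (x y : Vc) : Bool :=
  (x.1 && (!y.1 && crel D TL x.2 y.2)) || (!x.1 && (y.1 && crel D TL y.2 x.2))

/-- the size of the grid; `e` is a constant exponent -/
def gM (k e : ℕ) (TL : List (Mn × Mn × Mn)) : ℕ :=
  (k * (itemsL TL (2 * k - 3)).length ^ 3 + 2) ^ e

/-- the vertices of the output graph -/
def outV (k e : ℕ) (TL : List (Mn × Mn × Mn)) : List Vc :=
  [true, false].flatMap fun s => (posL (2 * k) (gM k e TL)).flatMap fun p =>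
    (itemsL TL (2 * k - 3)).map fun t => (s, p, t)

/-- the output graph -/
def outG (k e : ℕ) (TL : List (Mn × Mn × Mn)) : SimpleGraph (Fin (outV k e TL).length) where
  Adj i j := gadj (2 * k) TL (outV k e TL)[i] (outV k e TL)[j] = true
  symm := ⟨fun i j h => by
    have key : ∀ x y : Vc, gadj (2 * k) TL x y = gadj (2 * k) TL y x := by
      rintro ⟨a, x⟩ ⟨b, y⟩
      unfold gadj
      cases a <;> cases b <;> simp
    rw [key]; exact h⟩
  loopless := ⟨fun i h => by
    generalize (outV k e TL)[i] = x at h
    obtain ⟨a, x⟩ := x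
    cases a <;> simp [gadj] at h⟩

end Pool.Agent.LibOpc
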