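import Pool.Agent.LibOpc.ODefs

set_option autoImplicit false

/-!
Row OE1. The dictator lemma.
Sketch. Let `F x : ℤ` be `1` if `f x`, else `0`. Then `F x + F y + F z = 1` whenever in every
coordinate `x l, y l, z l` are three different elements of `ZMod 3` (take `δ = y - x`; then
`z = x + 2 • δ`, check by `decide` in `ZMod 3`). Let `x, y, z` be such a triple; exchange the
coordinate `i` of `x` and `y` (`Function.update`); the new triple is also of this kind, with the
same `z`. So `F (update u i a) - F (update u i b) = F (update v i a) - F (update v i b)` for all
`a b` and all `u v` which are different in all coordinates except possibly `i` (if `a = b` it is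
trivial; if `a ≠ b` put `x = update u i a`, `y = update v i b`, `z` the third point). For arbitrary
`u`, `v` there is `w` different from both in every coordinate, so this difference does not depend
on `u` at all. Say that `i` is active if for some `a, b` the difference is not `0`; then for some
`a, b` the difference is `1` for all `u` (values in `{0, 1}`, exchange `a` and `b`).
Two active coordinates `i ≠ i'`: `F (u; a, a') - F (u; b, b') = 2`, impossible. No active
coordinate: `F` is constant (change the coordinates one at a time, e.g. induction on a finset of
coordinates where `x` and `y` may differ), and `3 F = 1`, impossible. So there is exactly one active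
coordinate `l`, and `F x` depends only on `x l`; with `x = fun _ => a`, `δ = 1` exactly one of the
three values of `x l` gives `1`.
-/

namespace Pool.Agent.LibOpc

private theorem oe1_z : ∀ a b : ZMod 3, a ≠ b → a + (b - a) + (b - a) = -a - b := by decide

private theorem oe1_third : ∀ a b : ZMod 3, ∃ c, c ≠ a ∧ c ≠ b := by decide

private theorem oe1_cases : ∀ a : ZMod 3, a = 0 ∨ a = 1 ∨ a = 2 := by decide

theorem dictator (N : ℕ) (f : (Fin N → ZMod 3) → Bool)
    (h : ∀ x δ : Fin N → ZMod 3, (∀ l, δ l ≠ 0) → ExOne (f x) (f (x + δ)) (f (x + δ + δ))) :
    ∃ (l : Fin N) (c : ZMod 3), ∀ x, f x = decide (x l = c) := by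
  classical
  let F : (Fin N → ZMod 3) → ℤ := fun x => ((f x).toNat : ℤ)
  have hF01 : ∀ x, F x = 0 ∨ F x = 1 := by
    intro x
    change ((f x).toNat : ℤ) = 0 ∨ ((f x).toNat : ℤ) = 1
    cases f x <;> simp
  have hsum : ∀ x y : Fin N → ZMod 3, (∀ l, x l ≠ y l) →
      F x + F y + F (fun l => -(x l) - (y l)) = 1 := by
    intro x y hxy
    have h1 := h x (y - x) (fun l => by
      rw [Pi.sub_apply]
      exact sub_ne_zero.mpr (hxy l).symm)
    have e1 : x + (y - x) = y := by abel
    have e2 : x + (y - x) + (y - x) = fun l => -(x l) - (y l) := by
      funext l
      simp only [Pi.add_apply, Pi.sub_apply]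
      exact oe1_z _ _ (hxy l)
    rw [e2, e1] at h1
    unfold ExOne at h1
    change ((f x).toNat : ℤ) + ((f y).toNat : ℤ) + ((f (fun l => -(x l) - (y l))).toNat : ℤ) = 1
    exact_mod_cast h1
  -- exchange
  have hex : ∀ (i : Fin N) (u v : Fin N → ZMod 3) (a b : ZMod 3), (∀ l, l ≠ i → u l ≠ v l) →
      F (Function.update u i a) - F (Function.update u i b) =
      F (Function.update v i a) - F (Function.update v i b) := by
    intro i u v a b huv
    by_cases hab : a = b
    · rw [hab]; ring
    · have h1 := hsum (Function.update u i a) (Function.update v i b) (by
        intro l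
        by_cases hl : l = i
        · subst hl; simpa using hab
        · simpa [Function.update_of_ne hl] using huv l hl)
      have h2 := hsum (Function.update u i b) (Function.update v i a) (by
        intro l
        by_cases hl : l = i
        · subst hl; simpa using fun h' => hab h'.symm
        · simpa [Function.update_of_ne hl] using huv l hl)
      have e : (fun l => -(Function.update u i a l) - (Function.update v i b l)) =
          (fun l => -(Function.update u i b l) - (Function.update v i a l)) := by
        funext l
        by_cases hl : l = i
        · subst hl; simp only [Function.update_self]; ring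
        · simp only [Function.update_of_ne hl]
      rw [e] at h1
      linarith
  have hind : ∀ (i : Fin N) (u v : Fin N → ZMod 3) (a b : ZMod 3),
      F (Function.update u i a) - F (Function.update u i b) =
      F (Function.update v i a) - F (Function.update v i b) := by
    intro i u v a b
    choose w hw using fun l => oe1_third (u l) (v l)
    rw [hex i u w a b (fun l _ => (hw l).1.symm), hex i w v a b (fun l _ => (hw l).2)]
  -- active coordinates
  by_cases hact : ∃ i, ∃ u a b, F (Function.update u i a) - F (Function.update u i b) ≠ 0
  · obtain ⟨i, u₀, a₀, b₀, hne⟩ := hact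
    have hone : ∀ (i : Fin N) (u : Fin N → ZMod 3) (a b : ZMod 3),
        F (Function.update u i a) - F (Function.update u i b) ≠ 0 →
        ∃ a b, ∀ v, F (Function.update v i a) - F (Function.update v i b) = 1 := by
      intro i u a b hne
      rcases hF01 (Function.update u i a) with h1 | h1 <;>
        rcases hF01 (Function.update u i b) with h2 | h2
      · exact absurd (by rw [h1, h2]; ring) hne
      · exact ⟨b, a, fun v => by rw [hind i v u b a, h1, h2]; ring⟩
      · exact ⟨a, b, fun v => by rw [hind i v u a b, h1, h2]; ring⟩
      · exact absurd (by rw [h1, h2]; ring) hne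
    obtain ⟨a, b, hab⟩ := hone i u₀ a₀ b₀ hne
    have hinact : ∀ j, j ≠ i → ∀ (u : Fin N → ZMod 3) (c d : ZMod 3),
        F (Function.update u j c) = F (Function.update u j d) := by
      intro j hj u c d
      by_contra hcd
      obtain ⟨c', d', hcd'⟩ := hone j u c d (sub_ne_zero.mpr hcd)
      have h1 := hab (Function.update u j c')
      have h2 := hcd' (Function.update u i b)
      rw [← Function.update_comm hj c' b u] at h2
      rcases hF01 (Function.update (Function.update u j c') i a) with k1 | k1 <;>
        rcases hF01 (Function.update (Function.update u j c') i b) with k2 | k2 <;>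
        rcases hF01 (Function.update (Function.update u i b) j d') with k3 | k3 <;>
        simp only [k1, k2, k3] at h1 h2 <;> omega
    have hdep : ∀ (s : Finset (Fin N)), i ∉ s → ∀ x y : Fin N → ZMod 3,
        (∀ l, l ∉ s → x l = y l) → F x = F y := by
      intro s
      induction s using Finset.induction_on with
      | empty =>
        intro _ x y hxy
        have : x = y := funext (fun l => hxy l (Finset.notMem_empty l))
        rw [this]
      | insert j s hjs ih =>
        intro hi x y hxy
        have hji : j ≠ i := fun h' => hi (by rw [h']; exact Finset.mem_insert_self _ _)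
        have his : i ∉ s := fun h' => hi (Finset.mem_insert_of_mem h')
        have h1 := hinact j hji x (x j) (y j)
        rw [Function.update_eq_self] at h1
        rw [h1]
        apply ih his
        intro l hl
        by_cases hlj : l = j
        · subst hlj; simp
        · rw [Function.update_of_ne hlj]
          exact hxy l (by simp [hlj, hl])
    have hconst : ∀ x, F x = F (fun _ => x i) := by
      intro x
      apply hdep (Finset.univ.erase i) (by simp)
      intro l hl
      have : l = i := by
        by_contra h'
        exact hl (by simp [h'])
      rw [this]
    have hfconst : ∀ x, f x = f (fun _ => x i) := by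
      intro x
      have h1 := hconst x
      change ((f x).toNat : ℤ) = ((f (fun _ => x i)).toNat : ℤ) at h1
      have h2 : (f x).toNat = (f (fun _ => x i)).toNat := by exact_mod_cast h1
      revert h2
      cases f x <;> cases f (fun _ => x i) <;> simp
    set g : ZMod 3 → Bool := fun a => f (fun _ => a) with hg
    have hex3 := h (fun _ => 0) (fun _ => 1) (fun l => by decide)
    have e1 : ((fun _ => 0 : Fin N → ZMod 3) + fun _ => 1) = fun _ => 1 := by
      funext l; simp
    have e2 : ((fun _ => 1 : Fin N → ZMod 3) + fun _ => 1) = fun _ => 2 := by
      funext l; simp only [Pi.add_apply]; decide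
    rw [e1, e2] at hex3
    change ExOne (g 0) (g 1) (g 2) at hex3
    unfold ExOne at hex3
    have hgc : ∃ c, ∀ a, g a = decide (a = c) := by
      cases h0 : g 0 <;> cases h1 : g 1 <;> cases h2 : g 2 <;>
        simp only [h0, h1, h2] at hex3 <;> first
        | (exfalso; revert hex3; decide)
        | (refine ⟨0, fun a => ?_⟩
           rcases oe1_cases a with rfl | rfl | rfl <;>
             first | (rw [h0]; decide) | (rw [h1]; decide) | (rw [h2]; decide))
        | (refine ⟨1, fun a => ?_⟩
           rcases oe1_cases a with rfl | rfl | rfl <;>
             first | (rw [h0]; decide) | (rw [h1]; decide) | (rw [h2]; decide))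
        | (refine ⟨2, fun a => ?_⟩
           rcases oe1_cases a with rfl | rfl | rfl <;>
             first | (rw [h0]; decide) | (rw [h1]; decide) | (rw [h2]; decide))
    obtain ⟨c, hc⟩ := hgc
    exact ⟨i, c, fun x => by rw [hfconst x]; exact hc (x i)⟩
  · exfalso
    push Not at hact
    have hdep : ∀ (s : Finset (Fin N)), ∀ x y : Fin N → ZMod 3,
        (∀ l, l ∉ s → x l = y l) → F x = F y := by
      intro s
      induction s using Finset.induction_on with
      | empty =>
        intro x y hxy
        have : x = y := funext (fun l => hxy l (Finset.notMem_empty l))
        rw [this]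
      | insert j s hjs ih =>
        intro x y hxy
        have h1 := hact j x (x j) (y j)
        rw [Function.update_eq_self, sub_eq_zero] at h1
        rw [h1]
        apply ih
        intro l hl
        by_cases hlj : l = j
        · subst hlj; simp
        · rw [Function.update_of_ne hlj]
          exact hxy l (by simp [hlj, hl])
    have hc : ∀ x y, F x = F y := fun x y => hdep Finset.univ x y (fun l hl => absurd (Finset.mem_univ l) hl)
    have h1 := hsum (fun _ => 0) (fun _ => 1) (fun l => by decide)
    have h2 := hc (fun _ => 1) (fun _ => 0)
    have h3 := hc (fun l => -((fun _ => 0 : Fin N → ZMod 3) l) - ((fun _ => 1 : Fin N → ZMod 3) l))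
      (fun _ => 0)
    rw [h2, h3] at h1
    omega

end Pool.Agent.LibOpc
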