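import Pool.Agent.LibOpc.OE1

set_option autoImplicit false

/-!
Row OE2. The dictator lemma for codes.
Sketch. `dg_mk4`: the digits of `mk4 a b c d` for `a, b, c, d < 3` (`interval_cases`, `decide`, or
`omega`). `mk4_dg`: every `x < 81` is `mk4` of its digits.
`dictator_code`: let `enc x = mk4 (x 0).val (x 1).val (x 2).val (x 3).val` for
`x : Fin 4 → ZMod 3`, and apply `dictator 4` to `fun x => f (enc x)`. For `δ` with all `δ l ≠ 0` let
`t = ((δ 0).val - 1) + 2 * ((δ 1).val - 1) + 4 * ((δ 2).val - 1) + 8 * ((δ 3).val - 1) < 16`;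
then `shift (enc x) t 1 = enc (x + δ)`, `shift (enc x) t 2 = enc (x + δ + δ)` and
`(enc x, shift (enc x) t 1, shift (enc x) t 2) ∈ CT`. (`decide` on all values of the eight numbers
is possible with `decide +kernel`, but a proof digit by digit is short: `ZMod.val_add`,
`dg_mk4`.) For `x < 81` use the vector `fun l => (dg x l : ZMod 3)`, `enc` of it is `x`; `c`: its
value `c.val`.
-/

namespace Pool.Agent.LibOpc

theorem dg_mk4 (a b c d : ℕ) (ha : a < 3) (hb : b < 3) (hc : c < 3) (hd : d < 3) :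
    dg (mk4 a b c d) 0 = a ∧ dg (mk4 a b c d) 1 = b ∧ dg (mk4 a b c d) 2 = c ∧
      dg (mk4 a b c d) 3 = d := by
  unfold dg mk4
  norm_num
  omega

theorem mk4_dg (x : ℕ) (hx : x < 81) : mk4 (dg x 0) (dg x 1) (dg x 2) (dg x 3) = x := by
  unfold dg mk4
  norm_num
  omega

private def enc (x : Fin 4 → ZMod 3) : ℕ := mk4 (x 0).val (x 1).val (x 2).val (x 3).val

private theorem enc_lt (x : Fin 4 → ZMod 3) : enc x < 81 := by
  have h0 := ZMod.val_lt (x 0)
  have h1 := ZMod.val_lt (x 1)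
  have h2 := ZMod.val_lt (x 2)
  have h3 := ZMod.val_lt (x 3)
  unfold enc mk4
  omega

private theorem val_one_two (a : ZMod 3) (ha : a ≠ 0) : 1 ≤ a.val ∧ a.val ≤ 2 := by
  have h0 := ZMod.val_lt a
  have h1 : a.val ≠ 0 := by
    rw [Ne, ZMod.val_eq_zero]
    exact ha
  omega

private theorem val_add3 (a b : ZMod 3) : (a + b).val = (a.val + b.val) % 3 := ZMod.val_add a b

private theorem shift_enc (x δ : Fin 4 → ZMod 3) (hδ : ∀ l, δ l ≠ 0) (t : ℕ)
    (ht : t = ((δ 0).val - 1) + 2 * ((δ 1).val - 1) + 4 * ((δ 2).val - 1) +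
      8 * ((δ 3).val - 1)) :
    shift (enc x) t 1 = enc (x + δ) ∧ shift (enc x) t 2 = enc (x + δ + δ) := by
  have h0 := val_one_two _ (hδ 0)
  have h1 := val_one_two _ (hδ 1)
  have h2 := val_one_two _ (hδ 2)
  have h3 := val_one_two _ (hδ 3)
  have e0 : t % 2 + 1 = (δ 0).val := by omega
  have e1 : t / 2 % 2 + 1 = (δ 1).val := by omega
  have e2 : t / 4 % 2 + 1 = (δ 2).val := by omega
  have e3 : t / 8 % 2 + 1 = (δ 3).val := by omega
  obtain ⟨d0, d1, d2, d3⟩ := dg_mk4 (x 0).val (x 1).val (x 2).val (x 3).val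
    (ZMod.val_lt _) (ZMod.val_lt _) (ZMod.val_lt _) (ZMod.val_lt _)
  constructor
  · unfold shift enc
    rw [d0, d1, d2, d3, e0, e1, e2, e3]
    simp only [one_mul, Pi.add_apply, val_add3]
  · unfold shift enc
    rw [d0, d1, d2, d3, e0, e1, e2, e3]
    simp only [Pi.add_apply, val_add3]
    congr 1 <;> omega

private theorem mem_CT (x t : ℕ) (hx : x < 81) (ht : t < 16) :
    (x, shift x t 1, shift x t 2) ∈ CT := by
  unfold CT
  rw [List.mem_flatMap]
  refine ⟨x, List.mem_range.mpr hx, ?_⟩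
  rw [List.mem_map]
  exact ⟨t, List.mem_range.mpr ht, rfl⟩

private theorem dg_lt3 (x l : ℕ) : dg x l < 3 := Nat.mod_lt _ (by norm_num)

private theorem enc_dg (x : ℕ) (hx : x < 81) :
    enc (fun l : Fin 4 => ((dg x l : ℕ) : ZMod 3)) = x := by
  have hv : ∀ l : ℕ, ((dg x l : ℕ) : ZMod 3).val = dg x l := fun l => by
    rw [ZMod.val_natCast, Nat.mod_eq_of_lt (dg_lt3 x l)]
  unfold enc
  simp only [hv]
  exact mk4_dg x hx

theorem dictator_code (f : ℕ → Bool)
    (h : ∀ t ∈ CT, ExOne (f t.1) (f t.2.1) (f t.2.2)) :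
    ∃ l < 4, ∃ c < 3, ∀ x < 81, f x = decide (dg x l = c) := by
  obtain ⟨l, c, hl⟩ := dictator 4 (fun x => f (enc x)) (by
    intro x δ hδ
    obtain ⟨t, ht⟩ : ∃ t : ℕ, t = ((δ 0).val - 1) + 2 * ((δ 1).val - 1) + 4 * ((δ 2).val - 1) +
      8 * ((δ 3).val - 1) := ⟨_, rfl⟩
    have h0 := val_one_two _ (hδ 0)
    have h1 := val_one_two _ (hδ 1)
    have h2 := val_one_two _ (hδ 2)
    have h3 := val_one_two _ (hδ 3)
    obtain ⟨s1, s2⟩ := shift_enc x δ hδ t ht
    have h4 := h _ (mem_CT (enc x) t (enc_lt x) (by omega))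
    rw [s1, s2] at h4
    exact h4)
  refine ⟨l.val, l.isLt, c.val, ZMod.val_lt c, fun x hx => ?_⟩
  have h5 := hl (fun l : Fin 4 => ((dg x l : ℕ) : ZMod 3))
  simp only [enc_dg x hx] at h5
  rw [h5, decide_eq_decide]
  constructor
  · intro h6
    rw [← h6, ZMod.val_natCast, Nat.mod_eq_of_lt (dg_lt3 x l)]
  · intro h6
    rw [h6, ZMod.natCast_zmod_val]

end Pool.Agent.LibOpc
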