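import Pool.Agent.LibOpc.ODefs

set_option autoImplicit false

/-!
Row OE3. What the links say about the labels.
Sketch. All by finite checks. `link_eq`: cases on the four values. The others: `l, l' < 4`,
`c, c' < 3`, `w0, w1 : Bool`. Either one `decide +kernel` on a statement with `Fin 4`, `Fin 3`,
`Bool` and `∀ a : Fin 9`, or by hand: `interval_cases l`, `interval_cases l'`, `interval_cases c`,
`interval_cases c'`, and the hypothesis for `a = 0, ..., 8` (`simp`/`decide`). `link_get`: unfold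
`linkL`; the two triples are in the list, `link_eq`.
-/

namespace Pool.Agent.LibOpc

theorem link_eq {a b c d : Bool} (h1 : ExOne a c d) (h2 : ExOne b c d) : a = b := by
  unfold ExOne at h1 h2
  revert h1 h2
  revert a b c d
  decide

theorem link_get (f : Mn → Bool) (tag i j i' j' : ℕ) (ps : List (ℕ × ℕ × ℕ))
    (h : ∀ T ∈ linkL tag i j i' j' ps, ExOne (f T.1) (f T.2.1) (f T.2.2)) :
    ∀ p ∈ ps, f (0, i, j, p.1) = f (0, i', j', p.2.1) := by
  intro p hp
  have h1 := h ((0, i, j, p.1), (tag, i, j, 2 * p.2.2), (tag, i, j, 2 * p.2.2 + 1)) (by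
    unfold linkL
    rw [List.mem_flatMap]
    exact ⟨p, hp, List.mem_cons_self⟩)
  have h2 := h ((0, i', j', p.2.1), (tag, i, j, 2 * p.2.2), (tag, i, j, 2 * p.2.2 + 1)) (by
    unfold linkL
    rw [List.mem_flatMap]
    exact ⟨p, hp, List.mem_cons_of_mem _ List.mem_cons_self⟩)
  exact link_eq h1 h2

theorem lt81 (w0 w1 : Bool) (a : ℕ) : outc w0 w1 a < 81 ∧ inc a < 81 ∧ varc a < 81 ∧
    conc (dg a 0) < 81 ∧ conc (dg a 1) < 81 := by
  have h0 : dg a 0 < 3 := Nat.mod_lt _ (by norm_num)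
  have h1 : dg a 1 < 3 := Nat.mod_lt _ (by norm_num)
  unfold outc inc varc conc mk4
  refine ⟨?_, ?_, ?_, ?_, ?_⟩
  · cases w0 <;> cases w1 <;> simp only [if_true, Bool.false_eq_true, if_false] <;> omega
  · omega
  · omega
  · omega
  · omega

theorem out_in (w0 w1 : Bool) (l l' c c' : ℕ) (hl : l < 4) (hl' : l' < 4) (hc : c < 3)
    (hc' : c' < 3)
    (h : ∀ a < 9, decide (dg (outc w0 w1 a) l = c) = decide (dg (inc a) l' = c')) :
    decide (l' / 2 = 1) = (decide (l / 2 = 1) || (if l % 2 = 1 then w1 else w0)) := by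
  have key : ∀ (w0 w1 : Bool) (l l' : Fin 4) (c c' : Fin 3),
      (∀ a : Fin 9, decide (dg (outc w0 w1 a.val) l.val = c.val) =
        decide (dg (inc a.val) l'.val = c'.val)) →
      decide (l'.val / 2 = 1) =
        (decide (l.val / 2 = 1) || (if l.val % 2 = 1 then w1 else w0)) := by
    decide +kernel
  exact key w0 w1 ⟨l, hl⟩ ⟨l', hl'⟩ ⟨c, hc⟩ ⟨c', hc'⟩ fun a => h a.val a.isLt

theorem var_var (l l' c c' : ℕ) (hl : l < 4) (hl' : l' < 4) (hc : c < 3) (hc' : c' < 3)
    (h : ∀ a < 9, decide (dg (varc a) l = c) = decide (dg (varc a) l' = c')) :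
    l % 2 = l' % 2 := by
  have key : ∀ (l l' : Fin 4) (c c' : Fin 3),
      (∀ a : Fin 9, decide (dg (varc a.val) l.val = c.val) =
        decide (dg (varc a.val) l'.val = c'.val)) →
      l.val % 2 = l'.val % 2 := by
    decide +kernel
  exact key ⟨l, hl⟩ ⟨l', hl'⟩ ⟨c, hc⟩ ⟨c', hc'⟩ fun a => h a.val a.isLt

theorem in_start (l c : ℕ) (hl : l < 4) (hc : c < 3)
    (h : ∀ a < 9, decide (dg (inc a) l = c) = decide (dg (conc (dg a 0)) l = c)) :
    decide (l / 2 = 1) = false := by
  have key : ∀ (l : Fin 4) (c : Fin 3),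
      (∀ a : Fin 9, decide (dg (inc a.val) l.val = c.val) =
        decide (dg (conc (dg a.val 0)) l.val = c.val)) →
      decide (l.val / 2 = 1) = false := by
    decide +kernel
  exact key ⟨l, hl⟩ ⟨c, hc⟩ fun a => h a.val a.isLt

theorem in_end (l c : ℕ) (hl : l < 4) (hc : c < 3)
    (h : ∀ a < 9, decide (dg (inc a) l = c) = decide (dg (conc (dg a 1)) l = c)) :
    decide (l / 2 = 1) = true := by
  have key : ∀ (l : Fin 4) (c : Fin 3),
      (∀ a : Fin 9, decide (dg (inc a.val) l.val = c.val) =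
        decide (dg (conc (dg a.val 1)) l.val = c.val)) →
      decide (l.val / 2 = 1) = true := by
    decide +kernel
  exact key ⟨l, hl⟩ ⟨c, hc⟩ fun a => h a.val a.isLt

end Pool.Agent.LibOpc
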