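import Pool.Agent.LibOpc.OE2
import Pool.Agent.LibOpc.OE3

set_option autoImplicit false

/-!
Row OE4. From a 1-in-3 assignment of the triples to values of the variables and to the states.
Sketch. For `i < n + 2` (`n = φ.flatten.length`) and `j < φ.length` all triples of `cellT φ i j` are
in `TLof φ`. The first part with `dictator_code` for `fun x => f (0, i, j, x)` gives
`l i j < 4`, `c i j < 3` (choose them as total functions of `i j`). `b i := decide (l i 0 % 2 = 1)`,
`s i j := decide (l i j / 2 = 1)`. The other parts with `link_get`, `lt81`, and: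
`linkL 2` + `var_var`: `l i j % 2 = l i (j + 1) % 2` if `j + 1 < φ.length`, so by induction
`l i j % 2 = l i 0 % 2` for all `j < φ.length`; `linkL 1` + `out_in`: the recursion of `s`
(`i ≤ n`, so both `i` and `i + 1` are `< n + 2`); `linkL 3` (`i = 0`) + `in_start`;
`linkL 4` (`i = n + 1`) + `in_end`. In `HP`, `VP`, `SP`, `EP` the pairs are indexed by `a < 9`.
-/

namespace Pool.Agent.LibOpc

theorem cellT_mem {V : Type} [DecidableEq V] (φ : List (List (V × Bool))) (i j : ℕ)
    (hi : i < φ.flatten.length + 2) (hj : j < φ.length) :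
    ∀ T ∈ cellT φ i j, T ∈ TLof φ := by
  intro T hT
  unfold TLof
  exact List.mem_flatMap.2 ⟨i, List.mem_range.2 hi,
    List.mem_flatMap.2 ⟨j, List.mem_range.2 hj, hT⟩⟩

theorem cells_sound {V : Type} [DecidableEq V] (φ : List (List (V × Bool))) (f : Mn → Bool)
    (h : ∀ T ∈ TLof φ, ExOne (f T.1) (f T.2.1) (f T.2.2)) :
    ∃ (b : ℕ → Bool) (s : ℕ → ℕ → Bool), (∀ j < φ.length, s 0 j = false) ∧
      (∀ j < φ.length, s (φ.flatten.length + 1) j = true) ∧
      ∀ i ≤ φ.flatten.length, ∀ j < φ.length, s (i + 1) j = (s i j || satb φ i j (b i)) := by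
  have cell : ∀ i j, ∃ l c, i < φ.flatten.length + 2 → j < φ.length →
      l < 4 ∧ c < 3 ∧ ∀ x < 81, f (0, i, j, x) = decide (dg x l = c) := by
    intro i j
    by_cases hi : i < φ.flatten.length + 2
    · by_cases hj : j < φ.length
      · obtain ⟨l, hl, c, hc, hx⟩ := dictator_code (fun x => f (0, i, j, x)) (fun t ht =>
          h ((0, i, j, t.1), (0, i, j, t.2.1), (0, i, j, t.2.2))
            (cellT_mem φ i j hi hj _ (by
              unfold cellT
              exact List.mem_append_left _ (List.mem_map.2 ⟨t, ht, rfl⟩))))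
        exact ⟨l, c, fun _ _ => ⟨hl, hc, hx⟩⟩
      · exact ⟨0, 0, fun _ hj' => absurd hj' hj⟩
    · exact ⟨0, 0, fun hi' => absurd hi' hi⟩
  choose l c hlc using cell
  have hL1 : ∀ i < φ.flatten.length + 2, ∀ j < φ.length,
      ∀ T ∈ linkL 1 i j (i + 1) j (HP (satb φ i j false) (satb φ i j true)),
        ExOne (f T.1) (f T.2.1) (f T.2.2) := by
    intro i hi j hj T hT
    refine h T (cellT_mem φ i j hi hj T ?_)
    unfold cellT
    exact List.mem_append_right _ (List.mem_append_left _ hT)
  have hL2 : ∀ i < φ.flatten.length + 2, ∀ j < φ.length,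
      ∀ T ∈ linkL 2 i j i (j + 1) VP, ExOne (f T.1) (f T.2.1) (f T.2.2) := by
    intro i hi j hj T hT
    refine h T (cellT_mem φ i j hi hj T ?_)
    unfold cellT
    exact List.mem_append_right _ (List.mem_append_right _ (List.mem_append_left _ hT))
  have hL3 : ∀ j < φ.length,
      ∀ T ∈ linkL 3 0 j 0 j SP, ExOne (f T.1) (f T.2.1) (f T.2.2) := by
    intro j hj T hT
    refine h T (cellT_mem φ 0 j (by omega) hj T ?_)
    unfold cellT
    refine List.mem_append_right _ (List.mem_append_right _ (List.mem_append_right _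
      (List.mem_append_left _ ?_)))
    rw [if_pos rfl]
    exact hT
  have hL4 : ∀ j < φ.length,
      ∀ T ∈ linkL 4 (φ.flatten.length + 1) j (φ.flatten.length + 1) j EP,
        ExOne (f T.1) (f T.2.1) (f T.2.2) := by
    intro j hj T hT
    refine h T (cellT_mem φ (φ.flatten.length + 1) j (by omega) hj T ?_)
    unfold cellT
    refine List.mem_append_right _ (List.mem_append_right _ (List.mem_append_right _
      (List.mem_append_right _ ?_)))
    rw [if_pos rfl]
    exact hT
  have hmod : ∀ i < φ.flatten.length + 2, ∀ j < φ.length, l i j % 2 = l i 0 % 2 := by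
    intro i hi j
    induction j with
    | zero => intro _; rfl
    | succ j ih =>
      intro hj
      have hj0 : j < φ.length := by omega
      rw [← ih hj0]
      obtain ⟨h1, h2, h3⟩ := hlc i j hi hj0
      obtain ⟨h1', h2', h3'⟩ := hlc i (j + 1) hi hj
      refine (var_var (l i j) (l i (j + 1)) (c i j) (c i (j + 1)) h1 h1' h2 h2' ?_).symm
      intro a ha
      have hg := link_get f 2 i j i (j + 1) VP (hL2 i hi j hj0) (varc a, varc a, a)
        (List.mem_map.2 ⟨a, List.mem_range.2 ha, rfl⟩)
      rw [← h3 (varc a) (lt81 false false a).2.2.1, ← h3' (varc a) (lt81 false false a).2.2.1]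
      exact hg
  refine ⟨fun i => decide (l i 0 % 2 = 1), fun i j => decide (l i j / 2 = 1), ?_, ?_, ?_⟩
  · intro j hj
    obtain ⟨h1, h2, h3⟩ := hlc 0 j (by omega) hj
    refine in_start (l 0 j) (c 0 j) h1 h2 ?_
    intro a ha
    have hg := link_get f 3 0 j 0 j SP (hL3 j hj) (inc a, conc (dg a 0), a)
      (List.mem_map.2 ⟨a, List.mem_range.2 ha, rfl⟩)
    rw [← h3 (inc a) (lt81 false false a).2.1,
      ← h3 (conc (dg a 0)) (lt81 false false a).2.2.2.1]
    exact hg
  · intro j hj
    obtain ⟨h1, h2, h3⟩ := hlc (φ.flatten.length + 1) j (by omega) hj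
    refine in_end (l (φ.flatten.length + 1) j) (c (φ.flatten.length + 1) j) h1 h2 ?_
    intro a ha
    have hg := link_get f 4 (φ.flatten.length + 1) j (φ.flatten.length + 1) j EP (hL4 j hj)
      (inc a, conc (dg a 1), a) (List.mem_map.2 ⟨a, List.mem_range.2 ha, rfl⟩)
    rw [← h3 (inc a) (lt81 false false a).2.1,
      ← h3 (conc (dg a 1)) (lt81 false false a).2.2.2.2]
    exact hg
  · intro i hi j hj
    obtain ⟨h1, h2, h3⟩ := hlc i j (by omega) hj
    obtain ⟨h1', h2', h3'⟩ := hlc (i + 1) j (by omega) hj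
    have key := out_in (satb φ i j false) (satb φ i j true) (l i j) (l (i + 1) j) (c i j)
      (c (i + 1) j) h1 h1' h2 h2' (by
        intro a ha
        have hg := link_get f 1 i j (i + 1) j (HP (satb φ i j false) (satb φ i j true))
          (hL1 i (by omega) j hj)
          (outc (satb φ i j false) (satb φ i j true) a, inc a, a)
          (List.mem_map.2 ⟨a, List.mem_range.2 ha, rfl⟩)
        rw [← h3 (outc (satb φ i j false) (satb φ i j true) a) (lt81 _ _ a).1,
          ← h3' (inc a) (lt81 false false a).2.1]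
        exact hg)
    have hm := hmod i (by omega) j hj
    show decide (l (i + 1) j / 2 = 1) =
      (decide (l i j / 2 = 1) || satb φ i j (decide (l i 0 % 2 = 1)))
    rw [key]
    by_cases hb : l i j % 2 = 1
    · have hb0 : l i 0 % 2 = 1 := by omega
      rw [if_pos hb, decide_eq_true hb0]
    · have hb0 : ¬ l i 0 % 2 = 1 := by omega
      rw [if_neg hb, decide_eq_false hb0]

end Pool.Agent.LibOpc
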