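import Pool.Agent.LibOpc.ODefs

set_option autoImplicit false

/-!
Row OE5. States and satisfiability.
Sketch. `n = φ.flatten.length`. `vr φ i = some v` for some `i < n` iff `v` occurs; `vr φ i = none` for
`i ≥ n`. `sat_of_states`: let `a v := b i` for the smallest `i` with `vr φ i = some v`
(`Nat.find`, classical; arbitrary if there is none). For the clause `c = φ[j]`: `s 0 j = false`,
`s (n + 1) j = true`, so there is `i ≤ n` with `satb φ i j (b i) = true` (induction). Then
`isFirst φ i`, and some `l ∈ c` has `some l.1 = vr φ i`, `l.2 = b i`. `isFirst` says that `i` is the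
smallest index with this value, so `a l.1 = b i = l.2`.
`states_of_sat`: given `a`, let `b i := match vr φ i with | some v => a v | none => false`, and
`s 0 j = false`, `s (i + 1) j = s i j || satb φ i j (b i)` (recursion on `i`). For a clause
`c = φ[j]` let `l ∈ c` with `a l.1 = l.2`; `l ∈ φ.flatten`, so `vr φ i' = some l.1` for some `i' < n`;
let `i` be the smallest such index; then `isFirst φ i` and `satb φ i j (b i)`, `b i = a l.1 = l.2`;
so `s (i + 1) j = true`, and `s` stays true, `s (n + 1) j = true`.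
-/

namespace Pool.Agent.LibOpc

private theorem oe5_isFirst_iff {V : Type} [DecidableEq V] (φ : List (List (V × Bool))) (i : ℕ) :
    isFirst φ i = true ↔ ∀ i' < i, vr φ i' ≠ vr φ i := by
  unfold isFirst
  simp only [Bool.not_eq_true', List.any_eq_false, List.mem_range, decide_eq_true_eq]

private theorem oe5_satb_iff {V : Type} [DecidableEq V] (φ : List (List (V × Bool))) (i j : ℕ)
    (b : Bool) : satb φ i j b = true ↔
      (∀ i' < i, vr φ i' ≠ vr φ i) ∧ ∃ l ∈ φ.getD j [], some l.1 = vr φ i ∧ l.2 = b := by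
  unfold satb
  rw [Bool.and_eq_true, oe5_isFirst_iff]
  simp only [List.any_eq_true, Bool.and_eq_true, decide_eq_true_eq]

theorem sat_of_states {V : Type} [DecidableEq V] (φ : List (List (V × Bool))) (b : ℕ → Bool)
    (s : ℕ → ℕ → Bool) (h0 : ∀ j < φ.length, s 0 j = false)
    (h1 : ∀ j < φ.length, s (φ.flatten.length + 1) j = true)
    (h2 : ∀ i ≤ φ.flatten.length, ∀ j < φ.length, s (i + 1) j = (s i j || satb φ i j (b i))) :
    ∃ a : V → Bool, ∀ c ∈ φ, ∃ l ∈ c, a l.1 = l.2 := by
  classical
  refine ⟨fun v => if h : ∃ i, vr φ i = some v then b (Nat.find h) else false, ?_⟩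
  intro c hc
  obtain ⟨j, hj, hjc⟩ := List.getElem_of_mem hc
  have hget : φ.getD j [] = c := by
    rw [List.getD_eq_getElem φ [] hj, hjc]
  have hex : ∃ i ≤ φ.flatten.length, satb φ i j (b i) = true := by
    by_contra hno
    have hall : ∀ m ≤ φ.flatten.length + 1, s m j = false := by
      intro m
      induction m with
      | zero => intro _; exact h0 j hj
      | succ m ih =>
        intro hm
        rw [h2 m (by omega) j hj, ih (by omega), Bool.false_or]
        by_contra hne
        exact hno ⟨m, by omega, by simpa using hne⟩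
    have := hall _ le_rfl
    rw [h1 j hj] at this
    exact absurd this (by decide)
  obtain ⟨i, -, hi⟩ := hex
  obtain ⟨hfirst, l, hl, hlv, hlb⟩ := (oe5_satb_iff φ i j (b i)).1 hi
  rw [hget] at hl
  refine ⟨l, hl, ?_⟩
  have hx : ∃ i, vr φ i = some l.1 := ⟨i, hlv.symm⟩
  change (if h : ∃ i, vr φ i = some l.1 then b (Nat.find h) else false) = l.2
  rw [dif_pos hx]
  have hfind : Nat.find hx = i := by
    apply le_antisymm
    · exact Nat.find_min' hx hlv.symm
    · by_contra hlt
      exact hfirst _ (not_le.1 hlt) ((Nat.find_spec hx).trans hlv)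
  rw [hfind, hlb]

theorem states_of_sat {V : Type} [DecidableEq V] (φ : List (List (V × Bool)))
    (h : ∃ a : V → Bool, ∀ c ∈ φ, ∃ l ∈ c, a l.1 = l.2) :
    ∃ (b : ℕ → Bool) (s : ℕ → ℕ → Bool), (∀ j, s 0 j = false) ∧
      (∀ j < φ.length, s (φ.flatten.length + 1) j = true) ∧
      ∀ i j, s (i + 1) j = (s i j || satb φ i j (b i)) := by
  classical
  obtain ⟨a, ha⟩ := h
  obtain ⟨b, hb⟩ : ∃ b : ℕ → Bool, ∀ i, b i = (vr φ i).elim false a := ⟨_, fun _ => rfl⟩
  obtain ⟨s, hs0, hs1⟩ : ∃ s : ℕ → ℕ → Bool, (∀ j, s 0 j = false) ∧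
      ∀ i j, s (i + 1) j = (s i j || satb φ i j (b i)) :=
    ⟨fun m j => Nat.rec false (fun i t => t || satb φ i j (b i)) m, fun _ => rfl, fun _ _ => rfl⟩
  refine ⟨b, s, hs0, ?_, hs1⟩
  intro j hj
  have hget : φ.getD j [] = φ[j] := List.getD_eq_getElem φ [] hj
  obtain ⟨l, hl, hal⟩ := ha φ[j] (List.getElem_mem hj)
  have hmem : l ∈ φ.flatten := List.mem_flatten.2 ⟨φ[j], List.getElem_mem hj, hl⟩
  obtain ⟨i', hi', hli'⟩ := List.getElem_of_mem hmem
  have hvr : vr φ i' = some l.1 := by
    unfold vr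
    rw [List.getD_eq_getElem _ _ (by rw [List.length_map]; exact hi'), List.getElem_map, hli']
  have hx : ∃ i, vr φ i = some l.1 := ⟨i', hvr⟩
  have hle : Nat.find hx ≤ i' := Nat.find_min' hx hvr
  obtain ⟨i, hi⟩ : ∃ i, i = Nat.find hx := ⟨_, rfl⟩
  rw [← hi] at hle
  have hiv : vr φ i = some l.1 := by rw [hi]; exact Nat.find_spec hx
  have hsat : satb φ i j (b i) = true := by
    rw [oe5_satb_iff]
    refine ⟨?_, l, ?_, hiv.symm, ?_⟩
    · intro m hm heq
      rw [hi] at hm
      exact Nat.find_min hx hm (heq.trans hiv)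
    · rw [hget]; exact hl
    · rw [hb, hiv]; exact hal.symm
  have hmono : ∀ m, s (i + 1 + m) j = true := by
    intro m
    induction m with
    | zero => rw [Nat.add_zero, hs1, hsat, Bool.or_true]
    | succ m ih => rw [← Nat.add_assoc, hs1, ih, Bool.true_or]
  have := hmono (φ.flatten.length - i)
  rwa [show i + 1 + (φ.flatten.length - i) = φ.flatten.length + 1 by omega] at this

end Pool.Agent.LibOpc
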