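import Pool.Agent.LibOpc.OE5

set_option autoImplicit false

/-!
Row OE6. The rainbow colouring; the three elements of a triple are different.
Sketch. `n = φ.flatten.length`. `lab`: the label number of the cell `(i, j)`.
Colours (`b, s` from `states_of_sat`): `χ (0, i, j, x) = dg x (lab b s i j)`; for `tag ≥ 1` and
`y = 2 * a + ε`: `χ (tag, i, j, y) = (γ + 1 + y % 2) % 3` where `a = y / 2` and
`γ = if tag = 1 then dg a (s (i + 1) j).toNat else if tag = 2 then dg a (b i).toNat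
else dg a (s i j).toNat`.
`CT`: `dg` of the three members of a triple of `CT` at a place `l < 4` are `y, y + δ, y + 2 δ`
modulo `3`: three different numbers `< 3` (`ct_dg`; one `decide +kernel` over `CT`).
Links: for each pair `(x, y, a)` of the list the colours of `(0, i, j, x)` and `(0, i', j', y)` are
both `γ` (`hp_dg`, `vp_dg`, `sp_dg`, `ep_dg`: finite checks) and `γ < 3`, so the colours `γ`,
`(γ + 1) % 3`, `(γ + 2) % 3` are different. `HP`: `s (i + 1) j = (s i j || satb φ i j (b i))`. `SP`: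
`s 0 j = false`. `EP`: `s (n + 1) j = true` for `j < φ.length`.
`TL_distinct`: members of `CT`: different numbers; links: the tags `0` and `tag ≥ 1`, the numbers
`2 a` and `2 a + 1`.
-/

namespace Pool.Agent.LibOpc

theorem ct_dg : ∀ t ∈ CT, ∀ l < 4, (dg t.1 l < 3 ∧ dg t.2.1 l < 3 ∧ dg t.2.2 l < 3) ∧
    dg t.1 l ≠ dg t.2.1 l ∧ dg t.1 l ≠ dg t.2.2 l ∧ dg t.2.1 l ≠ dg t.2.2 l := by
  decide +kernel

theorem hp_dg (w0 w1 b s b' : Bool) : ∀ p ∈ HP w0 w1,
    dg p.1 (b.toNat + 2 * s.toNat) = dg p.2.2 (s || (if b then w1 else w0)).toNat ∧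
    dg p.2.1 (b'.toNat + 2 * (s || (if b then w1 else w0)).toNat) =
      dg p.2.2 (s || (if b then w1 else w0)).toNat := by
  revert w0 w1 b s b'
  decide +kernel

theorem vp_dg (b s : Bool) : ∀ p ∈ VP, dg p.1 (b.toNat + 2 * s.toNat) = dg p.2.2 b.toNat ∧
    dg p.2.1 (b.toNat + 2 * s.toNat) = dg p.2.2 b.toNat := by
  revert b s
  decide +kernel

theorem sp_dg (b : Bool) : ∀ p ∈ SP, dg p.1 (b.toNat + 2 * 0) = dg p.2.2 0 ∧
    dg p.2.1 (b.toNat + 2 * 0) = dg p.2.2 0 := by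
  revert b
  decide +kernel

theorem ep_dg (b : Bool) : ∀ p ∈ EP, dg p.1 (b.toNat + 2 * 1) = dg p.2.2 1 ∧
    dg p.2.1 (b.toNat + 2 * 1) = dg p.2.2 1 := by
  revert b
  decide +kernel

/-- the triple is coloured with three different colours -/
private def RT (χ : Mn → ℕ) (T : Mn × Mn × Mn) : Prop :=
  (χ T.1 < 3 ∧ χ T.2.1 < 3 ∧ χ T.2.2 < 3) ∧
    χ T.1 ≠ χ T.2.1 ∧ χ T.1 ≠ χ T.2.2 ∧ χ T.2.1 ≠ χ T.2.2

private theorem dg_lt (x l : ℕ) : dg x l < 3 := Nat.mod_lt _ (by norm_num)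

private theorem link_rb (χ : Mn → ℕ) (tag i j i' j' : ℕ) (ps : List (ℕ × ℕ × ℕ)) (γ : ℕ → ℕ)
    (hγ : ∀ a, γ a < 3) (h0 : ∀ a, χ (tag, i, j, 2 * a) = (γ a + 1) % 3)
    (h1 : ∀ a, χ (tag, i, j, 2 * a + 1) = (γ a + 2) % 3)
    (hp : ∀ p ∈ ps, χ (0, i, j, p.1) = γ p.2.2 ∧ χ (0, i', j', p.2.1) = γ p.2.2) :
    ∀ T ∈ linkL tag i j i' j' ps, RT χ T := by
  intro T hT
  unfold linkL at hT
  rw [List.mem_flatMap] at hT
  obtain ⟨p, hps, hT⟩ := hT
  obtain ⟨e1, e2⟩ := hp p hps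
  have g := hγ p.2.2
  have a0 := h0 p.2.2
  have a1 := h1 p.2.2
  simp only [List.mem_cons, List.not_mem_nil, or_false] at hT
  rcases hT with rfl | rfl
  · simp only [RT, e1, a0, a1]
    omega
  · simp only [RT, e2, a0, a1]
    omega

/-- the colouring -/
private def chi (b : ℕ → Bool) (s : ℕ → ℕ → Bool) : Mn → ℕ := fun m =>
  if m.1 = 0 then dg m.2.2.2 ((b m.2.1).toNat + 2 * (s m.2.1 m.2.2.1).toNat)
  else ((if m.1 = 1 then dg (m.2.2.2 / 2) (s (m.2.1 + 1) m.2.2.1).toNat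
    else if m.1 = 2 then dg (m.2.2.2 / 2) (b m.2.1).toNat
    else dg (m.2.2.2 / 2) (s m.2.1 m.2.2.1).toNat) + 1 + m.2.2.2 % 2) % 3

private theorem chi0 (b : ℕ → Bool) (s : ℕ → ℕ → Bool) (i j x : ℕ) :
    chi b s (0, i, j, x) = dg x ((b i).toNat + 2 * (s i j).toNat) := by
  simp [chi]

private theorem chi1 (b : ℕ → Bool) (s : ℕ → ℕ → Bool) (i j a : ℕ) :
    chi b s (1, i, j, 2 * a) = (dg a (s (i + 1) j).toNat + 1) % 3 ∧
    chi b s (1, i, j, 2 * a + 1) = (dg a (s (i + 1) j).toNat + 2) % 3 := by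
  have e1 : 2 * a / 2 = a := by omega
  have e2 : (2 * a + 1) / 2 = a := by omega
  have e3 : 2 * a % 2 = 0 := by omega
  have e4 : (2 * a + 1) % 2 = 1 := by omega
  constructor
  · simp [chi]
  · simp [chi, e2, e4]

private theorem chi2 (b : ℕ → Bool) (s : ℕ → ℕ → Bool) (i j a : ℕ) :
    chi b s (2, i, j, 2 * a) = (dg a (b i).toNat + 1) % 3 ∧
    chi b s (2, i, j, 2 * a + 1) = (dg a (b i).toNat + 2) % 3 := by
  have e1 : 2 * a / 2 = a := by omega
  have e2 : (2 * a + 1) / 2 = a := by omega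
  have e3 : 2 * a % 2 = 0 := by omega
  have e4 : (2 * a + 1) % 2 = 1 := by omega
  constructor
  · simp [chi]
  · simp [chi, e2, e4]

private theorem chi3 (b : ℕ → Bool) (s : ℕ → ℕ → Bool) (t i j a : ℕ) (ht : 3 ≤ t) :
    chi b s (t, i, j, 2 * a) = (dg a (s i j).toNat + 1) % 3 ∧
    chi b s (t, i, j, 2 * a + 1) = (dg a (s i j).toNat + 2) % 3 := by
  have e2 : (2 * a + 1) / 2 = a := by omega
  have e4 : (2 * a + 1) % 2 = 1 := by omega
  have t0 : t ≠ 0 := by omega
  have t1 : t ≠ 1 := by omega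
  have t2 : t ≠ 2 := by omega
  constructor
  · simp [chi, t0, t1, t2]
  · simp [chi, e2, e4, t0, t1, t2]

private theorem mem_TLof {V : Type} [DecidableEq V] (φ : List (List (V × Bool)))
    (T : Mn × Mn × Mn) (h : T ∈ TLof φ) :
    ∃ i < φ.flatten.length + 2, ∃ j < φ.length, T ∈ cellT φ i j := by
  unfold TLof at h
  rw [List.mem_flatMap] at h
  obtain ⟨i, hi, h⟩ := h
  rw [List.mem_flatMap] at h
  obtain ⟨j, hj, h⟩ := h
  exact ⟨i, List.mem_range.1 hi, j, List.mem_range.1 hj, h⟩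

private theorem mem_cellT {V : Type} [DecidableEq V] (φ : List (List (V × Bool))) (i j : ℕ)
    (T : Mn × Mn × Mn) (h : T ∈ cellT φ i j) :
    (∃ t ∈ CT, T = ((0, i, j, t.1), (0, i, j, t.2.1), (0, i, j, t.2.2))) ∨
    T ∈ linkL 1 i j (i + 1) j (HP (satb φ i j false) (satb φ i j true)) ∨
    T ∈ linkL 2 i j i (j + 1) VP ∨ (i = 0 ∧ T ∈ linkL 3 i j i j SP) ∨
    (i = φ.flatten.length + 1 ∧ T ∈ linkL 4 i j i j EP) := by
  unfold cellT at h
  rw [List.mem_append, List.mem_append, List.mem_append, List.mem_append] at h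
  rcases h with h | h | h | h | h
  · left
    rw [List.mem_map] at h
    obtain ⟨t, ht, rfl⟩ := h
    exact ⟨t, ht, rfl⟩
  · exact Or.inr (Or.inl h)
  · exact Or.inr (Or.inr (Or.inl h))
  · right; right; right; left
    split_ifs at h with hi
    · exact ⟨hi, h⟩
    · exact absurd h (List.not_mem_nil)
  · right; right; right; right
    split_ifs at h with hi
    · exact ⟨hi, h⟩
    · exact absurd h (List.not_mem_nil)

theorem TL_complete {V : Type} [DecidableEq V] (φ : List (List (V × Bool)))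
    (h : ∃ a : V → Bool, ∀ c ∈ φ, ∃ l ∈ c, a l.1 = l.2) : ∃ χ : Mn → ℕ, Rainbow (TLof φ) χ := by
  obtain ⟨b, s, hs0, hs1, hs2⟩ := states_of_sat φ h
  refine ⟨chi b s, ?_⟩
  intro T hT
  obtain ⟨i, hi, j, hj, hT⟩ := mem_TLof φ T hT
  change RT (chi b s) T
  rcases mem_cellT φ i j T hT with ⟨t, ht, rfl⟩ | h | h | ⟨hi0, h⟩ | ⟨hin, h⟩
  · have hl : (b i).toNat + 2 * (s i j).toNat < 4 := by
      cases b i <;> cases s i j <;> simp
    have := ct_dg t ht _ hl
    simpa [RT, chi0] using this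
  · refine link_rb (chi b s) 1 i j (i + 1) j _ (fun a => dg a (s (i + 1) j).toNat)
      (fun a => dg_lt _ _) (fun a => (chi1 b s i j a).1) (fun a => (chi1 b s i j a).2) ?_ T h
    intro p hp
    have hw : satb φ i j (b i) = (if b i then satb φ i j true else satb φ i j false) := by
      cases b i <;> simp
    have h2 := hs2 i j
    rw [hw] at h2
    have := hp_dg (satb φ i j false) (satb φ i j true) (b i) (s i j) (b (i + 1)) p hp
    rw [← h2] at this
    rw [chi0, chi0]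
    exact this
  · refine link_rb (chi b s) 2 i j i (j + 1) _ (fun a => dg a (b i).toNat)
      (fun a => dg_lt _ _) (fun a => (chi2 b s i j a).1) (fun a => (chi2 b s i j a).2) ?_ T h
    intro p hp
    rw [chi0, chi0]
    exact ⟨(vp_dg (b i) (s i j) p hp).1, (vp_dg (b i) (s i (j + 1)) p hp).2⟩
  · refine link_rb (chi b s) 3 i j i j _ (fun a => dg a (s i j).toNat)
      (fun a => dg_lt _ _) (fun a => (chi3 b s 3 i j a le_rfl).1)
      (fun a => (chi3 b s 3 i j a le_rfl).2) ?_ T h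
    intro p hp
    have hz : s i j = false := by rw [hi0]; exact hs0 j
    rw [chi0, chi0, hz]
    exact sp_dg (b i) p hp
  · refine link_rb (chi b s) 4 i j i j _ (fun a => dg a (s i j).toNat)
      (fun a => dg_lt _ _) (fun a => (chi3 b s 4 i j a (by norm_num)).1)
      (fun a => (chi3 b s 4 i j a (by norm_num)).2) ?_ T h
    intro p hp
    have hz : s i j = true := by rw [hin]; exact hs1 j hj
    rw [chi0, chi0, hz]
    exact ep_dg (b i) p hp

private theorem link_dist (tag i j i' j' : ℕ) (ps : List (ℕ × ℕ × ℕ)) (ht : tag ≠ 0) :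
    ∀ T ∈ linkL tag i j i' j' ps, T.1 ≠ T.2.1 ∧ T.1 ≠ T.2.2 ∧ T.2.1 ≠ T.2.2 := by
  intro T hT
  unfold linkL at hT
  rw [List.mem_flatMap] at hT
  obtain ⟨p, hps, hT⟩ := hT
  simp only [List.mem_cons, List.not_mem_nil, or_false] at hT
  rcases hT with rfl | rfl
  · refine ⟨fun e => ht (congrArg Prod.fst e).symm, fun e => ht (congrArg Prod.fst e).symm, ?_⟩
    intro e
    have := congrArg (fun m : Mn => m.2.2.2) e
    simp at this
  · refine ⟨fun e => ht (congrArg Prod.fst e).symm, fun e => ht (congrArg Prod.fst e).symm, ?_⟩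
    intro e
    have := congrArg (fun m : Mn => m.2.2.2) e
    simp at this

theorem TL_distinct {V : Type} [DecidableEq V] (φ : List (List (V × Bool))) :
    ∀ T ∈ TLof φ, T.1 ≠ T.2.1 ∧ T.1 ≠ T.2.2 ∧ T.2.1 ≠ T.2.2 := by
  intro T hT
  obtain ⟨i, hi, j, hj, hT⟩ := mem_TLof φ T hT
  rcases mem_cellT φ i j T hT with ⟨t, ht, rfl⟩ | h | h | ⟨hi0, h⟩ | ⟨hin, h⟩
  · obtain ⟨-, h1, h2, h3⟩ := ct_dg t ht 0 (by norm_num)
    refine ⟨?_, ?_, ?_⟩
    · intro e
      exact h1 (congrArg (fun m : Mn => dg m.2.2.2 0) e)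
    · intro e
      exact h2 (congrArg (fun m : Mn => dg m.2.2.2 0) e)
    · intro e
      exact h3 (congrArg (fun m : Mn => dg m.2.2.2 0) e)
  · exact link_dist 1 i j (i + 1) j _ (by norm_num) T h
  · exact link_dist 2 i j i (j + 1) _ (by norm_num) T h
  · exact link_dist 3 i j i j _ (by norm_num) T h
  · exact link_dist 4 i j i j _ (by norm_num) T h

end Pool.Agent.LibOpc
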