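import Pool.Agent.LibOpc.ODefs

set_option autoImplicit false

/-!
Row OE7. Every main item is in at most `r0` triples.
Sketch. `occ_eq`: the number of the indices `j < length` with `inT (tri TL j) u` is
`TL.countP fun T => inT T u` (`List.range`, `getD`; e.g. by induction on `TL` from the left or
`List.countP_eq_length_filter`, `List.filter_map`, `TL = (List.range TL.length).map (tri TL)`).
`cell_zero`: a triple of `cellT φ i j` contains `(t, i₀, j₀, x)` only if
`(i₀, j₀) = (i, j)`, `(i + 1, j)` or `(i, j + 1)`. `cell_length`: `1296 + 4 * 18 = 1368`.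
`TL_occ`: `List.countP_flatMap` twice; each summand is at most `1368` times the number of the true
statements among `i₀ = i ∧ j₀ = j`, `i₀ = i + 1 ∧ j₀ = j`, `i₀ = i ∧ j₀ = j + 1`; the sum over `i`, `j`
of each of these indicators is at most `1`. So `occ ≤ 3 * 1368 = 4104 ≤ 10000`.
-/

namespace Pool.Agent.LibOpc

private theorem oe7_range_map (TL : List (Mn × Mn × Mn)) :
    (List.range TL.length).map (tri TL) = TL := by
  apply List.ext_getElem
  · simp
  · intro i h1 h2
    rw [List.getElem_map, List.getElem_range]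
    unfold tri
    rw [List.getD_eq_getElem _ _ h2]

private theorem oe7_inT (T : Mn × Mn × Mn) (u : Mn) (h : inT T u = true) :
    u = T.1 ∨ u = T.2.1 ∨ u = T.2.2 := by
  unfold inT at h
  simpa only [Bool.or_eq_true, decide_eq_true_eq] using h

private theorem oe7_link (tag i j i' j' : ℕ) (ps : List (ℕ × ℕ × ℕ)) (u : Mn)
    (T : Mn × Mn × Mn) (hT : T ∈ linkL tag i j i' j' ps) (hu : inT T u = true) :
    (u.2.1 = i ∧ u.2.2.1 = j) ∨ (u.2.1 = i' ∧ u.2.2.1 = j') := by
  unfold linkL at hT
  rw [List.mem_flatMap] at hT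
  obtain ⟨p, hp, hT⟩ := hT
  rw [List.mem_cons, List.mem_singleton] at hT
  have h := oe7_inT T u hu
  rcases hT with hT | hT <;> rw [hT] at h <;> rcases h with h | h | h <;> rw [h] <;> simp

private theorem oe7_linkL_length (tag i j i' j' : ℕ) (ps : List (ℕ × ℕ × ℕ)) :
    (linkL tag i j i' j' ps).length = 2 * ps.length := by
  unfold linkL
  rw [List.length_flatMap]
  simp
  ring

private theorem oe7_CT_length : CT.length = 1296 := by
  unfold CT
  rw [List.length_flatMap]
  simp

private theorem oe7_sum_range (n : ℕ) (f : ℕ → ℕ) :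
    ((List.range n).map f).sum = ∑ i ∈ Finset.range n, f i := by
  induction n with
  | zero => simp
  | succ n ih =>
    rw [List.range_succ, List.map_append, List.sum_append, ih, Finset.sum_range_succ]
    simp

private theorem oe7_two (n m : ℕ) (P : ℕ → ℕ → Prop) [∀ i j, Decidable (P i j)]
    (h : ∀ i j i' j', P i j → P i' j' → i = i' ∧ j = j') :
    ∑ i ∈ Finset.range n, ∑ j ∈ Finset.range m, (if P i j then 1 else 0) ≤ 1 := by
  rw [← Finset.sum_product', Finset.sum_boole]
  have h1 : ((Finset.range n ×ˢ Finset.range m).filter fun x => P x.1 x.2).card ≤ 1 := by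
    rw [Finset.card_le_one]
    intro a ha b hb
    rw [Finset.mem_filter] at ha hb
    have h2 := h _ _ _ _ ha.2 hb.2
    exact Prod.ext h2.1 h2.2
  exact_mod_cast h1

private theorem oe7_cell_count {V : Type} [DecidableEq V] (φ : List (List (V × Bool)))
    (u : Mn) (i j : ℕ) (hz : ∀ T ∈ cellT φ i j, inT T u = true →
      (u.2.1 = i ∧ u.2.2.1 = j) ∨ (u.2.1 = i + 1 ∧ u.2.2.1 = j) ∨ (u.2.1 = i ∧ u.2.2.1 = j + 1))
    (hl : (cellT φ i j).length ≤ 1368) :
    (cellT φ i j).countP (fun T => inT T u) ≤
      1368 * ((if u.2.1 = i ∧ u.2.2.1 = j then 1 else 0) +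
        ((if u.2.1 = i + 1 ∧ u.2.2.1 = j then 1 else 0) +
          (if u.2.1 = i ∧ u.2.2.1 = j + 1 then 1 else 0))) := by
  by_cases h : ∃ T ∈ cellT φ i j, inT T u = true
  · obtain ⟨T, hT, hu⟩ := h
    have h1 : (cellT φ i j).countP (fun T => inT T u) ≤ 1368 :=
      le_trans List.countP_le_length hl
    have h2 : 1 ≤ ((if u.2.1 = i ∧ u.2.2.1 = j then 1 else 0) +
        ((if u.2.1 = i + 1 ∧ u.2.2.1 = j then 1 else 0) +
          (if u.2.1 = i ∧ u.2.2.1 = j + 1 then 1 else 0))) := by
      rcases hz T hT hu with h3 | h3 | h3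
      · rw [if_pos h3]; omega
      · rw [if_pos h3]; omega
      · rw [if_pos h3]; omega
    calc (cellT φ i j).countP (fun T => inT T u) ≤ 1368 * 1 := by omega
      _ ≤ _ := Nat.mul_le_mul_left _ h2
  · have h1 : (cellT φ i j).countP (fun T => inT T u) = 0 := by
      rw [List.countP_eq_zero]
      intro T hT hu
      exact h ⟨T, hT, hu⟩
    rw [h1]
    exact Nat.zero_le _

theorem occ_eq (TL : List (Mn × Mn × Mn)) (u : Mn) : occ TL u = TL.countP fun T => inT T u := by
  conv_rhs => rw [← oe7_range_map TL]
  rw [List.countP_map, List.countP_eq_length_filter]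
  rfl

theorem cell_zero {V : Type} [DecidableEq V] (φ : List (List (V × Bool))) (i j : ℕ) (u : Mn) :
    ∀ T ∈ cellT φ i j, inT T u = true →
      (u.2.1 = i ∧ u.2.2.1 = j) ∨ (u.2.1 = i + 1 ∧ u.2.2.1 = j) ∨ (u.2.1 = i ∧ u.2.2.1 = j + 1) := by
  intro T hT hu
  unfold cellT at hT
  rw [List.mem_append, List.mem_append, List.mem_append, List.mem_append] at hT
  rcases hT with hT | hT | hT | hT | hT
  · rw [List.mem_map] at hT
    obtain ⟨t, ht, rfl⟩ := hT
    left
    rcases oe7_inT _ u hu with h | h | h <;> rw [h] <;> simp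
  · rcases oe7_link _ _ _ _ _ _ _ _ hT hu with h | h
    · left; exact h
    · right; left; exact h
  · rcases oe7_link _ _ _ _ _ _ _ _ hT hu with h | h
    · left; exact h
    · right; right; exact h
  · split_ifs at hT with h0
    · rcases oe7_link _ _ _ _ _ _ _ _ hT hu with h | h
      · left; exact h
      · left; exact h
    · simp at hT
  · split_ifs at hT with h0
    · rcases oe7_link _ _ _ _ _ _ _ _ hT hu with h | h
      · left; exact h
      · left; exact h
    · simp at hT

theorem cell_length {V : Type} [DecidableEq V] (φ : List (List (V × Bool))) (i j : ℕ) :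
    (cellT φ i j).length ≤ 1368 := by
  have h1 : ∀ w0 w1, (HP w0 w1).length = 9 := by
    intro w0 w1
    unfold HP
    simp
  have h2 : VP.length = 9 := by
    unfold VP
    simp
  have h3 : SP.length = 9 := by
    unfold SP
    simp
  have h4 : EP.length = 9 := by
    unfold EP
    simp
  unfold cellT
  rw [List.length_append, List.length_append, List.length_append, List.length_append,
    List.length_map, oe7_CT_length, oe7_linkL_length, oe7_linkL_length, h1, h2]
  have h5 : (if i = 0 then linkL 3 i j i j SP else []).length ≤ 18 := by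
    split_ifs
    · rw [oe7_linkL_length, h3]
    · simp
  have h6 : (if i = φ.flatten.length + 1 then linkL 4 i j i j EP else []).length ≤ 18 := by
    split_ifs
    · rw [oe7_linkL_length, h4]
    · simp
  omega

theorem TL_occ {V : Type} [DecidableEq V] (φ : List (List (V × Bool))) (u : Mn) :
    occ (TLof φ) u ≤ r0 := by
  rw [occ_eq]
  unfold TLof
  rw [List.countP_flatMap, oe7_sum_range]
  have h1 : ∀ i, ((List.countP fun T => inT T u) ∘ fun i =>
      (List.range φ.length).flatMap fun j => cellT φ i j) i =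
      ∑ j ∈ Finset.range φ.length, (cellT φ i j).countP (fun T => inT T u) := by
    intro i
    show List.countP (fun T => inT T u) ((List.range φ.length).flatMap fun j => cellT φ i j) = _
    rw [List.countP_flatMap, oe7_sum_range]
    rfl
  calc _ = ∑ i ∈ Finset.range (φ.flatten.length + 2), ∑ j ∈ Finset.range φ.length,
        (cellT φ i j).countP (fun T => inT T u) := Finset.sum_congr rfl fun i _ => h1 i
    _ ≤ ∑ i ∈ Finset.range (φ.flatten.length + 2), ∑ j ∈ Finset.range φ.length,
        1368 * ((if u.2.1 = i ∧ u.2.2.1 = j then 1 else 0) +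
        ((if u.2.1 = i + 1 ∧ u.2.2.1 = j then 1 else 0) +
          (if u.2.1 = i ∧ u.2.2.1 = j + 1 then 1 else 0))) := by
        refine Finset.sum_le_sum fun i _ => Finset.sum_le_sum fun j _ => ?_
        exact oe7_cell_count φ u i j (cell_zero φ i j u) (cell_length φ i j)
    _ = 1368 * ((∑ i ∈ Finset.range (φ.flatten.length + 2), ∑ j ∈ Finset.range φ.length,
          (if u.2.1 = i ∧ u.2.2.1 = j then 1 else 0)) +
        ((∑ i ∈ Finset.range (φ.flatten.length + 2), ∑ j ∈ Finset.range φ.length,
          (if u.2.1 = i + 1 ∧ u.2.2.1 = j then 1 else 0)) +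
        (∑ i ∈ Finset.range (φ.flatten.length + 2), ∑ j ∈ Finset.range φ.length,
          (if u.2.1 = i ∧ u.2.2.1 = j + 1 then 1 else 0)))) := by
        rw [← Finset.sum_add_distrib, ← Finset.sum_add_distrib, Finset.mul_sum]
        refine Finset.sum_congr rfl fun i _ => ?_
        rw [← Finset.sum_add_distrib, ← Finset.sum_add_distrib, Finset.mul_sum]
    _ ≤ 1368 * (1 + (1 + 1)) := by
        refine Nat.mul_le_mul_left _ (Nat.add_le_add ?_ (Nat.add_le_add ?_ ?_))
        · exact oe7_two _ _ (fun i j => u.2.1 = i ∧ u.2.2.1 = j)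
            (fun i j i' j' h h' => ⟨by omega, by omega⟩)
        · exact oe7_two _ _ (fun i j => u.2.1 = i + 1 ∧ u.2.2.1 = j)
            (fun i j i' j' h h' => ⟨by omega, by omega⟩)
        · exact oe7_two _ _ (fun i j => u.2.1 = i ∧ u.2.2.1 = j + 1)
            (fun i j i' j' h h' => ⟨by omega, by omega⟩)
    _ ≤ r0 := by
        unfold r0
        norm_num

end Pool.Agent.LibOpc
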