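import Pool.Agent.LibOpc.ODefs

set_option autoImplicit false

/-!
Row OF1. The output graph is the composite graph.
Sketch. `mem_posL`: induction on `D`. `outG_comp`: `side v = x.1`, `pos v c = x.2.1.getD c 0`,
`item v = x.2.2` for `x = (outV k e TL)[v]`. Members of `outV` are the `(s, p, t)` with
`p ∈ posL (2 * k) M`, `t ∈ itemsL` (`List.mem_flatMap`, `List.mem_map`). `surj`: `p` corresponds to
the list `List.ofFn p`; every member of a list is `l[v]` for some index `v`
(`List.getElem_of_mem`). `adj`: unfold `gadj`, `crel`, `CRel`; the lists of two positions are equal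
iff the functions are (`List.ext_getElem`, both of length `2 * k`), and
`(List.range (2 * k)).any ..` is `∃ c : Fin (2 * k), ..`.
-/

namespace Pool.Agent.LibOpc

theorem mem_posL (D M : ℕ) (p : List ℕ) :
    p ∈ posL D M ↔ p.length = D ∧ ∀ a ∈ p, a < M := by
  induction D generalizing p with
  | zero =>
    rw [posL, List.mem_singleton]
    constructor
    · rintro rfl
      simp
    · rintro ⟨h, -⟩
      exact List.length_eq_zero_iff.1 h
  | succ D ih =>
    rw [posL, List.mem_flatMap]
    constructor
    · rintro ⟨q, hq, h⟩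
      rw [List.mem_map] at h
      obtain ⟨a, ha, rfl⟩ := h
      obtain ⟨h1, h2⟩ := (ih q).1 hq
      refine ⟨by rw [List.length_cons, h1], ?_⟩
      intro b hb
      rcases List.mem_cons.1 hb with rfl | hb
      · exact List.mem_range.1 ha
      · exact h2 b hb
    · rintro ⟨h1, h2⟩
      cases p with
      | nil => simp at h1
      | cons a q =>
        refine ⟨q, (ih q).2 ⟨by simpa using h1, fun b hb => h2 b (List.mem_cons_of_mem _ hb)⟩, ?_⟩
        rw [List.mem_map]
        exact ⟨a, List.mem_range.2 (h2 a List.mem_cons_self), rfl⟩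

private theorem of1_mem (k e : ℕ) (TL : List (Mn × Mn × Mn)) (x : Vc) :
    x ∈ outV k e TL ↔ x.2.1 ∈ posL (2 * k) (gM k e TL) ∧ x.2.2 ∈ itemsL TL (2 * k - 3) := by
  obtain ⟨s, p, t⟩ := x
  unfold outV
  simp only [List.mem_flatMap, List.mem_map, Prod.mk.injEq]
  constructor
  · rintro ⟨s', -, p', hp, t', ht, rfl, rfl, rfl⟩
    exact ⟨hp, ht⟩
  · rintro ⟨hp, ht⟩
    exact ⟨s, by cases s <;> simp, p, hp, t, ht, rfl, rfl, rfl⟩

private theorem of1_gM_pos (k e : ℕ) (TL : List (Mn × Mn × Mn)) : 0 < gM k e TL := by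
  unfold gM
  positivity

private theorem of1_item (TL : List (Mn × Mn × Mn)) (N : ℕ) :
    ((1, 0, 0, (0, 0, 0, 0)) : ItC) ∈ itemsL TL N := by
  unfold itemsL
  rw [List.mem_append, List.mem_append]
  right
  left
  rw [List.mem_flatMap]
  exact ⟨0, List.mem_range.2 (by omega), List.mem_map.2 ⟨0, List.mem_range.2 (by omega), rfl⟩⟩

theorem outV_pos (k e : ℕ) (TL : List (Mn × Mn × Mn)) : 0 < (outV k e TL).length := by
  have h : ((true, List.replicate (2 * k) 0, (1, 0, 0, (0, 0, 0, 0))) : Vc) ∈ outV k e TL := by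
    rw [of1_mem, mem_posL]
    refine ⟨⟨List.length_replicate, ?_⟩, of1_item _ _⟩
    intro a ha
    rw [(List.mem_replicate.1 ha).2]
    exact of1_gM_pos k e TL
  exact List.length_pos_of_mem h

private theorem of1_crel (D : ℕ) (TL : List (Mn × Mn × Mn)) (x y : List ℕ × ItC)
    (hx : x.1.length = D) (hy : y.1.length = D) :
    crel D TL x y = true ↔ CRel (fun s t => phi TL s t = true)
      (fun c : Fin D => x.1.getD c 0) x.2 (fun c : Fin D => y.1.getD c 0) y.2 := by
  unfold crel CRel
  rw [Bool.or_eq_true, List.any_eq_true, Bool.and_eq_true]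
  refine or_congr ?_ (and_congr ?_ Iff.rfl)
  · constructor
    · rintro ⟨c, hc, h⟩
      exact ⟨⟨c, List.mem_range.1 hc⟩, by simpa using h⟩
    · rintro ⟨c, h⟩
      exact ⟨c.1, List.mem_range.2 c.2, by simpa using h⟩
  · rw [decide_eq_true_iff]
    constructor
    · intro h
      rw [h]
    · intro h
      apply List.ext_getElem (by rw [hx, hy])
      intro i h1 h2
      have h3 := congrFun h ⟨i, by omega⟩
      simp only [List.getD_eq_getElem _ _ h1, List.getD_eq_getElem _ _ h2] at h3
      exact h3

private theorem of1_len (k e : ℕ) (TL : List (Mn × Mn × Mn)) (v : Fin (outV k e TL).length) :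
    ((outV k e TL)[v]).2.1.length = 2 * k :=
  ((mem_posL _ _ _).1 ((of1_mem k e TL _).1 (List.getElem_mem v.2)).1).1

theorem outG_comp (k e : ℕ) (TL : List (Mn × Mn × Mn)) :
    Nonempty (Comp (2 * k) (gM k e TL) (fun s t => phi TL s t = true)
      (itemsL TL (2 * k - 3)).toFinset (outG k e TL)) := by
  refine ⟨{ side := fun v => ((outV k e TL)[v]).1
            pos := fun v c => ((outV k e TL)[v]).2.1.getD c 0
            item := fun v => ((outV k e TL)[v]).2.2
            item_mem := ?_
            pos_lt := ?_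
            surj := ?_
            adj := ?_ }⟩
  · intro v
    rw [List.mem_toFinset]
    exact ((of1_mem k e TL _).1 (List.getElem_mem v.2)).2
  · intro v c
    obtain ⟨h1, h2⟩ := (mem_posL _ _ _).1 ((of1_mem k e TL _).1 (List.getElem_mem v.2)).1
    have h3 : c.1 < ((outV k e TL)[v]).2.1.length := by
      have := of1_len k e TL v
      omega
    rw [List.getD_eq_getElem _ _ h3]
    exact h2 _ (List.getElem_mem h3)
  · intro b p hp s hs
    rw [List.mem_toFinset] at hs
    have h : ((b, List.ofFn p, s) : Vc) ∈ outV k e TL := by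
      rw [of1_mem, mem_posL]
      refine ⟨⟨List.length_ofFn, ?_⟩, hs⟩
      intro a ha
      obtain ⟨c, rfl⟩ := (List.mem_ofFn' p a).1 ha
      exact hp c
    obtain ⟨i, hi, h1⟩ := List.getElem_of_mem h
    refine ⟨⟨i, hi⟩, ?_, ?_, ?_⟩
    · show ((outV k e TL)[i]).1 = b
      rw [h1]
    · funext c
      show ((outV k e TL)[i]).2.1.getD c 0 = p c
      rw [h1]
      show (List.ofFn p).getD c 0 = p c
      rw [List.getD_eq_getElem _ _ (by rw [List.length_ofFn]; exact c.2), List.getElem_ofFn]
    · show ((outV k e TL)[i]).2.2 = s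
      rw [h1]
  · intro u v
    have hu := of1_len k e TL u
    have hv := of1_len k e TL v
    show gadj (2 * k) TL (outV k e TL)[u] (outV k e TL)[v] = true ↔ _
    rw [← of1_crel (2 * k) TL ((outV k e TL)[u]).2 ((outV k e TL)[v]).2 hu hv,
      ← of1_crel (2 * k) TL ((outV k e TL)[v]).2 ((outV k e TL)[u]).2 hv hu]
    unfold gadj
    cases ((outV k e TL)[u]).1 <;> cases ((outV k e TL)[v]).1 <;> simp

end Pool.Agent.LibOpc
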