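import Pool.Agent.LibOpc.OA5
import Pool.Agent.LibOpc.OC5
import Pool.Agent.LibOpc.OD4
import Pool.Agent.LibOpc.OD5
import Pool.Agent.LibOpc.OE4
import Pool.Agent.LibOpc.OE6
import Pool.Agent.LibOpc.OE7
import Pool.Agent.LibOpc.OF1

set_option autoImplicit false

/-!
Row OF2. Assembly: the reduction is correct.
Sketch. `e` is from `good_position k`. Let `N = 2 * k - 3`, so `3 + N = 2 * k`, and
`2 * ((max r0 2) ^ 2 * 6 ^ 2 + 1) ≤ N` by `hk` (`max r0 2 = r0`). `C` from `outG_comp`; the vertex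
set is nonempty by `outV_pos`. From left to right: `TL_complete`, `phi_complete` (with `TL_occ`),
`comp_isOrPCG`. From right to left: `good_position` (`phi TL s s = true` by the definition;
`S.card ≤ length` by `List.toFinset_card_le`, so `(k * S.card ^ 3 + 2) ^ e ≤ gM k e TL`),
`phi_sound` (with `TL_distinct`), `cells_sound`, `sat_of_states`.
-/

namespace Pool.Agent.LibOpc

theorem sat_iff_orPCG (k : ℕ) (hk : 36 * r0 ^ 2 + 4 ≤ k) :
    ∃ e, ∀ {V : Type} [DecidableEq V] (φ : List (List (V × Bool))),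
      (∃ a : V → Bool, ∀ c ∈ φ, ∃ l ∈ c, a l.1 = l.2) ↔ IsOrPCG k (outG k e (TLof φ)) := by
  obtain ⟨e, he⟩ := good_position k
  refine ⟨e, fun {V} _ φ => ?_⟩
  set TL := TLof φ with hTL
  obtain ⟨C⟩ := outG_comp k e TL
  have hne : Nonempty (Fin (outV k e TL).length) := ⟨⟨0, outV_pos k e TL⟩⟩
  have hk3 : 3 + (2 * k - 3) = 2 * k := by
    have : 0 ≤ 36 * r0 ^ 2 := Nat.zero_le _
    omega
  have hN : 2 * ((max r0 2) ^ 2 * 6 ^ 2 + 1) ≤ 2 * k - 3 := by
    have h1 : max r0 2 = r0 := by decide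
    rw [h1]
    omega
  constructor
  · intro h
    obtain ⟨χ, hχ⟩ := TL_complete φ h
    obtain ⟨φ', ψ', h1, h2⟩ := phi_complete TL (2 * k - 3) r0 k hk3 hN (fun u => TL_occ φ u) χ hχ
    refine comp_isOrPCG C φ' ψ' (fun c s hs t ht => ?_) (fun s hs t ht => ?_)
    · exact h1 c s (List.mem_toFinset.1 hs) t (List.mem_toFinset.1 ht)
    · exact h2 s (List.mem_toFinset.1 hs) t (List.mem_toFinset.1 ht)
  · intro h
    obtain ⟨F, hF1, hF2⟩ := he C (fun s _ => by simp [phi])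
      (Nat.pow_le_pow_left (Nat.add_le_add_right (Nat.mul_le_mul_left _
        (Nat.pow_le_pow_left (List.toFinset_card_le _) 3)) 2) e) h
    obtain ⟨f, hf⟩ := phi_sound TL (2 * k - 3) k hk3 (TL_distinct φ) F hF1 hF2
    obtain ⟨b, s, h0, h1, h2⟩ := cells_sound φ f hf
    exact sat_of_states φ b s h0 h1 h2

end Pool.Agent.LibOpc
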