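import Pool.Agent.LibOpc.ONDefs

set_option autoImplicit false

/-!
The list of the triples of a formula is computed in polynomial time.
-/

namespace Pool.Agent.LibOpc

open SimpleGraph Pool.Agent.LibPcg Pool.Agent.LibComplexity

variable {V : Type} [Enc V] {α : Type} [Enc α] {𝒜 : Set Orc}

attribute [local irreducible] CT VP SP EP HP

theorem pt_flatten {β : Type} [Enc β] {f : Orc → α → List (List β)} (hf : PTf 𝒜 f) :
    PTf 𝒜 (fun A x => (f A x).flatten) := by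
  have h : (fun A x => (f A x).flatten) = fun A x => (f A x).flatMap fun y => y := by
    funext A x
    simp [List.flatMap_def]
  rw [h]
  exact hf.flatMap (g := fun _ _ (y : List β) => y) PTf.id.snd

theorem pt_vr {f : Orc → α → List (List (V × Bool))} {i : Orc → α → ℕ} (hf : PTf 𝒜 f)
    (hi : PTf 𝒜 i) : PTf 𝒜 (fun A x => vr (f A x) (i A x)) := by
  unfold vr
  exact ((pt_flatten hf).map (g := fun _ _ (l : V × Bool) => some l.1) PTf.id.snd.fst.some).listGetD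
    hi (PTf.const none)

theorem pt_isFirst [DecidableEq V] {f : Orc → α → List (List (V × Bool))} {i : Orc → α → ℕ}
    (hf : PTf 𝒜 f) (hi : PTf 𝒜 i) : PTf 𝒜 (fun A x => isFirst (f A x) (i A x)) := by
  unfold isFirst
  refine (hi.range.any (p := fun A x (i' : ℕ) =>
    decide (vr (f A x) i' = vr (f A x) (i A x))) ?_).bnot
  exact PTf.decide_eq (pt_vr (hf.comp PTf.id.fst) PTf.id.snd)
    (pt_vr (hf.comp PTf.id.fst) (hi.comp PTf.id.fst))

theorem pt_satb [DecidableEq V] {f : Orc → α → List (List (V × Bool))} {i j : Orc → α → ℕ}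
    {b : Orc → α → Bool} (hf : PTf 𝒜 f) (hi : PTf 𝒜 i) (hj : PTf 𝒜 j) (hb : PTf 𝒜 b) :
    PTf 𝒜 (fun A x => satb (f A x) (i A x) (j A x) (b A x)) := by
  unfold satb
  refine (pt_isFirst hf hi).band ((hf.listGetD hj (PTf.const [])).any
    (p := fun A x (l : V × Bool) => decide (some l.1 = vr (f A x) (i A x)) &&
      decide (l.2 = b A x)) ?_)
  exact (PTf.decide_eq PTf.id.snd.fst.some (pt_vr (hf.comp PTf.id.fst) (hi.comp PTf.id.fst))).band
    (PTf.decide_eq PTf.id.snd.snd (hb.comp PTf.id.fst))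

theorem pt_linkL {tag : ℕ} {i j i' j' : Orc → α → ℕ} {ps : Orc → α → List (ℕ × ℕ × ℕ)}
    (hi : PTf 𝒜 i) (hj : PTf 𝒜 j) (hi' : PTf 𝒜 i') (hj' : PTf 𝒜 j') (hps : PTf 𝒜 ps) :
    PTf 𝒜 (fun A x => linkL tag (i A x) (j A x) (i' A x) (j' A x) (ps A x)) := by
  unfold linkL
  refine hps.flatMap (g := fun A x (p : ℕ × ℕ × ℕ) =>
    ([((0, i A x, j A x, p.1), (tag, i A x, j A x, 2 * p.2.2), (tag, i A x, j A x, 2 * p.2.2 + 1)),
      ((0, i' A x, j' A x, p.2.1), (tag, i A x, j A x, 2 * p.2.2),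
        (tag, i A x, j A x, 2 * p.2.2 + 1))] : List (Mn × Mn × Mn))) ?_
  have i1 := hi.comp (PTf.id (𝒜 := 𝒜) (α := α × (ℕ × ℕ × ℕ))).fst
  have j1 := hj.comp (PTf.id (𝒜 := 𝒜) (α := α × (ℕ × ℕ × ℕ))).fst
  have i2 := hi'.comp (PTf.id (𝒜 := 𝒜) (α := α × (ℕ × ℕ × ℕ))).fst
  have j2 := hj'.comp (PTf.id (𝒜 := 𝒜) (α := α × (ℕ × ℕ × ℕ))).fst
  have a1 : PTf 𝒜 (fun A (p : α × (ℕ × ℕ × ℕ)) => 2 * p.2.2.2) :=
    (PTf.const 2).mul PTf.id.snd.snd.snd
  have w1 := (PTf.const (𝒜 := 𝒜) (α := α × (ℕ × ℕ × ℕ)) tag).pair (i1.pair (j1.pair a1))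
  have w2 := (PTf.const (𝒜 := 𝒜) (α := α × (ℕ × ℕ × ℕ)) tag).pair (i1.pair (j1.pair a1.succ))
  have z1 := (PTf.const (𝒜 := 𝒜) (α := α × (ℕ × ℕ × ℕ)) 0).pair (i1.pair (j1.pair PTf.id.snd.fst))
  have z2 := (PTf.const (𝒜 := 𝒜) (α := α × (ℕ × ℕ × ℕ)) 0).pair
    (i2.pair (j2.pair PTf.id.snd.snd.fst))
  exact (z1.pair (w1.pair w2)).cons ((z2.pair (w1.pair w2)).cons (PTf.const []))

theorem pt_cellT [DecidableEq V] {f : Orc → α → List (List (V × Bool))} {i j : Orc → α → ℕ}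
    (hf : PTf 𝒜 f) (hi : PTf 𝒜 i) (hj : PTf 𝒜 j) :
    PTf 𝒜 (fun A x => cellT (f A x) (i A x) (j A x)) := by
  unfold cellT
  have h0 : PTf 𝒜 (fun A x => CT.map fun t =>
      (((0, i A x, j A x, t.1), (0, i A x, j A x, t.2.1), (0, i A x, j A x, t.2.2)) :
        Mn × Mn × Mn)) := by
    refine (PTf.const (𝒜 := 𝒜) (α := α) CT).map (g := fun A x (t : ℕ × ℕ × ℕ) =>
      (((0, i A x, j A x, t.1), (0, i A x, j A x, t.2.1), (0, i A x, j A x, t.2.2)) :
        Mn × Mn × Mn)) ?_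
    have i1 := hi.comp (PTf.id (𝒜 := 𝒜) (α := α × (ℕ × ℕ × ℕ))).fst
    have j1 := hj.comp (PTf.id (𝒜 := 𝒜) (α := α × (ℕ × ℕ × ℕ))).fst
    exact ((PTf.const 0).pair (i1.pair (j1.pair PTf.id.snd.fst))).pair
      (((PTf.const 0).pair (i1.pair (j1.pair PTf.id.snd.snd.fst))).pair
        ((PTf.const 0).pair (i1.pair (j1.pair PTf.id.snd.snd.snd))))
  have h1 : PTf 𝒜 (fun A x => HP (satb (f A x) (i A x) (j A x) false)
      (satb (f A x) (i A x) (j A x) true)) := by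
    have h2 := (pt_satb hf hi hj (PTf.const false)).pair (pt_satb hf hi hj (PTf.const true))
    exact PTf.ofFinite (fun p : Bool × Bool => HP p.1 p.2) h2
  refine h0.append ((pt_linkL hi hj hi.succ hj h1).append
    ((pt_linkL hi hj hi hj.succ (PTf.const VP)).append (PTf.append ?_ ?_)))
  · exact PTf.ifP (PTf.decide_eq hi (PTf.const 0)) (pt_linkL hi hj hi hj (PTf.const SP))
      (PTf.const [])
  · exact PTf.ifP (PTf.decide_eq hi ((pt_flatten hf).length.add (PTf.const 1)))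
      (pt_linkL hi hj hi hj (PTf.const EP)) (PTf.const [])

theorem pt_TLof [DecidableEq V] {f : Orc → α → List (List (V × Bool))} (hf : PTf 𝒜 f) :
    PTf 𝒜 (fun A x => TLof (f A x)) := by
  unfold TLof
  refine ((pt_flatten hf).length.add (PTf.const 2)).range.flatMap (g := fun A x (i : ℕ) =>
    (List.range (f A x).length).flatMap fun j => cellT (f A x) i j) ?_
  have h1 := hf.comp (PTf.id (𝒜 := 𝒜) (α := α × ℕ)).fst
  refine h1.length.range.flatMap (g := fun A (p : α × ℕ) (j : ℕ) => cellT (f A p.1) p.2 j) ?_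
  exact pt_cellT (h1.comp PTf.id.fst) PTf.id.fst.snd PTf.id.snd

end Pool.Agent.LibOpc
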