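import Pool.Agent.LibOpc.ONDefs

set_option autoImplicit false

/-!
The vertices and the adjacency matrix of the output graph are computed in polynomial time.
-/

namespace Pool.Agent.LibOpc

open SimpleGraph Pool.Agent.LibPcg Pool.Agent.LibComplexity

variable {α : Type} [Enc α] {𝒜 : Set Orc}

theorem pt_inT {T : Orc → α → Mn × Mn × Mn} {u : Orc → α → Mn} (hT : PTf 𝒜 T) (hu : PTf 𝒜 u) :
    PTf 𝒜 (fun A x => inT (T A x) (u A x)) := by
  unfold inT
  exact (PTf.decide_eq hu hT.fst).bor ((PTf.decide_eq hu hT.snd.fst).bor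
    (PTf.decide_eq hu hT.snd.snd))

theorem pt_inP {TL : Orc → α → List (Mn × Mn × Mn)} {j : Orc → α → ℕ} {s : Orc → α → ItC}
    (hT : PTf 𝒜 TL) (hj : PTf 𝒜 j) (hs : PTf 𝒜 s) :
    PTf 𝒜 (fun A x => inP (TL A x) (j A x) (s A x)) := by
  unfold inP tri
  refine PTf.bor (PTf.band (PTf.decide_eq hs.fst (PTf.const 0))
    ((PTf.decide_lt hj hT.length).band (pt_inT (hT.listGetD hj (PTf.const _)) hs.snd.snd.snd))) ?_
  refine PTf.bor (PTf.band (PTf.decide_eq hs.fst (PTf.const 1)) ((PTf.decide_eq hj hs.snd.fst).bor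
    (PTf.decide_eq hj hs.snd.fst.succ))) ?_
  exact (PTf.decide_le (PTf.const 2) hs.fst).band (PTf.decide_eq hj hs.snd.fst)

theorem pt_share {TL : Orc → α → List (Mn × Mn × Mn)} {s t : Orc → α → ItC}
    (hT : PTf 𝒜 TL) (hs : PTf 𝒜 s) (ht : PTf 𝒜 t) :
    PTf 𝒜 (fun A x => share (TL A x) (s A x) (t A x)) := by
  unfold share
  refine hT.length.succ.range.any (p := fun A x (j : ℕ) =>
    inP (TL A x) j (s A x) && inP (TL A x) j (t A x)) ?_
  exact (pt_inP (hT.comp PTf.id.fst) PTf.id.snd (hs.comp PTf.id.fst)).band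
    (pt_inP (hT.comp PTf.id.fst) PTf.id.snd (ht.comp PTf.id.fst))

theorem pt_phi {TL : Orc → α → List (Mn × Mn × Mn)} {s t : Orc → α → ItC}
    (hT : PTf 𝒜 TL) (hs : PTf 𝒜 s) (ht : PTf 𝒜 t) :
    PTf 𝒜 (fun A x => phi (TL A x) (s A x) (t A x)) := by
  unfold phi before
  refine PTf.bor ?_ ((pt_share hT hs ht).bnot.bor (PTf.bor ?_ ?_))
  · let _ : ∀ (A : Orc) (x : α), Decidable (s A x = t A x) := fun A x => instDecidableEqProd _ _
    exact PTf.decide_eq hs ht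
  · exact (PTf.decide_eq hs.fst (PTf.const 0)).band (PTf.decide_eq ht.fst (PTf.const 1))
  · exact (PTf.decide_eq hs.fst (PTf.const 1)).band ((PTf.decide_eq ht.fst (PTf.const 1)).band
      (PTf.decide_lt hs.snd.fst ht.snd.fst))

theorem pt_itemsL (N : ℕ) {TL : Orc → α → List (Mn × Mn × Mn)} (hT : PTf 𝒜 TL) :
    PTf 𝒜 (fun A x => itemsL (TL A x) N) := by
  unfold itemsL
  have h0 : PTf 𝒜 (fun A x => (TL A x).flatMap fun T =>
      ([(0, 0, 0, T.1), (0, 0, 0, T.2.1), (0, 0, 0, T.2.2)] : List ItC)) := by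
    refine hT.flatMap (g := fun _ _ (T : Mn × Mn × Mn) =>
      ([(0, 0, 0, T.1), (0, 0, 0, T.2.1), (0, 0, 0, T.2.2)] : List ItC)) ?_
    have hc : ∀ {f : Orc → α × (Mn × Mn × Mn) → Mn}, PTf 𝒜 f →
        PTf 𝒜 (fun A x => ((0, 0, 0, f A x) : ItC)) := fun hf =>
      (PTf.const 0).pair ((PTf.const 0).pair ((PTf.const 0).pair hf))
    exact (hc PTf.id.snd.fst).cons ((hc PTf.id.snd.snd.fst).cons ((hc PTf.id.snd.snd.snd).cons
      (PTf.const [])))
  have h1 : ∀ c n : ℕ, PTf 𝒜 (fun A x => (List.range ((TL A x).length + 1)).flatMap fun j =>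
      (List.range n).map fun m => ((c, j, m, (0, 0, 0, 0)) : ItC)) := by
    intro c n
    refine hT.length.succ.range.flatMap (g := fun _ _ (j : ℕ) =>
      (List.range n).map fun m => ((c, j, m, (0, 0, 0, 0)) : ItC)) ?_
    refine (PTf.const (𝒜 := 𝒜) (α := α × ℕ) (List.range n)).map (g := fun _ (p : α × ℕ) (m : ℕ) =>
      ((c, p.2, m, (0, 0, 0, 0)) : ItC)) ?_
    exact (PTf.const c).pair (PTf.id.fst.snd.pair (PTf.id.snd.pair (PTf.const _)))
  exact h0.append ((h1 1 3).append (h1 2 N))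

theorem pt_posL (D : ℕ) {M : Orc → α → ℕ} (hM : PTf 𝒜 M) :
    PTf 𝒜 (fun A x => posL D (M A x)) := by
  induction D with
  | zero => exact PTf.const _
  | succ D ih =>
    refine ih.flatMap (g := fun A x (p : List ℕ) => (List.range (M A x)).map fun a => a :: p) ?_
    refine (hM.comp PTf.id.fst).range.map (g := fun _ (p : α × List ℕ) (a : ℕ) => a :: p.2) ?_
    exact PTf.id.snd.cons PTf.id.fst.snd

theorem pt_outV (k e : ℕ) {TL : Orc → α → List (Mn × Mn × Mn)} (hT : PTf 𝒜 TL) :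
    PTf 𝒜 (fun A x => outV k e (TL A x)) := by
  unfold outV gM
  have hI := pt_itemsL (2 * k - 3) hT
  have hM := ((((PTf.const k).mul (hI.length.pow 3)).add (PTf.const 2)).pow e)
  have hp := pt_posL (2 * k) hM
  refine PTf.flatMap (l := fun _ _ => [true, false]) (g := fun A x (s : Bool) =>
    (posL (2 * k) ((k * (itemsL (TL A x) (2 * k - 3)).length ^ 3 + 2) ^ e)).flatMap fun p =>
      (itemsL (TL A x) (2 * k - 3)).map fun t => ((s, p, t) : Vc)) (PTf.const _) ?_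
  refine (hp.comp PTf.id.fst).flatMap (g := fun A (x : α × Bool) (p : List ℕ) =>
      (itemsL (TL A x.1) (2 * k - 3)).map fun t => ((x.2, p, t) : Vc)) ?_
  refine ((hI.comp PTf.id.fst).comp PTf.id.fst).map
    (g := fun A (x : (α × Bool) × List ℕ) (t : ItC) => ((x.1.2, x.2, t) : Vc)) ?_
  exact PTf.id.fst.fst.snd.pair (PTf.id.fst.snd.pair PTf.id.snd)

theorem pt_crel (D : ℕ) {TL : Orc → α → List (Mn × Mn × Mn)} {x y : Orc → α → List ℕ × ItC}
    (hT : PTf 𝒜 TL) (hx : PTf 𝒜 x) (hy : PTf 𝒜 y) :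
    PTf 𝒜 (fun A z => crel D (TL A z) (x A z) (y A z)) := by
  unfold crel
  refine PTf.bor ((PTf.const (List.range D)).any (p := fun A z (c : ℕ) =>
    decide ((x A z).1.getD c 0 < (y A z).1.getD c 0)) ?_)
    ((PTf.decide_eq hx.fst hy.fst).band (pt_phi hT hx.snd hy.snd))
  exact PTf.decide_lt ((hx.comp PTf.id.fst).fst.listGetD PTf.id.snd (PTf.const 0))
    ((hy.comp PTf.id.fst).fst.listGetD PTf.id.snd (PTf.const 0))

theorem pt_gadj (D : ℕ) {TL : Orc → α → List (Mn × Mn × Mn)} {x y : Orc → α → Vc}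
    (hT : PTf 𝒜 TL) (hx : PTf 𝒜 x) (hy : PTf 𝒜 y) :
    PTf 𝒜 (fun A z => gadj D (TL A z) (x A z) (y A z)) := by
  unfold gadj
  exact (hx.fst.band (hy.fst.bnot.band (pt_crel D hT hx.snd hy.snd))).bor
    (hx.fst.bnot.band (hy.fst.band (pt_crel D hT hy.snd hx.snd)))

theorem pt_gbits (D : ℕ) {TL : Orc → α → List (Mn × Mn × Mn)} {l : Orc → α → List Vc}
    (hT : PTf 𝒜 TL) (hl : PTf 𝒜 l) :
    PTf 𝒜 (fun A x => gbits D (TL A x) (l A x)) := by
  unfold gbits
  refine hl.flatMap (g := fun A x (u : Vc) => (l A x).map fun y => gadj D (TL A x) u y) ?_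
  refine (hl.comp PTf.id.fst).map (g := fun A (x : α × Vc) (y : Vc) =>
    gadj D (TL A x.1) x.2 y) ?_
  exact pt_gadj D (hT.comp PTf.id.fst.fst) PTf.id.fst.snd PTf.id.snd

end Pool.Agent.LibOpc
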