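import Pool.Agent.LibOpc.ONDefs
import Pool.Agent.LibOpc.OM1
import Pool.Agent.LibOpc.OM2

set_option autoImplicit false

/-!
The reduction is computed in polynomial time; its values encode the output graph.
-/

namespace Pool.Agent.LibOpc

open SimpleGraph Pool.Agent.LibPcg Pool.Agent.LibComplexity

theorem pt_red (k e : ℕ) {V : Type} [Enc V] [DecidableEq V] {α : Type} [Enc α] {𝒜 : Set Orc}
    {f : Orc → α → List (List (V × Bool))} (hf : PTf 𝒜 f) :
    PTf 𝒜 (fun A x => red k e (f A x)) := by
  unfold red
  have hT := pt_TLof hf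
  have hV := pt_outV k e hT
  exact (hV.length.pair ((PTf.const k).pair (pt_gbits (2 * k) hT hV))).word

open Classical in
theorem red_eq (k e : ℕ) {V : Type} [DecidableEq V] (φ : List (List (V × Bool))) :
    red k e φ = encode (outG k e (TLof φ)) k := by
  unfold red encode
  congr 3
  unfold gbits matrixBits
  have h : ∀ {γ : Type} (l : List γ),
      l = (List.finRange l.length).map fun i : Fin l.length => l[(i : ℕ)]'i.2 := by
    intro γ l
    rw [← List.ofFn_eq_map]
    simp
  have h1 : ∀ {γ : Type} (l : List γ) {β : Type} (g : γ → β),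
      l.map g = (List.finRange l.length).map fun i : Fin l.length => g (l[(i : ℕ)]'i.2) := by
    intro γ l β g
    conv_lhs => rw [h l]
    rw [List.map_map]
    rfl
  have h2 : ∀ {γ : Type} (l : List γ) {β : Type} (g : γ → List β),
      l.flatMap g =
        (List.finRange l.length).flatMap fun i : Fin l.length => g (l[(i : ℕ)]'i.2) := by
    intro γ l β g
    rw [List.flatMap_def, List.flatMap_def, h1 l g]
  rw [h2]
  congr 1
  funext i
  rw [h1]
  congr 1
  funext j
  rw [Bool.eq_iff_iff, decide_eq_true_iff]
  rfl

theorem outG_bip (k e : ℕ) (TL : List (Mn × Mn × Mn)) : Bip (outG k e TL) := by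
  refine ⟨fun i => ((outV k e TL)[i]).1, fun u v h hs => ?_⟩
  have h' : gadj (2 * k) TL (outV k e TL)[u] (outV k e TL)[v] = true := h
  unfold gadj at h'
  simp only at hs
  rw [hs] at h'
  cases h2 : (outV k e TL)[v].1
  · rw [h2] at h'
    simp at h'
  · rw [h2] at h'
    simp at h'

end Pool.Agent.LibOpc
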