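import Pool.Agent.LibOpc.ON15

set_option autoImplicit false

/-!
The recognition problem for a fixed number `k` is in NP.
-/

namespace Pool.Agent.LibOpc

open SimpleGraph Pool.Agent.LibPcg Pool.Agent.LibComplexity

/-- the verifier for a fixed number `k` -/
def onVk (k : ℕ) (p : List Bool × List Bool) : Bool :=
  decide ((read (ℕ × ℕ × List Bool) p.1).2.1 = k) && onV p

theorem pt_onVk (k : ℕ) {𝒜 : Set Orc} : PTf 𝒜 (fun _ (p : List Bool × List Bool) => onVk k p) := by
  unfold onVk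
  have hI : PTf 𝒜 (fun _ (p : List Bool × List Bool) => read (ℕ × ℕ × List Bool) p.1) :=
    PTf.read PTf.id.fst
  exact (PTf.decide_eq hI.snd.fst (PTf.const k)).band pt_onV

theorem read_encode {n : ℕ} (G : SimpleGraph (Fin n)) (k : ℕ) :
    read (ℕ × ℕ × List Bool) (encode G k) = (n, k, matrixBits G) := by
  have := read_word (n, k, matrixBits G) []
  rwa [List.append_nil] at this

theorem mem_orPCG_iff {n : ℕ} (G : SimpleGraph (Fin n)) {k : ℕ} (hk : 1 ≤ k) :
    encode G k ∈ OrPCG ↔ IsOrPCG k G := by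
  constructor
  · rintro ⟨n', k', G', hk', he, h'⟩
    have h1 := word_injective he
    simp only [Prod.mk.injEq] at h1
    obtain ⟨rfl, rfl, h2⟩ := h1
    have h3 : G = G' := by
      ext u v
      rw [← matrixBits_getD' G u v, ← matrixBits_getD' G' u v, h2]
    rw [h3]
    exact h'
  · intro h
    exact ⟨n, k, G, hk, rfl, h⟩

theorem mem_orPCGk_iff {n : ℕ} (G : SimpleGraph (Fin n)) (k : ℕ) :
    encode G k ∈ OrPCGk k ↔ IsOrPCG k G := by
  constructor
  · rintro ⟨n', G', he, h'⟩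
    have h1 := word_injective he
    simp only [Prod.mk.injEq] at h1
    obtain ⟨rfl, -, h2⟩ := h1
    have h3 : G = G' := by
      ext u v
      rw [← matrixBits_getD' G u v, ← matrixBits_getD' G' u v, h2]
    rw [h3]
    exact h'
  · intro h
    exact ⟨n, G, rfl, h⟩

theorem orPCGk_inNP (k : ℕ) (hk : 1 ≤ k) : InNP ∅ (OrPCGk k) := by
  rw [inNP_iff]
  obtain ⟨q, hq⟩ : ∃ q : Polynomial ℕ, ∀ x, x ∈ OrPCG ↔
      ∃ y : List Bool, y.length = q.eval x.length ∧ onV (x, y) = true := orPCG_verifier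
  refine ⟨fun _ p => onVk k p, q, pt_onVk k, fun x => ⟨?_, ?_⟩⟩
  · rintro ⟨n, G, rfl, h⟩
    obtain ⟨y, hy, hV⟩ := (hq _).1 ((mem_orPCG_iff G hk).2 h)
    refine ⟨y, hy, ?_⟩
    show onVk k (encode G k, y) = true
    unfold onVk
    rw [read_encode]
    simpa using hV
  · rintro ⟨y, hy, hV⟩
    have hV' : onVk k (x, y) = true := hV
    unfold onVk at hV'
    rw [Bool.and_eq_true, decide_eq_true_iff] at hV'
    obtain ⟨h1, h2⟩ := hV'
    obtain ⟨n, k', G, hk', rfl, h⟩ := (hq x).2 ⟨y, hy, h2⟩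
    rw [read_encode] at h1
    have h1' : k' = k := h1
    subst h1'
    exact ⟨n, G, rfl, h⟩

end Pool.Agent.LibOpc
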