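import Pool.Agent.LibOpc.OM3
import Pool.Agent.LibOpc.ON16

set_option autoImplicit false

/-!
NP-hardness, from the correctness of the reduction.
-/

namespace Pool.Agent.LibOpc

open SimpleGraph Pool.Agent.LibPcg Pool.Agent.LibComplexity

theorem orPCG_hard (k e : ℕ)
    (h : ∀ φ : List (List (Vr × Bool)), (∃ a : Vr → Bool, ∀ c ∈ φ, ∃ l ∈ c, a l.1 = l.2) ↔
      IsOrPCG k (outG k e (TLof φ)))
    (L : Set (List Bool)) (hL : InNP ∅ L) :
    ∃ f : List Bool → List Bool, InFP ∅ f ∧ ∀ w, ∃ (n : ℕ) (G : SimpleGraph (Fin n)),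
      Bip G ∧ f w = encode G k ∧ (w ∈ L ↔ IsOrPCG k G) := by
  obtain ⟨F, hF, -, hFL⟩ := cook_levin hL
  refine ⟨fun x => red k e (F x),
    inFP_of_PTf (A := ∅) (f := fun _ x => red k e (F x)) (pt_red k e (hF {∅})), fun w => ?_⟩
  refine ⟨_, outG k e (TLof (F w)), outG_bip _ _ _, red_eq _ _ _, ?_⟩
  rw [hFL w, ← h]
  rfl

end Pool.Agent.LibOpc
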