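import Pool.Agent.LibOpc.OB10
import Pool.Agent.LibPcg.PC6

set_option autoImplicit false

/-!
Every graph with `n` vertices is a `k`-OR-PCG for all `k ≥ n ^ 2`.
-/

namespace Pool.Agent.LibOpc

open SimpleGraph Pool.Agent.LibPcg

theorem isOrPCG_of_le {n k : ℕ} (hn : 1 ≤ n) (hk : n * n ≤ k) (G : SimpleGraph (Fin n)) :
    IsOrPCG k G := by
  classical
  have : Nonempty (Fin n) := ⟨⟨0, hn⟩⟩
  rw [orPCG_iff]
  -- the pair of vertices which belongs to the index `i`
  let p : Fin k → Fin n := fun i => ⟨i.1 / n % n, Nat.mod_lt _ hn⟩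
  let q : Fin k → Fin n := fun i => ⟨i.1 % n, Nat.mod_lt _ hn⟩
  let ω : Fin k → Fin n → ℝ := fun i x =>
    if G.Adj (p i) (q i) ∧ (x = p i ∨ x = q i) then 0 else 1
  have hω : ∀ i x, 0 ≤ ω i x := by
    intro i x
    simp only [ω]
    split_ifs <;> norm_num
  have hF : ∀ i, ∃ d : Fin n → Fin n → ℝ, FourPt d ∧ ∀ x y, x ≠ y → d x y = ω i x + ω i y := by
    intro i
    refine ⟨_, fourPt_star (fun _ => true) (ω i) (hω i) 0 le_rfl, fun x y hxy => ?_⟩
    simp only [if_neg hxy, if_true, add_zero]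
  choose d hd hd' using hF
  refine ⟨d, fun _ => 0, fun _ => 1, hd, fun _ => ⟨le_rfl, by norm_num⟩, ?_⟩
  intro u v
  constructor
  · intro h
    refine ⟨h.ne, ?_⟩
    have hlt : u.1 * n + v.1 < k := by
      have h1 := u.2
      have h2 := v.2
      have : u.1 * n + v.1 < n * n := by nlinarith
      omega
    have e1 : (u.1 * n + v.1) / n = u.1 := by
      rw [mul_comm, Nat.mul_add_div hn, Nat.div_eq_of_lt v.2, add_zero]
    have e2 : (u.1 * n + v.1) % n = v.1 := by
      rw [mul_comm, Nat.mul_add_mod, Nat.mod_eq_of_lt v.2]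
    have hp : p ⟨u.1 * n + v.1, hlt⟩ = u := by
      apply Fin.ext
      show (u.1 * n + v.1) / n % n = u.1
      rw [e1, Nat.mod_eq_of_lt u.2]
    have hq : q ⟨u.1 * n + v.1, hlt⟩ = v := by
      apply Fin.ext
      exact e2
    refine ⟨⟨u.1 * n + v.1, hlt⟩, ?_⟩
    rw [hd' _ u v h.ne]
    simp only [ω, hp, hq]
    simp [h]
  · rintro ⟨huv, i, h1, h2⟩
    rw [hd' i u v huv] at h2
    have hu := hω i u
    have hv := hω i v
    have h01 : ∀ x, ω i x = 0 ∨ ω i x = 1 := by
      intro x
      simp only [ω]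
      split_ifs <;> simp
    have hu0 : ω i u = 0 := by
      rcases h01 u with h | h
      · exact h
      · linarith
    have hv0 : ω i v = 0 := by
      rcases h01 v with h | h
      · exact h
      · linarith
    have key : ∀ x, ω i x = 0 → G.Adj (p i) (q i) ∧ (x = p i ∨ x = q i) := by
      intro x hx
      by_contra h
      simp only [ω, if_neg h] at hx
      norm_num at hx
    obtain ⟨h3, h4⟩ := key u hu0
    obtain ⟨-, h5⟩ := key v hv0
    rcases h4 with rfl | rfl <;> rcases h5 with h5 | h5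
    · exact absurd h5.symm huv
    · rw [h5]; exact h3
    · rw [h5]; exact h3.symm
    · exact absurd h5.symm huv

end Pool.Agent.LibOpc
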