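import Pool.Agent.LibOpc.OM4
import Pool.Agent.LibOpc.OX1

set_option autoImplicit false

/-!
The final statement, from the correctness of the reduction.
-/

namespace Pool.Agent.LibOpc

open SimpleGraph Pool.Agent.LibPcg Pool.Agent.LibComplexity

theorem final (k₀ : ℕ) (h : ∀ k, k₀ ≤ k → ∃ e : ℕ, ∀ φ : List (List (Vr × Bool)),
    (∃ a : Vr → Bool, ∀ c ∈ φ, ∃ l ∈ c, a l.1 = l.2) ↔ IsOrPCG k (outG k e (TLof φ))) :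
    InNP ∅ OrPCG ∧ (∀ k, 1 ≤ k → InNP ∅ (OrPCGk k)) ∧
    (∃ k₀ : ℕ, ∀ k, k₀ ≤ k → ∀ L : Set (List Bool), InNP ∅ L →
      ∃ f : List Bool → List Bool, InFP ∅ f ∧ (∀ w, w ∈ L ↔ f w ∈ OrPCGk k) ∧
        (∀ w, w ∈ L ↔ f w ∈ OrPCG) ∧
        ∀ w, ∃ (n : ℕ) (G : SimpleGraph (Fin n)), Bip G ∧ f w = encode G k ∧
          (w ∈ L ↔ IsOrPCG k G)) ∧
    ∀ (n k : ℕ) (G : SimpleGraph (Fin n)), 1 ≤ n → n ^ 2 ≤ k → IsOrPCG k G := by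
  refine ⟨orPCG_inNP, orPCGk_inNP, ⟨max k₀ 1, fun k hk L hL => ?_⟩, fun n k G hn hk =>
    isOrPCG_of_le hn (by rw [← pow_two]; exact hk) G⟩
  obtain ⟨e, he⟩ := h k (le_trans (le_max_left _ _) hk)
  obtain ⟨f, hf, hw⟩ := orPCG_hard k e he L hL
  refine ⟨f, hf, fun w => ?_, fun w => ?_, hw⟩
  · obtain ⟨n, G, -, hfw, hG⟩ := hw w
    rw [hfw, hG, mem_orPCGk_iff]
  · obtain ⟨n, G, -, hfw, hG⟩ := hw w
    rw [hfw, hG, mem_orPCG_iff G (le_trans (le_max_right _ _) hk)]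

end Pool.Agent.LibOpc
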