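import Pool.Agent.LibPcg.PNDefs
import Pool.Agent.LibPcg.PN7
import Pool.Agent.LibPcg.PN8
import Pool.Agent.LibPcg.PN10
import Pool.Agent.LibOpc.ON9

set_option autoImplicit false

/-!
Row PN10. Soundness of the verifier.
Sketch. From `okAll`: unfold, `List.all_eq_true`, `List.mem_range`, `decide_eq_true_eq`, rewrite all `leq2`
with `leq2_iff` (PN7) and `numAt_end` (PN8). Let `d i u v := numAt y (bnd n) (off n i (u * n + v))`, `a i`, `b i` the
numbers at `n * n`, `n * n + 1`. `okFour`, `okSelf`, `okSymm` give `FourPt` (casts to `ℝ`;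
`p + q ≤ r + s ∨ p + q ≤ r' + s'` gives `≤ max`). `numAt_lt : numAt y L o < 2 ^ L` (induction) is needed
for the bounds. `G.Adj u v := b.getD (u * n + v) false = true`; it is symmetric and irreflexive by
`okAdj` and the symmetry of `d`. Then `orPCG_iff_nat` (PN9). For the last claim see the statement.
-/

namespace Pool.Agent.LibOpc

open SimpleGraph Pool.Agent.LibPcg

theorem okAllO_sound (y b : List Bool) (n k : ℕ) (h : okAllO y b n k = true) :
    1 ≤ k ∧ b.length = n * n ∧ ∃ G : SimpleGraph (Fin n),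
      (∀ u v : Fin n, G.Adj u v ↔ b.getD (u * n + v) false = true) ∧ IsOrPCG k G := by
  unfold okAllO at h
  simp only [Bool.and_eq_true, decide_eq_true_eq] at h
  obtain ⟨hn, hk, hb, h1, h2⟩ := h
  have h3 : ∀ i < k, okFour y n i = true ∧ okSelf y n i = true ∧ okSymm y n i = true := by
    intro i hi
    have h4 := List.all_eq_true.1 h1 i (List.mem_range.2 hi)
    rw [Bool.and_eq_true, Bool.and_eq_true] at h4
    exact h4
  obtain ⟨d, hd⟩ : ∃ d : Fin k → Fin n → Fin n → ℕ, d = fun (i : Fin k) (u v : Fin n) =>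
    numAt y (bnd n) (off n i (u * n + v)) := ⟨_, rfl⟩
  have hdi : ∀ i u v, d i u v = numAt y (bnd n) (off n i (u * n + v)) := fun i u v => by rw [hd]
  have hsym : ∀ i u v, d i u v = d i v u := fun i u v => by
    rw [hdi, hdi]
    exact PN10_symm (h3 i i.2).2.2 u.2 v.2
  refine ⟨hk, hb,
    { Adj := fun u v => u ≠ v ∧ ∃ i : Fin k, numAt y (bnd n) (off n i (n * n)) ≤ d i u v ∧
        d i u v < numAt y (bnd n) (off n i (n * n + 1))
      symm := ⟨fun u v huv => ⟨huv.1.symm, huv.2.imp fun i hi => by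
        rw [hsym i v u]
        exact hi⟩⟩
      loopless := ⟨fun u hu => hu.1 rfl⟩ }, fun u v => ?_, ?_⟩
  · show (u ≠ v ∧ ∃ i : Fin k, numAt y (bnd n) (off n i (n * n)) ≤ d i u v ∧
        d i u v < numAt y (bnd n) (off n i (n * n + 1))) ↔ _
    unfold okAdjO at h2
    have h4 := List.all_eq_true.1 (List.all_eq_true.1 h2 u (List.mem_range.2 u.2)) v
      (List.mem_range.2 v.2)
    rw [decide_eq_true_eq] at h4
    rw [h4, Bool.and_eq_true, Bool.not_eq_true', decide_eq_false_iff_not, List.any_eq_true]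
    refine and_congr ?_ ?_
    · rw [ne_eq, Fin.ext_iff]
    · constructor
      · rintro ⟨i, h6⟩
        refine ⟨i.1, List.mem_range.2 i.2, ?_⟩
        rw [PN10_inInt]
        rw [hdi] at h6
        exact h6
      · rintro ⟨i, hi, h6⟩
        refine ⟨⟨i, List.mem_range.1 hi⟩, ?_⟩
        rw [PN10_inInt] at h6
        rw [hdi]
        exact h6
  · rw [orPCG_iff_nat hn]
    refine ⟨d, fun i => numAt y (bnd n) (off n i (n * n)),
      fun i => numAt y (bnd n) (off n i (n * n + 1)), fun i => ?_, fun i u v => ?_, fun i => ?_,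
      fun u v => Iff.rfl⟩
    · refine ⟨fun x => ?_, fun x x' => ?_, fun x x' z u => ?_⟩
      · show ((d i x x : ℕ) : ℝ) = 0
        rw [hdi, PN10_self (h3 i i.2).2.1 x.2, Nat.cast_zero]
      · show ((d i x x' : ℕ) : ℝ) = ((d i x' x : ℕ) : ℝ)
        rw [hsym]
      · show ((d i x x' : ℕ) : ℝ) + ((d i z u : ℕ) : ℝ) ≤
          max (((d i x z : ℕ) : ℝ) + ((d i x' u : ℕ) : ℝ))
            (((d i x u : ℕ) : ℝ) + ((d i x' z : ℕ) : ℝ))
        rw [le_max_iff, hdi, hdi, hdi, hdi, hdi, hdi]
        rcases PN10_four (h3 i i.2).1 x.2 x'.2 z.2 u.2 with h5 | h5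
        · left
          exact_mod_cast h5
        · right
          exact_mod_cast h5
    · rw [hdi]
      exact numAt_lt _ _ _
    · exact ⟨numAt_lt _ _ _, numAt_lt _ _ _⟩

end Pool.Agent.LibOpc
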