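import Pool.Agent.LibOpc.ONDefs
import Pool.Agent.LibPcg.PN14

set_option autoImplicit false

/-!
The verifier runs in polynomial time.
-/

namespace Pool.Agent.LibOpc

open SimpleGraph Pool.Agent.LibPcg Pool.Agent.LibComplexity

theorem pt_okAdjO {α : Type} [Enc α] {𝒜 : Set Orc} {y b : Orc → α → List Bool}
    {n k : Orc → α → ℕ} (hy : PTf 𝒜 y) (hb : PTf 𝒜 b) (hn : PTf 𝒜 n) (hk : PTf 𝒜 k) :
    PTf 𝒜 (fun A x => okAdjO (y A x) (b A x) (n A x) (k A x)) := by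
  unfold okAdjO
  refine hn.range.all (p := fun A x (u : ℕ) => (List.range (n A x)).all fun v =>
    decide ((b A x).getD (u * n A x + v) false = (!decide (u = v) &&
      (List.range (k A x)).any fun i => inInt (y A x) (n A x) i u v))) ?_
  have hn1 : PTf 𝒜 (fun A (p : α × ℕ) => n A p.1) := hn.comp PTf.id.fst
  refine hn1.range.all (p := fun A (x : α × ℕ) (v : ℕ) =>
    decide ((b A x.1).getD (x.2 * n A x.1 + v) false = (!decide (x.2 = v) &&
      (List.range (k A x.1)).any fun i => inInt (y A x.1) (n A x.1) i x.2 v))) ?_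
  have hn2 : PTf 𝒜 (fun A (p : (α × ℕ) × ℕ) => n A p.1.1) := hn1.comp PTf.id.fst
  have hb2 : PTf 𝒜 (fun A (p : (α × ℕ) × ℕ) => b A p.1.1) := hb.comp PTf.id.fst.fst
  have hk2 : PTf 𝒜 (fun A (p : (α × ℕ) × ℕ) => k A p.1.1) := hk.comp PTf.id.fst.fst
  have hu : PTf 𝒜 (fun A (p : (α × ℕ) × ℕ) => p.1.2) := PTf.id.fst.snd
  have hv : PTf 𝒜 (fun A (p : (α × ℕ) × ℕ) => p.2) := PTf.id.snd
  refine PTf.decide_eq (hb2.listGetD ((hu.mul hn2).add hv) (PTf.const false))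
    ((PTf.decide_eq hu hv).bnot.band ?_)
  refine hk2.range.any (p := fun A (x : (α × ℕ) × ℕ) (i : ℕ) =>
    inInt (y A x.1.1) (n A x.1.1) i x.1.2 x.2) ?_
  exact pt_inInt (hy.comp PTf.id.fst.fst.fst) (hn2.comp PTf.id.fst) PTf.id.snd PTf.id.fst.fst.snd
    PTf.id.fst.snd

theorem pt_okAllO {α : Type} [Enc α] {𝒜 : Set Orc} {y b : Orc → α → List Bool}
    {n k : Orc → α → ℕ} (hy : PTf 𝒜 y) (hb : PTf 𝒜 b) (hn : PTf 𝒜 n) (hk : PTf 𝒜 k) :
    PTf 𝒜 (fun A x => okAllO (y A x) (b A x) (n A x) (k A x)) := by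
  unfold okAllO
  refine (PTf.decide_le (PTf.const 1) hn).band ((PTf.decide_le (PTf.const 1) hk).band
    ((PTf.decide_eq hb.length (hn.mul hn)).band (PTf.band ?_ (pt_okAdjO hy hb hn hk))))
  refine hk.range.all (p := fun A x (i : ℕ) => okFour (y A x) (n A x) i &&
    (okSelf (y A x) (n A x) i && okSymm (y A x) (n A x) i)) ?_
  have hn1 : PTf 𝒜 (fun A (p : α × ℕ) => n A p.1) := hn.comp PTf.id.fst
  have hy1 : PTf 𝒜 (fun A (p : α × ℕ) => y A p.1) := hy.comp PTf.id.fst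
  have hi1 : PTf 𝒜 (fun A (p : α × ℕ) => p.2) := PTf.id.snd
  exact (pt_okFour hy1 hn1 hi1).band ((pt_okSelf hy1 hn1 hi1).band (pt_okSymm hy1 hn1 hi1))

end Pool.Agent.LibOpc
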