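import Pool.Agent.LibOpc.ODefs
import Pool.Agent.LibPcg.PNDefs
import Pool.Agent.LibPcg.MDefs

set_option autoImplicit false

/-!
Definitions for the machine part: languages, verifier, reduction as a function on words.
-/

namespace Pool.Agent.LibOpc

open SimpleGraph Pool.Agent.LibPcg Pool.Agent.LibComplexity

/-- the recognition problem of `k`-OR-PCGs, `k` being part of the input -/
def OrPCG : Set (List Bool) :=
  {x | ∃ (n k : ℕ) (G : SimpleGraph (Fin n)), 1 ≤ k ∧ x = encode G k ∧ IsOrPCG k G}

/-- the recognition problem of `k`-OR-PCGs for a fixed number `k` -/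
def OrPCGk (k : ℕ) : Set (List Bool) :=
  {x | ∃ (n : ℕ) (G : SimpleGraph (Fin n)), x = encode G k ∧ IsOrPCG k G}

/-- the adjacency matrix `b` is the one which is defined by the trees -/
def okAdjO (y b : List Bool) (n k : ℕ) : Bool :=
  (List.range n).all fun u => (List.range n).all fun v =>
    decide (b.getD (u * n + v) false = (!decide (u = v) && (List.range k).any fun i =>
      inInt y n i u v))

/-- all checks -/
def okAllO (y b : List Bool) (n k : ℕ) : Bool :=
  decide (1 ≤ n) && (decide (1 ≤ k) && (decide (b.length = n * n) &&
    (((List.range k).all fun i => okFour y n i && (okSelf y n i && okSymm y n i)) &&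
      okAdjO y b n k)))

/-- the adjacency matrix of the output graph -/
def gbits (D : ℕ) (TL : List (Mn × Mn × Mn)) (l : List Vc) : List Bool :=
  l.flatMap fun x => l.map fun y => gadj D TL x y

/-- the reduction -/
def red (k e : ℕ) {V : Type} [DecidableEq V] (φ : List (List (V × Bool))) : List Bool :=
  word ((outV k e (TLof φ)).length, k, gbits (2 * k) (TLof φ) (outV k e (TLof φ)))

end Pool.Agent.LibOpc
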