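import Pool.Agent.LibPcg.PNDefs
import Pool.Agent.LibPcg.MDefs
import Pool.Agent.LibOpc.ONDefs
import Pool.Agent.LibOpc.OB12
import Pool.Agent.LibOpc.ON10
import Pool.Agent.LibOpc.ON11
import Pool.Agent.LibPcg.PN12
import Pool.Agent.LibOpc.ON14

set_option autoImplicit false

/-!
The recognition problem of `k`-OR-PCGs is in NP.
-/

namespace Pool.Agent.LibOpc

open SimpleGraph Pool.Agent.LibPcg Pool.Agent.LibComplexity

/-- the verifier -/
def onV (p : List Bool × List Bool) : Bool :=
  decide (word (read (ℕ × ℕ × List Bool) p.1) = p.1) &&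
    okAllO p.2 (read (ℕ × ℕ × List Bool) p.1).2.2 (read (ℕ × ℕ × List Bool) p.1).1
      (read (ℕ × ℕ × List Bool) p.1).2.1

theorem pt_onV {𝒜 : Set Orc} : PTf 𝒜 (fun _ (p : List Bool × List Bool) => onV p) := by
  unfold onV
  have hI : PTf 𝒜 (fun _ (p : List Bool × List Bool) => read (ℕ × ℕ × List Bool) p.1) :=
    PTf.read PTf.id.fst
  exact (PTf.decide_eq hI.word PTf.id.fst).band (pt_okAllO PTf.id.snd hI.snd.snd hI.fst hI.snd.fst)

theorem orPCG_verifier : ∃ q : Polynomial ℕ, ∀ x, x ∈ OrPCG ↔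
    ∃ y : List Bool, y.length = q.eval x.length ∧ onV (x, y) = true := by
  let q : Polynomial ℕ := Polynomial.X * (Polynomial.X * Polynomial.X + 2) *
    ((Polynomial.X * Polynomial.X + 2) * (Polynomial.X * Polynomial.X + 2) +
      2 * (Polynomial.X * Polynomial.X + 2) + 1)
  refine ⟨q, fun x => ⟨?_, ?_⟩⟩
  · rintro ⟨n, k, G, hk, rfl, h⟩
    have hne : Nonempty (Fin n) := nonempty_of_isOrPCG hk h
    have hn : 1 ≤ n := by
      obtain ⟨i⟩ := hne
      have := i.2
      omega
    have hread : read (ℕ × ℕ × List Bool) (encode G k) = (n, k, matrixBits G) := by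
      have := read_word (n, k, matrixBits G) []
      rwa [List.append_nil] at this
    have hX : (encode G k).length = sz (n, k, matrixBits G) := length_word _
    set X := sz (n, k, matrixBits G) with hXdef
    have h1 : n ≤ X := by
      rw [hXdef, sz_pair, sz_nat]; omega
    have h2 : k ≤ X := by
      rw [hXdef, sz_pair, sz_pair, sz_nat, sz_nat]; omega
    have hnn : n * n ≤ X * X := Nat.mul_le_mul h1 h1
    have hM : k * (n * n + 2) * bnd n ≤ q.eval (encode G k).length := by
      rw [hX]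
      simp only [q, Polynomial.eval_add, Polynomial.eval_mul, Polynomial.eval_X,
        Polynomial.eval_ofNat, Polynomial.eval_one]
      unfold bnd
      have h3 : n * n + 2 ≤ X * X + 2 := by omega
      have h4 : k * (n * n + 2) ≤ X * (X * X + 2) := Nat.mul_le_mul h2 h3
      have h5 : (n * n + 2) * (n * n + 2) ≤ (X * X + 2) * (X * X + 2) := Nat.mul_le_mul h3 h3
      exact Nat.mul_le_mul h4 (by omega)
    obtain ⟨y, hy, hok⟩ := okAllO_complete hn hk G (matrixBits G) (length_matrixBits' G)
      (fun u v => (matrixBits_getD' G u v).symm) h _ hM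
    refine ⟨y, hy, ?_⟩
    show onV (encode G k, y) = true
    unfold onV
    simp only [hread]
    rw [hok, Bool.and_true, decide_eq_true_iff]
    rfl
  · rintro ⟨y, -, hy⟩
    have hy' : onV (x, y) = true := hy
    unfold onV at hy'
    rw [Bool.and_eq_true, decide_eq_true_iff] at hy'
    obtain ⟨h1, h2⟩ := hy'
    set I := read (ℕ × ℕ × List Bool) x with hI
    obtain ⟨hk, hb, G, hG, hP⟩ := okAllO_sound y I.2.2 I.1 I.2.1 h2
    refine ⟨I.1, I.2.1, G, hk, ?_, hP⟩
    have h3 := eq_matrixBits G I.2.2 hb hG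
    unfold encode
    rw [← h3]
    exact h1.symm

theorem orPCG_inNP : InNP ∅ OrPCG := by
  rw [inNP_iff]
  obtain ⟨q, hq⟩ := orPCG_verifier
  exact ⟨fun _ p => onV p, q, pt_onV, hq⟩

end Pool.Agent.LibOpc
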